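import Mathlib

/-!
Executable checkers for the non-existence proof (dimensions 2, 4, 6).
A pattern records, for some rows `i` and all points `j`, a digit: `1` (coordinate `+1`),
`2` (coordinate `-1`) or `0` (dual entry zero).
-/

namespace Pool.Agent.Lib.MP_485030_co

noncomputable section

/-- Base four digit. -/
def dig (x i : ℕ) : ℕ := Nat.mod (Nat.shiftRight x (Nat.mul 2 i)) 4

/-- Digit of the opposite sign. -/
def flipd (d : ℕ) : ℕ := bif Nat.beq d 1 then 2 else bif Nat.beq d 2 then 1 else 0

/-- Column `j` of a packed pattern. -/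
def col (code j : ℕ) : ℕ := Nat.mod (Nat.shiftRight code (Nat.mul 12 j)) 4096

/-- Digit in row `i` and column `j` of a packed pattern. -/
def dg (code i j : ℕ) : ℕ := Nat.mod (Nat.shiftRight code (Nat.add (Nat.mul 12 j) (Nat.mul 2 i))) 4

def sumN (n : ℕ) (f : ℕ → ℕ) : ℕ := Nat.rec 0 (fun k acc => Nat.add (f k) acc) n

def allN (n : ℕ) (f : ℕ → Bool) : Bool := Nat.rec true (fun k acc => f k && acc) n

/-- Evaluate a natural number before passing it on. -/
def force {β : Type} (x : ℕ) (k : ℕ → β) : β := Nat.rec (k 0) (fun n _ => k (Nat.succ n)) x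

def slot (D k : ℕ) : ℕ := Nat.mod (Nat.shiftRight D (Nat.mul 20 k)) 1048576

/-- Number of points with digit `d`. -/
def cnt (m : ℕ) (f : ℕ → ℕ) (d : ℕ) : ℕ := sumN m fun j => bif Nat.beq (f j) d then 1 else 0

section bounds

/-- Upper bound for the scaled weight on a side with `k` points. -/
def aHi0 (m k : ℕ) : ℤ := if k = 1 then m else m - 2

/-- Lower bound for the scaled weight on a side with `k` points. -/
def aLo0 (m k : ℕ) : ℤ := max 0 (m - (k - 1 : ℤ) * (m - 2))

/-- Bound for a free coordinate in the direction of a side with `k` points. -/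
def yB0 (m k : ℕ) : ℤ := if k = 1 then m - 4 else m

def yHi0 (m P N : ℕ) : ℤ := min (yB0 m P) (m * ((N : ℤ) - P) + ((m : ℤ) - P - N - 1) * yB0 m N)

def yLo0 (m P N : ℕ) : ℤ := -yHi0 m N P

/-- Entry of a table of small numbers. -/
def tab (T i j : ℕ) : ℕ := Nat.mod (Nat.shiftRight T (Nat.mul 4 (Nat.add (Nat.mul 7 i) j))) 16

def nib (I i : ℕ) : ℕ := Nat.mod (Nat.shiftRight I (Nat.mul 4 i)) 16

/-- The table of bounds for `P, N ≤ 3`, for `m = 7` and `m = 5`. -/
def infoTab (m : ℕ) : ℕ := bif Nat.beq m 7 then 0x7755000705520004757007055c00e755020e0552209475720e055c20af57070a557270a477770a057c70e7550c0e0552c0e4757c0e055cc0 else 0xf330000533200045350000338005f330205533220145352050338206f35050693525064555506035850af33080a533280a453580a033880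

def infoCheck (m : ℕ) : Bool := allN 4 fun P => allN 4 fun N =>
  decide ((tab (infoTab m) (4 * P + N) 1 : ℤ) ≤ aLo0 m P ∧
    (tab (infoTab m) (4 * P + N) 2 : ℤ) ≤ aLo0 m N ∧
    aHi0 m P ≤ (tab (infoTab m) (4 * P + N) 3 : ℤ) ∧
    aHi0 m N ≤ (tab (infoTab m) (4 * P + N) 4 : ℤ) ∧
    (tab (infoTab m) (4 * P + N) 5 : ℤ) ≤ max 0 (yLo0 m P N + m) ∧
    yHi0 m P N + m ≤ (tab (infoTab m) (4 * P + N) 6 : ℤ))

end bounds

section lp

variable (m t : ℕ) (d : ℕ → ℕ → ℕ) (R : ℕ → ℕ → ℕ) (P N : ℕ → ℕ) (D : ℕ)

def mAl (l j : ℕ) : ℕ := bif Nat.beq l j then 0 else slot D (Nat.add (Nat.mul 7 l) j)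
def mBe (l j : ℕ) : ℕ := bif Nat.beq l j then 0 else slot D (Nat.add 49 (Nat.add (Nat.mul 7 l) j))
def mRho (i e : ℕ) : ℕ := slot D (Nat.add (Nat.mul 2 i) (Nat.add 97 e))
def mZe (i : ℕ) : ℕ := slot D (Nat.add 108 i)
def mOm (i k : ℕ) : ℕ := slot D (Nat.add 113 (Nat.add (Nat.mul 5 i) k))
def mNu (i l : ℕ) : ℕ := slot D (Nat.add 138 (Nat.add (Nat.mul 7 i) l))
def mMu (i e j : ℕ) : ℕ := slot D (Nat.add (Nat.add (Nat.mul 14 i) j) (Nat.add 166 (Nat.mul 7 e)))
def qC (i l k : ℕ) : ℕ := slot D (Nat.add 243 (Nat.add (Nat.mul 35 i) (Nat.add (Nat.mul 5 l) k)))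
def qB (i l j : ℕ) : ℕ := slot D (Nat.add 418 (Nat.add (Nat.mul 49 i) (Nat.add (Nat.mul 7 l) j)))

/-- Upper bound for `B + (p - n) * (z - m)` when `lo ≤ z ≤ hi`. -/
def mxb (B p n lo hi : ℕ) : ℕ := force p fun p => force n fun n =>
  Nat.sub (Nat.add B (Nat.add (Nat.mul (Nat.sub p n) hi) (Nat.mul m n)))
    (Nat.add (Nat.mul (Nat.sub n p) lo) (Nat.mul m p))

def xs (i l e j : ℕ) : ℕ := force (d i j) fun f =>
  bif Nat.beq f 0 then Nat.add (mAl D l j) (mBe D l j) else
  bif Nat.beq f e then Nat.mul 2 (mAl D l j) else Nat.mul 2 (mBe D l j)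

def xo (i l e k : ℕ) : ℕ := force (d k l) fun f =>
  bif Nat.beq f 0 || Nat.beq i k then 524288 else
  bif Nat.beq f e then mOm D i k else Nat.sub 1048576 (mOm D i k)

def cX (i l e ν : ℕ) : ℕ := Nat.sub
  (Nat.add (Nat.add 1099511627776 (mRho D i e)) (Nat.mul m (Nat.add (Nat.mul ν (P i))
    (Nat.add (Nat.mul 524288 (N i)) (sumN t (xo d D i l e))))))
  (Nat.add 524288 (Nat.mul m (Nat.add (Nat.mul ν (N i))
    (Nat.add (Nat.mul 524288 (Nat.add (P i) t)) (sumN m (xs d D i l e))))))

def fB (i l e ν lo hi a j : ℕ) : ℕ := bif Nat.beq (d i j) 0 then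
  mxb m 1099511627776
    (Nat.add 524288 (Nat.mul a (Nat.add (bif Nat.beq e 1 then mBe D l j else mAl D l j)
      (Nat.add (mMu D i e j) ν))))
    (Nat.add (qB D i l j) (Nat.mul a (Nat.add (bif Nat.beq e 1 then mAl D l j else mBe D l j)
      1048576))) lo hi else 1099511627776

def fC (i l e a k : ℕ) : ℕ := bif Nat.beq (d k l) 0 then
  mxb m 1099511627776
    (Nat.add 524288 (Nat.mul a (bif Nat.beq e 1 then mOm D i k else 524288)))
    (Nat.add (qC D i l k) (Nat.mul a (bif Nat.beq e 1 then 524288 else mOm D i k)))
    (R k 5) (R k 6) else 1099511627776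

def blockAt (i l e ν X lo hi a : ℕ) : ℕ := Nat.sub
  (Nat.add (Nat.add (Nat.mul m 1099511627776) (Nat.mul a X))
    (Nat.add (sumN m (fB m d D i l e ν lo hi a)) (sumN t (fC m d R D i l e a))))
  (Nat.mul a 1099511627776)

def yTerm (k j : ℕ) : ℕ :=
  mxb m (Nat.mul (Nat.add (Nat.mul 2 m) t) 1099511627776)
    (Nat.add (Nat.add (mZe D k) (Nat.mul m 1048576))
      (Nat.add (sumN m fun l => bif Nat.beq (d k l) 0 then 524288 else qB D k l j)
        (sumN t fun i => bif Nat.beq (d i j) 0 then 524288 else qC D i j k)))
    (Nat.add (Nat.mul m (Nat.add (mMu D k 1 j) (mMu D k 2 j)))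
      (Nat.mul 524288 (Nat.succ (Nat.add m t)))) (R k 5) (R k 6)

def cell (i l : ℕ) : ℕ := force (d i l) fun e => bif Nat.beq e 0 then yTerm m t d R D i l else
  force (mNu D i l) fun ν => force (cX m t d P N D i l e ν) fun X =>
  force (R i 5) fun lo => force (R i 6) fun hi =>
  force (R i e) fun a => force (R i (Nat.add e 2)) fun b =>
  force (blockAt m t d R D i l e ν X lo hi a) fun u =>
  bif Nat.beq a b then u else
  force (blockAt m t d R D i l e ν X lo hi b) fun v => bif Nat.ble u v then v else u

def cKp : ℕ := Nat.add
  (Nat.mul (Nat.mul 2 m) (sumN m fun l => sumN m fun j =>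
    Nat.add (Nat.mul (Nat.sub m 2) (mAl D l j)) (Nat.mul m (mBe D l j))))
  (Nat.mul m (sumN t fun i =>
    Nat.add (Nat.mul (mZe D i) (P i)) (Nat.mul 524288 (Nat.add (N i) 2))))

def cKn : ℕ := Nat.mul m (sumN t fun i =>
  Nat.add (Nat.add (Nat.mul (mZe D i) (N i)) (Nat.mul 524288 (P i)))
    (Nat.add (mRho D i 1) (mRho D i 2)))

def lpOK : Bool := Nat.blt
  (Nat.add (cKp m t P N D) (sumN t fun i => sumN m fun l => cell m t d R P N D i l))
  (Nat.add (cKn m t P N D)
    (Nat.mul (Nat.mul t m) (Nat.mul (Nat.add (Nat.mul 2 m) t) 1099511627776)))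

end lp

def biasTab : ℕ := 0x8000080000800008000080000800008000080000800008000080000800008000080000800008000080000800008000080000800008000080000800008000080000800008000080000800008000080000800008000080000800008000080000800008000080000800008000080000800008000080000800008000080000800008000080000800008000080000800008000080000800008000080000800008000080000800008000080000800008000080000800008000080000800008000080000800008000080000800008000080000800008000080000800008000080000800008000080000800008000080000800008000080000800008000080000800008000080000800008000080000800008000080000800008000080000800008000080000800008000080000800008000080000800008000080000800008000080000800008000080000800008000080000800008000080000800008000080000800008000080000800008000080000800008000080000800008000080000800008000080000800008000080000800008000080000800008000080000800008000080000800008000080000800008000080000800008000080000800008000080000800008000080000800008000080000800008000080000800008000080000800008000080000800008000080000800008000080000800008000080000800008000080000800008000080000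80000800008000080000800008000080000800008000080000800008000080000800008000080000800008000080000800008000080000800008000080000800008000080000800008000080000800008000080000800008000080000800008000080000800008000080000800008000080000800008000080000800008000080000800008000080000800008000080000800008000080000800008000080000800008000080000800008000080000800008000080000800008000080000800008000080000800008000080000800008000080000800008000080000800008000080000800008000080000800008000080000800008000080000800008000080000800008000080000800008000080000800008000080000800008000080000800008000080000800008000080000800008000080000800008000080000800008000080000800008000080000800008000080000800008000080000800008000080000800008000080000800008000080000800008000080000800008000080000800008000080000800008000080000800008000080000800008000080000800008000080000800008000080000800008000080000800008000080000800008000080000800008000080000800008000080000800008000080000800008000080000800008000080000800008000080000800008000080000800008000080000800008000080000800008000080000800008000080000800008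00008000080000800008000080000800008000080000800008000080000800008000080000800008000080000800008000080000800008000080000800008000080000800008000080000800008000080000800008000080000800008000080000800008000080000800008000080000800008000080000800008000080000800008000080000800008000080000800008000080000800008000080000800008000080000800008000080000800008000080000800008000080000800008000080000800008000080000800008000080000800008000080000800008000080000800008000080000800008000080000800008000080000800008000080000800008000080000800008000080000800008000080000800008000080000800008000080000800008000080000800008000080000800008000080000800008000080000800008000080000800008000080000800008000080000800008000080000800008000080000800008000080000800008000080000800008000080000800008000080000800008000080000800008000080000800008000080000800008000080000800008000080000800008000080000800008000080000800000000000000000000000000000000000000000000000000000000000000000000000000000000000000000000000000000000000000000000000000000000000000000000000000000000000000000000000000000000000000000000000000000000000000000000000000000000000000000000000000000000000000000000000000000000000000000000000000000000000000000000000000000000000000000000000000000000000000000000000000000000000000000000000000000000000000000000000000000000000000000000000000000000000000000000000000000000000000000000000000000000000000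

/-- Expand a sparse certificate into a dense table. -/
def dense (x : ℕ) : ℕ :=
  force (Nat.add 11 (Nat.mod x 32)) fun w =>
  force (Nat.shiftRight x 13) fun y =>
  force (sumN (Nat.mod (Nat.shiftRight x 5) 256) fun k =>
    force (Nat.mod (Nat.shiftRight y (Nat.mul w k)) (Nat.shiftLeft 1 w)) fun e =>
      Nat.shiftLeft (Nat.shiftRight e 11) (Nat.mul 20 (Nat.mod e 2048))) fun S =>
  Nat.sub (Nat.add biasTab (Nat.mod S (Nat.shiftLeft 1 14000))) (Nat.shiftRight S 14000)

def lpCheck (m t e x : ℕ) : Bool :=
  force (sumN t fun i => Nat.shiftLeft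
    (Nat.add (Nat.mul 4 (cnt m (dg e i) 1)) (cnt m (dg e i) 2)) (Nat.mul 4 i)) fun I =>
  force (infoTab m) fun T =>
  force (dense x) fun D =>
  (allN t fun i => Nat.beq (Nat.shiftRight (nib I i) 2) (cnt m (dg e i) 1) &&
    Nat.beq (Nat.mod (nib I i) 4) (cnt m (dg e i) 2)) &&
  (Nat.ble t 6 && lpOK m t (dg e) (fun i => tab T (nib I i)) (fun i => Nat.shiftRight (nib I i) 2)
    (fun i => Nat.mod (nib I i) 4) D)

/-- Code of the multiset of columns. -/
def mcode (m : ℕ) (c : ℕ → ℕ) : ℕ := sumN m fun j => Nat.shiftLeft 1 (Nat.mul 3 (c j))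

/-- Select, reorder and negate rows in a column. -/
def phi (t' sel x : ℕ) : ℕ :=
  Nat.rec (motive := fun _ => ℕ → ℕ) (fun _ => 0)
    (fun _ r s => Nat.add
      (bif Nat.beq (Nat.mod s 2) 0 then Nat.mod (Nat.shiftRight x (Nat.mod s 16)) 4
        else flipd (Nat.mod (Nat.shiftRight x (Nat.pred (Nat.mod s 16))) 4))
      (Nat.mul 4 (r (Nat.shiftRight s 4)))) t' sel

def selIdx (sel i : ℕ) : ℕ := Nat.mod (Nat.shiftRight sel (Nat.succ (Nat.mul 4 i))) 8

/-- Number of rows of a table entry. -/
def entT (e : ℕ) : ℕ := Nat.shiftRight e 84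

def isoCheck (m t : ℕ) (c : ℕ → ℕ) (sel e : ℕ) : Bool :=
  force (entT e) fun t' =>
  (allN t' fun i => force (selIdx sel i) fun a =>
    Nat.blt a t && allN i fun k => !Nat.beq (selIdx sel k) a)
    && Nat.beq (mcode m fun j => force (c j) fun x => phi t' sel x) (mcode m (col e))

/-- Search trees of natural numbers. -/
inductive BT where
  | leaf : BT
  | node : BT → ℕ → BT → BT

def BT.mem (x : ℕ) (T : BT) : Bool :=
  BT.rec false (fun _ k _ l r => bif Nat.ble x k then (Nat.beq x k || l) else r) T

def BT.toList (T : BT) : List ℕ := BT.rec [] (fun _ k _ l r => k :: (l ++ r)) T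

/-- Add a new first row. -/
def ext (c : ℕ → ℕ) (r : ℕ) : ℕ → ℕ := fun j => Nat.add (dig r j) (Nat.mul 4 (c j))

/-- Every marked row is incompatible with the row `ρ`. -/
def maskCheck (m : ℕ) (T : BT) (rows : List ℕ) (ρ x : ℕ) : Bool :=
  List.rec (motive := fun _ => ℕ → Bool) (fun _ => true)
    (fun r _ ih x => force (Nat.shiftRight x 1) fun x' =>
      (bif Nat.beq (Nat.mod x 2) 0 then true
        else force (mcode m (ext (dig ρ) r)) fun k => T.mem k) && ih x') rows x

def maskChunk (m : ℕ) (T : BT) (rows : List ℕ) (mt : ℕ → ℕ) (a n : ℕ) : Bool :=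
  allN n fun k => force (mt (Nat.add a k)) fun e =>
    force (Nat.mod e 16384) fun ρ => maskCheck m T rows ρ (Nat.shiftRight e 14)

def scan (m : ℕ) (rows : List ℕ) (tbl : ℕ → ℕ) (bound t : ℕ) (c : ℕ → ℕ) (y x : ℕ) : Bool :=
  List.rec (motive := fun _ => ℕ → ℕ → Bool) (fun _ _ => true)
    (fun r _ ih y x => force (Nat.shiftRight y 1) fun y' =>
      bif Nat.beq (Nat.mod y 2) 1 then ih y' x else
      force (Nat.mod x 4096) fun k => force (Nat.mod (Nat.shiftRight x 12) 1048576) fun sel =>
      force (tbl k) fun e => force (Nat.shiftRight x 32) fun x' =>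
        Nat.blt k bound && (isoCheck m (Nat.succ t) (ext c r) sel e && ih y' x')) rows y x

def maskIdx (x i : ℕ) : ℕ := Nat.mod (Nat.shiftRight x (Nat.mul 9 i)) 512

def orN (n : ℕ) (f : ℕ → ℕ) : ℕ := Nat.rec 0 (fun k acc => Nat.lor (f k) acc) n

def expandCheck (m : ℕ) (rows : List ℕ) (tbl mt : ℕ → ℕ) (nm bound t e x : ℕ) : Bool :=
  (allN t fun i => force (maskIdx x i) fun k => force (Nat.mod (mt k) 16384) fun ρ =>
    Nat.blt k nm && allN m fun j => Nat.beq (dig (col e j) i) (dig ρ j)) &&
  force (orN t fun i => Nat.shiftRight (mt (maskIdx x i)) 14) fun y =>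
  force (Nat.shiftRight x 45) fun x' => scan m rows tbl bound t (col e) y x'

def validRow (m x : ℕ) : Bool :=
  (allN m fun j => Nat.blt (dig x j) 3) &&
  force (cnt m (dig x) 1) fun P => force (cnt m (dig x) 2) fun N =>
    decide (1 ≤ P ∧ 1 ≤ N ∧ (P + N = m → P = N) ∧ (P + N < m → yLo0 m P N ≤ yHi0 m P N))

def negRow (x : ℕ) : ℕ :=
  Nat.lor (Nat.shiftLeft (Nat.land x 5461) 1) (Nat.land (Nat.shiftRight x 1) 5461)

def bit (S x : ℕ) : Bool := Nat.beq (Nat.mod (Nat.shiftRight S x) 2) 1

def setOf' (rows : List ℕ) : ℕ := List.rec 0 (fun r _ acc => Nat.lor (Nat.shiftLeft 1 r) acc) rows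

def rowsCheck (m : ℕ) (rows : List ℕ) : Bool :=
  force (setOf' rows) fun S =>
  allN (4 ^ m) fun x => bit S x || (force (negRow x) fun y =>
    (bit S y && allN m fun j => Nat.beq (dig y j) (flipd (dig x j))) || !validRow m x)

def lpChunk (m : ℕ) (tbl : ℕ → ℕ) (a : ℕ) (L : List ℕ) : Bool :=
  List.rec (motive := fun _ => ℕ → Bool) (fun _ => true)
    (fun x _ ih k => force k fun k => force (tbl k) fun e =>
      lpCheck m (entT e) e x && ih (Nat.succ k)) L a

def expChunk (m : ℕ) (rows : List ℕ) (tbl mt : ℕ → ℕ) (nm bound a : ℕ) (L : List ℕ) : Bool :=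
  List.rec (motive := fun _ => ℕ → Bool) (fun _ => true)
    (fun x _ ih k => force k fun k => force (tbl k) fun e => force (entT e) fun t =>
      (Nat.blt (Nat.succ t) m && expandCheck m rows tbl mt nm bound t e x) &&
        ih (Nat.succ k)) L a

/-- Each key of the tree is the code of a two-row pattern containing a listed pattern. -/
def keyCheck (m : ℕ) (tbl : ℕ → ℕ) (bound : ℕ) (keys L : List ℕ) : Bool :=
  List.rec (motive := fun _ => List ℕ → Bool) (fun _ => true)
    (fun key _ ih L => force (L.headD 0) fun x =>
      force (Nat.mod x 4096) fun k => force (Nat.mod (Nat.shiftRight x 12) 1048576) fun sel =>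
      force (tbl k) fun e => force (Nat.shiftRight x 32) fun p =>
        (Nat.blt k bound && (isoCheck m 2 (col p) sel e && Nat.beq (mcode m (col p)) key)) &&
          ih L.tail) keys L

end

end Pool.Agent.Lib.MP_485030_co
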