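import Mathlib

/-!
Simplices `S ⊆ [0,1]^n ⊆ n S`: the algebraic systems and their construction.
-/

namespace Pool.Agent.Lib.MP_485030_co

open Finset

/-- A weighted system: points `V j` of the cube `[-1,1]^C` with weighted centroid zero, and the
dual vectors `W i`. -/
structure IsSys {P C : Type} [Fintype P] [Fintype C] [DecidableEq C] (p : P → ℝ)
    (V : P → C → ℝ) (W : C → P → ℝ) : Prop where
  sum_p : ∑ j, p j = 1
  abs_V : ∀ j i, |V j i| ≤ 1
  sum_W : ∀ i, ∑ j, W i j = 0
  sum_V : ∀ i, ∑ j, p j * V j i = 0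
  dual : ∀ i k, ∑ j, W i j * V j k = if i = k then 1 else 0
  col : ∀ j, ∑ i, |W i j| ≤ 1 - p j

/-- Existence of a system with the weights `p`. -/
def Sys {P : Type} [Fintype P] (p : P → ℝ) : Prop :=
  ∃ (C : Type) (_ : Fintype C) (_ : DecidableEq C) (V : P → C → ℝ) (W : C → P → ℝ),
    Fintype.card C + 1 = Fintype.card P ∧ IsSys p V W

theorem sum_update_mul {P : Type} [Fintype P] [DecidableEq P] (f h : P → ℝ) (g : P) (a : ℝ) :
    ∑ j, (if j = g then a else f j) * h j = ∑ j, f j * h j + (a - f g) * h g := by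
  have : ∀ j, (if j = g then a else f j) * h j =
      f j * h j + if j = g then (a - f g) * h g else 0 := by
    intro j
    split_ifs with hj
    · subst hj; ring
    · ring
  simp only [this, sum_add_distrib, sum_ite_eq', mem_univ, if_true]

theorem Sys.split {P : Type} [Fintype P] [DecidableEq P] {p : P → ℝ} (h : Sys p) (g : P) (t : ℝ)
    (ht0 : 0 ≤ t) (htg : t ≤ p g) (hg : p g ≤ 1 / 2) :
    Sys (fun j : Option P => j.elim t fun j => if j = g then p g - t else p j) := by
  obtain ⟨C, _, _, V, W, hc, hs⟩ := h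
  have hpos : 0 < 1 - p g := by linarith
  set θ : ℝ := (1 / 2 - t) / (1 - p g) with hθ
  have hθ' : θ * (1 - p g) = 1 / 2 - t := by rw [hθ]; field_simp
  have hθ0 : 0 ≤ θ := div_nonneg (by linarith) hpos.le
  have hθ1 : θ ≤ 1 := by rw [hθ, div_le_one hpos]; linarith
  have hW := fun i => sum_update_mul (W i) (fun _ => 1) g ((1 - θ) * W i g)
  refine ⟨Option C, inferInstance, inferInstance,
    fun j i => i.elim (j.elim 1 fun j => if j = g then -1 else 2 * θ - 1)
      fun i => V (j.getD g) i,
    fun i j => i.elim (j.elim (1 / 2) fun j => if j = g then -1 / 2 else 0)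
      fun i => j.elim (θ * W i g) fun j => if j = g then (1 - θ) * W i g else W i j,
    by simp [hc], ?_, ?_, ?_, ?_, ?_, ?_⟩
  · have := sum_update_mul p (fun _ => 1) g (p g - t)
    simp only [mul_one, hs.sum_p] at this
    simp only [Fintype.sum_option, Option.elim, this]
    ring
  · rintro (_ | j) (_ | i)
    · simp
    · exact hs.abs_V _ _
    · simp only [Option.elim]
      split_ifs
      · simp
      · rw [abs_le]; constructor <;> linarith
    · exact hs.abs_V _ _
  · rintro (_ | i)
    · simp; norm_num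
    · have := hW i
      simp only [mul_one, hs.sum_W] at this
      simp only [Fintype.sum_option, Option.elim, this]
      ring
  · rintro (_ | i)
    · simp only [Fintype.sum_option, Option.elim]
      rw [sum_update_mul]
      have h1 := sum_update_mul (fun _ => 2 * θ - 1) p g (-1)
      simp only [← mul_sum, hs.sum_p] at h1
      simp only [mul_comm (p _), h1, if_true]
      linear_combination 2 * hθ'
    · simp only [Fintype.sum_option, Option.elim, Option.getD]
      rw [sum_update_mul, hs.sum_V]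
      ring
  · rintro (_ | i) (_ | k)
    · simp only [Fintype.sum_option, Option.elim]
      rw [sum_update_mul]
      simp; norm_num
    · simp only [Fintype.sum_option, Option.elim, Option.getD]
      rw [sum_update_mul]
      simp; ring
    · simp only [Fintype.sum_option, Option.elim]
      rw [sum_update_mul]
      have h1 := sum_update_mul (fun _ => 2 * θ - 1) (W i) g (-1)
      simp only [← mul_sum, hs.sum_W] at h1
      simp only [mul_comm (W _ _), h1, if_true]
      simp; ring
    · simp only [Fintype.sum_option, Option.elim, Option.getD]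
      rw [sum_update_mul, hs.dual]
      simp; ring
  · rintro (_ | j)
    · simp only [Fintype.sum_option, Option.elim, abs_mul, abs_of_nonneg hθ0, ← mul_sum]
      have := mul_le_mul_of_nonneg_left (hs.col g) hθ0
      rw [abs_of_pos (by norm_num : (0 : ℝ) < 1 / 2)]
      linarith
    · simp only [Fintype.sum_option, Option.elim]
      by_cases hj : j = g
      · subst hj
        simp only [if_true, abs_mul, abs_of_nonneg (sub_nonneg.2 hθ1), ← mul_sum]
        have := mul_le_mul_of_nonneg_left (hs.col j) (sub_nonneg.2 hθ1)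
        rw [abs_of_neg (by norm_num : (-1 / 2 : ℝ) < 0)]
        nlinarith
      · simpa [hj] using hs.col j

theorem sys_uniform_of_nat (m : ℕ) (d : ℕ) : ∀ (P : Type) [Fintype P] [DecidableEq P]
    (a : P → ℕ), Fintype.card P + d = m → (∀ j, 1 ≤ a j) → (∀ j, 2 * a j ≤ m) → ∑ j, a j = m →
    Sys (fun j => (a j : ℝ) / m) →
    ∃ (Q : Type) (_ : Fintype Q), Fintype.card Q = m ∧ Sys (fun _ : Q => (1 : ℝ) / m) := by
  induction d with
  | zero =>
    intro P _ _ a hc h1 _ hs h
    have ha : ∀ j, a j = 1 := by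
      have h2 : ∑ j : P, 1 = ∑ j, a j := by simp [hs, ← hc]
      have := (Finset.sum_eq_sum_iff_of_le (fun j _ => h1 j)).1 h2
      exact fun j => (this j (mem_univ j)).symm
    refine ⟨P, inferInstance, by simpa using hc, ?_⟩
    simpa [ha] using h
  | succ d ih =>
    intro P _ _ a hc h1 h2 hs h
    obtain ⟨g, hg⟩ : ∃ g, 2 ≤ a g := by
      by_contra hcon
      push Not at hcon
      have : ∑ j, a j ≤ ∑ j : P, 1 := Finset.sum_le_sum fun j _ => by have := hcon j; omega
      simp at this
      omega
    have hm : (0 : ℝ) < m := by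
      have := h2 g
      exact_mod_cast (by omega : 0 < m)
    have hsplit := h.split g (1 / m) (by positivity)
      (by gcongr; exact_mod_cast h1 g)
      (by
        rw [div_le_div_iff₀ hm (by norm_num)]
        have : ((2 * a g : ℕ) : ℝ) ≤ m := by exact_mod_cast h2 g
        push_cast at this
        linarith)
    refine ih (Option P) (fun j => j.elim 1 fun j => if j = g then a g - 1 else a j)
      (by simp; omega) ?_ ?_ ?_ ?_
    · rintro (_ | j)
      · simp
      · simp only [Option.elim]
        split_ifs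
        · omega
        · exact h1 j
    · rintro (_ | j)
      · have := h2 g
        simp only [Option.elim]
        omega
      · simp only [Option.elim]
        split_ifs
        · have := h2 g
          omega
        · exact h2 j
    · simp only [Fintype.sum_option, Option.elim]
      rw [← Finset.add_sum_erase _ _ (mem_univ g)] at hs ⊢
      have h3 : ∑ j ∈ univ.erase g, (if j = g then a g - 1 else a j) = ∑ j ∈ univ.erase g, a j :=
        Finset.sum_congr rfl fun j hj => if_neg (Finset.ne_of_mem_erase hj)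
      rw [if_pos rfl, h3]
      omega
    · convert hsplit using 2 with j
      rcases j with _ | j
      · simp
      · simp only [Option.elim]
        split_ifs
        · rw [Nat.cast_sub (h1 g)]
          push_cast
          ring
        · rfl

theorem sys_two : Sys (fun _ : Fin 2 => (1 : ℝ) / 2) := by
  refine ⟨Fin 1, inferInstance, inferInstance, fun j _ => ![1, -1] j, fun _ => ![1 / 2, -1 / 2],
    by simp, ?_, ?_, ?_, ?_, ?_, ?_⟩
  · simp
  · intro j i; fin_cases j <;> simp
  · intro i; simp; norm_num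
  · intro i; simp
  · intro i k
    rw [Subsingleton.elim i k]
    simp; norm_num
  · intro j; fin_cases j <;> simp [abs_div] <;> norm_num

theorem sys_seven (e l : ℝ) (he0 : 0 < e) (he : e ≤ 1 / 9)
    (hl : (1 / 2 - 5 / 2 * e) * l = 1 / 4 - e) :
    Sys (![e, e, e, e, e, 1 / 2 - 5 / 2 * e, 1 / 2 - 5 / 2 * e] : Fin 7 → ℝ) := by
  have hl0 : 1 / 2 ≤ l := by nlinarith
  have hl1 : l ≤ 5 / 8 := by nlinarith
  have h1 : 0 ≤ 1 / 4 - 5 / 2 * e * l := by nlinarith
  have h2 : 0 ≤ 1 / 4 - 5 / 2 * e * (1 - l) := by nlinarith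
  have h3 : |10 * e - 1| ≤ 1 := by rw [abs_le]; constructor <;> linarith
  have h4 : |1 - 4 * e| ≤ 1 := by rw [abs_le]; constructor <;> linarith
  have h5 : |1 - 2 * l| ≤ 1 := by rw [abs_le]; constructor <;> linarith
  have h6 : |2 * l - 1| ≤ 1 := by rw [abs_le]; constructor <;> linarith
  have h7 : |5 * e - 1| ≤ 1 := by rw [abs_le]; constructor <;> linarith
  have h8 : |-2 * e - (1 - 2 * e) * (1 - 2 * l)| ≤ 1 := by
    rw [abs_le]; constructor <;> nlinarith
  refine ⟨Fin 6, inferInstance, inferInstance,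
    ![![1, -1, 1, -1, 10 * e - 1, 1 - 4 * e],
      ![1, 1, -1, -1, 10 * e - 1, -1],
      ![-1, 1, 1, 10 * e - 1, -1, -1],
      ![-1, -1, -1, 10 * e - 1, -1, 1 - 4 * e],
      ![0, 1, 0, 5 * e - 1, 5 * e - 1, 1],
      ![1, 1 - 2 * l, 2 * l - 1, 1, 10 * e - 1, -2 * e - (1 - 2 * e) * (1 - 2 * l)],
      ![-1, 1 - 2 * l, 1 - 2 * l, 10 * e - 1, 1, -2 * e - (1 - 2 * e) * (1 - 2 * l)]],
    ![![1 / 4 - 5 / 2 * e * l, 1 / 4 - 5 / 2 * e * (1 - l), -(1 / 4 - 5 / 2 * e * (1 - l)),
        -(1 / 4 - 5 / 2 * e * l), 0, 5 / 2 * e, -(5 / 2 * e)],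
      ![-(1 / 4), e / 2, e / 2, -(1 / 4), 1 / 2 - e, 0, 0],
      ![1 / 4, -(1 / 4), 1 / 4, -(1 / 4), 0, 0, 0],
      ![-(l / 2), -((1 - l) / 2), 0, 0, 0, 1 / 2, 0],
      ![0, 0, -((1 - l) / 2), -(l / 2), 0, 0, 1 / 2],
      ![0, -(1 / 4), -(1 / 4), 0, 1 / 2, 0, 0]],
    by simp, ?_, ?_, ?_, ?_, ?_, ?_⟩
  · simp [Fin.sum_univ_succ]; ring
  · intro j i
    fin_cases j <;> fin_cases i <;> simp only [Fin.reduceFinMk, Matrix.cons_val] <;>
      first | assumption | simp
  · intro i
    fin_cases i <;> simp [Fin.sum_univ_succ] <;> ring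
  · intro i
    fin_cases i <;> simp [Fin.sum_univ_succ] <;>
      first | ring1 | linarith | linear_combination (4 - 8 * e) * hl
  · intro i k
    fin_cases i <;> fin_cases k <;> simp [Fin.sum_univ_succ] <;> ring1
  · have a1 := abs_of_nonneg h1
    have a2 := abs_of_nonneg h2
    have a3 : |e / 2| = e / 2 := abs_of_nonneg (by linarith)
    have a4 : |l / 2| = l / 2 := abs_of_nonneg (by linarith)
    have a5 : |(1 - l) / 2| = (1 - l) / 2 := abs_of_nonneg (by linarith)
    have a6 : |1 / 2 - e| = 1 / 2 - e := abs_of_nonneg (by linarith)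
    have a7 : |5 / 2 * e| = 5 / 2 * e := abs_of_nonneg (by linarith)
    have a8 : |(1 / 4 : ℝ)| = 1 / 4 := abs_of_nonneg (by linarith)
    have a9 : |(1 / 2 : ℝ)| = 1 / 2 := abs_of_nonneg (by linarith)
    intro j
    fin_cases j <;>
      simp only [Fin.sum_univ_succ, Fin.reduceFinMk, Matrix.cons_val, Matrix.cons_val_zero,
        Matrix.cons_val_succ, Fin.sum_univ_zero, abs_neg, abs_zero, a1, a2, a3, a4, a5, a6, a7,
        a8, a9] <;> linarith

theorem exists_sys_uniform (m : ℕ) (hm : 2 ≤ m) (h3 : m ≠ 3) (h5 : m ≠ 5) (h7 : m ≠ 7) :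
    ∃ (Q : Type) (_ : Fintype Q), Fintype.card Q = m ∧ Sys (fun _ : Q => (1 : ℝ) / m) := by
  rcases Nat.even_or_odd' m with ⟨a, rfl | rfl⟩
  · refine sys_uniform_of_nat (2 * a) (2 * a - 2) (Fin 2) (fun _ => a) (by simp; omega)
      (fun _ => by omega) (fun _ => le_rfl) (by simp [two_mul]) ?_
    have ha : (a : ℝ) ≠ 0 := by exact_mod_cast (by omega : a ≠ 0)
    convert sys_two using 2
    push_cast
    field_simp
  · obtain ⟨b, rfl⟩ : ∃ b, a = b + 4 := ⟨a - 4, by omega⟩
    refine sys_uniform_of_nat _ (2 * b + 2) (Fin 7) ![1, 1, 1, 1, 1, b + 2, b + 2]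
      (by simp; omega) (fun j => by fin_cases j <;> simp)
      (fun j => by fin_cases j <;> simp <;> omega) (by simp [Fin.sum_univ_succ]; omega) ?_
    have hb : (0 : ℝ) ≤ b := Nat.cast_nonneg b
    convert sys_seven (1 / (2 * b + 9)) ((2 * b + 5) / (4 * b + 8)) (by positivity)
      (by rw [div_le_div_iff₀ (by positivity) (by norm_num)]; linarith)
      (by field_simp; ring) using 2 with j
    fin_cases j <;> simp <;> field_simp <;> ring

end Pool.Agent.Lib.MP_485030_co
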