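import Pool.Agent.Lib.MP_485030_co.Exist

/-!
The inclusions `S ⊆ [0,1]^n ⊆ n S` are equivalent to the existence of a uniform system.
-/

namespace Pool.Agent.Lib.MP_485030_co

open Finset Matrix

theorem IsSys.reindex {P C P' C' : Type} [Fintype P] [Fintype C] [DecidableEq C] [Fintype P']
    [Fintype C'] [DecidableEq C'] {p : P → ℝ} {V : P → C → ℝ} {W : C → P → ℝ} (h : IsSys p V W)
    (e : P' ≃ P) (f : C' ≃ C) :
    IsSys (fun j => p (e j)) (fun j i => V (e j) (f i)) (fun i j => W (f i) (e j)) where
  sum_p := (e.sum_comp p).trans h.sum_p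
  abs_V j i := h.abs_V _ _
  sum_W i := (e.sum_comp (W (f i))).trans (h.sum_W _)
  sum_V i := (e.sum_comp fun j => p j * V j (f i)).trans (h.sum_V _)
  dual i k := by
    rw [e.sum_comp fun j => W (f i) j * V j (f k), h.dual]
    simp
  col j := (f.sum_comp fun i => |W i (e j)|).trans_le (h.col _)

theorem centroid_apply {n : ℕ} (x : Fin (n + 1) → Fin n → ℝ) (i : Fin n) :
    Finset.univ.centroid ℝ x i = (∑ j, x j i) / (n + 1) := by
  rw [Finset.centroid_def, Finset.affineCombination_eq_linear_combination _ _ _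
    (Finset.sum_centroidWeights_eq_one_of_card_eq_add_one ℝ _ (n := n) (by simp))]
  simp only [Finset.sum_apply, Pi.smul_apply, Finset.centroidWeights_apply, card_univ,
    Fintype.card_fin, smul_eq_mul, ← mul_sum]
  push_cast
  ring

theorem good_of_isSys {n : ℕ} (hn : 1 ≤ n) {V : Fin (n + 1) → Fin n → ℝ}
    {W : Fin n → Fin (n + 1) → ℝ} (h : IsSys (fun _ => (1 : ℝ) / (n + 1)) V W) :
    ∃ S : Affine.Simplex ℝ (Fin n → ℝ) n,
      convexHull ℝ (Set.range S.points) ⊆ Set.Icc 0 1 ∧
      Set.Icc 0 1 ⊆ AffineMap.homothety (Finset.univ.centroid ℝ S.points) (n : ℝ) ''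
        convexHull ℝ (Set.range S.points) := by
  have hn' : (0 : ℝ) < n := by exact_mod_cast hn
  have hV : ∀ i, ∑ j, V j i = 0 := by
    intro i
    have := h.sum_V i
    rw [← mul_sum] at this
    exact (mul_eq_zero.1 this).resolve_left (by positivity)
  let M : Matrix (Fin (n + 1)) (Fin (n + 1)) ℝ := fun j => Fin.cons 1 (V j)
  let N : Matrix (Fin (n + 1)) (Fin (n + 1)) ℝ := Fin.cons (fun _ => 1 / (n + 1)) W
  have hNM : N * M = 1 := by
    ext a b
    refine Fin.cases ?_ (fun a => ?_) a <;> refine Fin.cases ?_ (fun b => ?_) b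
    · simp [M, N, Matrix.mul_apply]; field_simp
    · simp [M, N, Matrix.mul_apply, ← mul_sum, hV, Matrix.one_apply, (Fin.succ_ne_zero b).symm]
    · simp [M, N, Matrix.mul_apply, h.sum_W, Matrix.one_apply]
    · simp [M, N, Matrix.mul_apply, h.dual, Matrix.one_apply]
  have hMN : M * N = 1 := mul_eq_one_comm.1 hNM
  let x : Fin (n + 1) → Fin n → ℝ := fun j i => (V j i + 1) / 2
  have hx : AffineIndependent ℝ x := by
    rw [affineIndependent_iff_of_fintype]
    intro w hw hw' j
    rw [Finset.weightedVSub_eq_linear_combination _ hw] at hw'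
    have h1 : w ᵥ* M = 0 := by
      funext b
      refine Fin.cases ?_ (fun b => ?_) b
      · simp [M, vecMul, dotProduct, hw]
      · have := congrFun hw' b
        simp only [x, Finset.sum_apply, Pi.smul_apply, smul_eq_mul, Pi.zero_apply] at this
        simp only [M, vecMul, dotProduct, Fin.cons_succ, Pi.zero_apply]
        have h2 : ∑ j, w j * ((V j b + 1) / 2) = (∑ j, w j * V j b) / 2 + (∑ j, w j) / 2 := by
          rw [sum_div, sum_div, ← sum_add_distrib]
          exact sum_congr rfl fun j _ => by ring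
        linarith
    have h2 : w = w ᵥ* (M * N) := by rw [hMN, vecMul_one]
    rw [← vecMul_vecMul, h1, zero_vecMul] at h2
    exact congrFun h2 j
  have hc : Finset.univ.centroid ℝ x = fun _ => 1 / 2 := by
    funext i
    rw [centroid_apply]
    simp only [x, ← sum_div, sum_add_distrib, hV]
    simp
    field_simp
  refine ⟨⟨x, hx⟩, ?_, ?_⟩
  · apply convexHull_min _ (convex_Icc 0 1)
    rintro _ ⟨j, rfl⟩
    constructor <;> intro i <;> have := abs_le.1 (h.abs_V j i) <;>
      simp only [x, Pi.zero_apply, Pi.one_apply] <;> linarith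
  · intro y hy
    simp only [hc]
    let l : Fin (n + 1) → ℝ := fun j => 1 / (n + 1) + (∑ i, W i j * (2 * y i - 1)) / n
    refine ⟨∑ j, l j • x j, ?_, ?_⟩
    · apply (convex_convexHull ℝ _).sum_mem
      · intro j _
        have h1 : |∑ i, W i j * (2 * y i - 1)| ≤ ∑ i, |W i j| := by
          refine (abs_sum_le_sum_abs _ _).trans (sum_le_sum fun i _ => ?_)
          rw [abs_mul]
          refine mul_le_of_le_one_right (abs_nonneg _) ?_
          have h0 : 0 ≤ y i := hy.1 i
          have h1 : y i ≤ 1 := hy.2 i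
          rw [abs_le]; constructor <;> linarith
        have h2 := (abs_le.1 (h1.trans (h.col j))).1
        have h3 : -(1 - 1 / ((n : ℝ) + 1)) / n ≤ (∑ i, W i j * (2 * y i - 1)) / n := by gcongr
        have h4 : -(1 - 1 / ((n : ℝ) + 1)) / n = -(1 / (n + 1)) := by field_simp; ring
        simp only [l]
        linarith
      · simp only [l, sum_add_distrib, ← sum_div]
        rw [sum_comm]
        simp only [← sum_mul, h.sum_W]
        simp
        positivity
      · exact fun j _ => subset_convexHull ℝ _ ⟨j, rfl⟩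
    · funext k
      have h1 : ∑ j, l j * V j k = (2 * y k - 1) / n := by
        simp only [l, add_mul, sum_add_distrib, ← mul_sum, hV, mul_zero, zero_add, div_mul_eq_mul_div,
          ← sum_div, sum_mul]
        rw [sum_comm]
        have : ∀ i, ∑ j, W i j * (2 * y i - 1) * V j k =
            (if i = k then 1 else 0) * (2 * y i - 1) := by
          intro i
          rw [← h.dual, sum_mul]
          exact sum_congr rfl fun j _ => by ring
        simp [this]
      have h2 : ∑ j, l j = 1 := by
        simp only [l, sum_add_distrib, ← sum_div]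
        rw [sum_comm]
        simp only [← sum_mul, h.sum_W]
        simp
        positivity
      have h3 : ∑ j, l j * x j k = (∑ j, l j * V j k) / 2 + (∑ j, l j) / 2 := by
        rw [sum_div, sum_div, ← sum_add_distrib]
        exact sum_congr rfl fun j _ => by simp only [x]; ring
      simp only [AffineMap.homothety_apply, vsub_eq_sub, vadd_eq_add, Pi.add_apply, Pi.smul_apply,
        Pi.sub_apply, Finset.sum_apply, smul_eq_mul, h3, h1, h2]
      field_simp
      ring

theorem good_of_ne {n : ℕ} (hn : 1 ≤ n) (h2 : n ≠ 2) (h4 : n ≠ 4) (h6 : n ≠ 6) :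
    ∃ S : Affine.Simplex ℝ (Fin n → ℝ) n,
      convexHull ℝ (Set.range S.points) ⊆ Set.Icc 0 1 ∧
      Set.Icc 0 1 ⊆ AffineMap.homothety (Finset.univ.centroid ℝ S.points) (n : ℝ) ''
        convexHull ℝ (Set.range S.points) := by
  obtain ⟨Q, _, hQ, C, _, _, V, W, hC, h⟩ :=
    exists_sys_uniform (n + 1) (by omega) (by omega) (by omega) (by omega)
  have := h.reindex (Fintype.equivFinOfCardEq hQ).symm
    (Fintype.equivFinOfCardEq (by omega : Fintype.card C = n)).symm
  push_cast at this
  exact good_of_isSys hn this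

theorem isSys_of_good {n : ℕ} (S : Affine.Simplex ℝ (Fin n → ℝ) n)
    (h1 : convexHull ℝ (Set.range S.points) ⊆ Set.Icc 0 1)
    (h2 : Set.Icc 0 1 ⊆ AffineMap.homothety (Finset.univ.centroid ℝ S.points) (n : ℝ) ''
        convexHull ℝ (Set.range S.points)) :
    ∃ (V : Fin (n + 1) → Fin n → ℝ) (W : Fin n → Fin (n + 1) → ℝ),
      IsSys (fun _ => (1 : ℝ) / (n + 1)) V W := by
  set x := S.points with hx
  let V : Fin (n + 1) → Fin n → ℝ := fun j i => 2 * x j i - 1
  have hV : ∀ j i, |V j i| ≤ 1 := by
    intro j i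
    have h := h1 (subset_convexHull ℝ _ ⟨j, rfl⟩)
    have h0 : 0 ≤ x j i := h.1 i
    have h1 : x j i ≤ 1 := h.2 i
    simp only [V]
    rw [abs_le]; constructor <;> linarith
  let M : Matrix (Fin (n + 1)) (Fin (n + 1)) ℝ := fun j => Fin.cons 1 (V j)
  have hM : IsUnit M := by
    rw [← Matrix.vecMul_injective_iff_isUnit]
    intro w₁ w₂ hw
    have hind := S.independent
    rw [affineIndependent_iff_of_fintype] at hind
    have h0 : (w₁ - w₂) ᵥ* M = 0 := by
      rw [sub_vecMul]; exact sub_eq_zero.2 hw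
    have h3 : ∑ j, (w₁ - w₂) j = 0 := by simpa [M, vecMul, dotProduct] using congrFun h0 0
    have h4 := hind (w₁ - w₂) h3 (by
      rw [Finset.weightedVSub_eq_linear_combination _ h3]
      funext b
      have := congrFun h0 b.succ
      simp only [M, V, vecMul, dotProduct, Fin.cons_succ, Pi.zero_apply] at this
      have h5 : ∑ j, (w₁ - w₂) j * (2 * x j b - 1) =
          2 * ∑ j, (w₁ - w₂) j * x j b - ∑ j, (w₁ - w₂) j := by
        rw [mul_sum, ← sum_sub_distrib]
        exact sum_congr rfl fun j _ => by ring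
      simp only [Finset.sum_apply, Pi.smul_apply, smul_eq_mul, Pi.zero_apply]
      linarith)
    exact sub_eq_zero.1 (funext h4)
  obtain ⟨U, hU⟩ := hM
  let N : Matrix (Fin (n + 1)) (Fin (n + 1)) ℝ := (U⁻¹ : (Matrix _ _ ℝ)ˣ)
  have hMN : M * N = 1 := by rw [← hU]; exact U.mul_inv
  have hNM : N * M = 1 := by rw [← hU]; exact U.inv_mul
  let W : Fin n → Fin (n + 1) → ℝ := fun i j => N i.succ j
  have hn1 : (0 : ℝ) < n + 1 := by positivity
  have hcol : ∀ j, ∑ i, |W i j| ≤ N 0 j + (n - 1) / (n + 1) := by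
    intro j
    let y : Fin n → ℝ := fun i => if 0 ≤ W i j then 0 else 1
    have hy : y ∈ Set.Icc (0 : Fin n → ℝ) 1 := by
      constructor <;> intro i <;> simp only [y] <;> split_ifs <;> simp
    obtain ⟨z, hz, hzy⟩ := h2 hy
    rw [convexHull_range_eq_exists_affineCombination] at hz
    obtain ⟨s, l, hl0, hl1, rfl⟩ := hz
    rw [Finset.affineCombination_eq_linear_combination _ _ _ hl1] at hzy
    let l' : Fin (n + 1) → ℝ := fun j => if j ∈ s then l j else 0
    have hl' : ∀ j, 0 ≤ l' j := fun j => by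
      simp only [l']; split_ifs with h
      · exact hl0 j h
      · exact le_rfl
    have hs : ∑ j, l' j = 1 := by simp [l', hl1]
    have hs' : ∀ k, ∑ j, l' j * x j k = ∑ j ∈ s, l j * x j k := by
      intro k; simp [l']
    let μ : Fin (n + 1) → ℝ := fun j => n * l' j - (n - 1) / (n + 1)
    have hμ : μ ᵥ* M = Fin.cons 1 fun i => 2 * y i - 1 := by
      funext b
      refine Fin.cases ?_ (fun b => ?_) b
      · simp only [M, μ, vecMul, dotProduct, Fin.cons_zero, mul_one, sum_sub_distrib, ← mul_sum, hs]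
        simp
        field_simp
        ring
      · have h3 := congrFun hzy b
        simp only [AffineMap.homothety_apply, vsub_eq_sub, vadd_eq_add, Pi.add_apply,
          Pi.smul_apply, Pi.sub_apply, Finset.sum_apply, smul_eq_mul, centroid_apply, ← hs'] at h3
        simp only [M, μ, V, vecMul, dotProduct, Fin.cons_succ]
        have h4 : ∑ j, ((n : ℝ) * l' j - (n - 1) / (n + 1)) * (2 * x j b - 1) =
            2 * n * ∑ j, l' j * x j b - n * ∑ j, l' j - 2 * ((n - 1) / (n + 1)) * ∑ j, x j b
              + ∑ _j : Fin (n + 1), ((n : ℝ) - 1) / (n + 1) := by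
          rw [mul_sum, mul_sum, mul_sum, ← sum_sub_distrib, ← sum_sub_distrib, ← sum_add_distrib]
          exact sum_congr rfl fun j _ => by ring
        rw [h4, hs, ← h3]
        simp
        field_simp
        ring
    have h5 : μ = (Fin.cons 1 fun i => 2 * y i - 1 : Fin (n + 1) → ℝ) ᵥ* N := by
      rw [← hμ, vecMul_vecMul, hMN, vecMul_one]
    have h6 := congrFun h5 j
    simp only [μ, vecMul, dotProduct, Fin.sum_univ_succ, Fin.cons_zero, Fin.cons_succ] at h6
    have h7 : ∑ i, (2 * y i - 1) * N i.succ j = -∑ i, |W i j| := by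
      rw [← sum_neg_distrib]
      refine sum_congr rfl fun i _ => ?_
      simp only [y]
      split_ifs with h
      · rw [abs_of_nonneg h]; simp only [W]; ring
      · rw [abs_of_neg (not_le.1 h)]; simp only [W]; ring
    have h8 := mul_nonneg (Nat.cast_nonneg n : (0 : ℝ) ≤ n) (hl' j)
    linarith
  have hp : ∑ j, N 0 j = 1 := by
    simpa [M, Matrix.mul_apply] using congrFun (congrFun hNM 0) 0
  have hdiag : ∀ j, N 0 j + ∑ i, V j i * W i j = 1 := by
    intro j
    simpa [M, Matrix.mul_apply, Fin.sum_univ_succ] using congrFun (congrFun hMN j) j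
  have hlow : ∀ j, 1 / ((n : ℝ) + 1) ≤ N 0 j := by
    intro j
    have h3 : ∑ i, V j i * W i j ≤ ∑ i, |W i j| := sum_le_sum fun i _ => by
      refine (le_abs_self _).trans ?_
      rw [abs_mul]
      exact mul_le_of_le_one_left (abs_nonneg _) (hV j i)
    have h4 : ((n : ℝ) - 1) / (n + 1) = 1 - 2 * (1 / (n + 1)) := by field_simp; ring
    have := hcol j
    have := hdiag j
    linarith
  have hpj : ∀ j, N 0 j = 1 / ((n : ℝ) + 1) := by
    have h3 : ∑ _j : Fin (n + 1), 1 / ((n : ℝ) + 1) = ∑ j, N 0 j := by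
      rw [hp]; simp; field_simp
    have := (Finset.sum_eq_sum_iff_of_le (fun j _ => hlow j)).1 h3
    exact fun j => (this j (mem_univ j)).symm
  refine ⟨V, W, ?_, hV, fun i => ?_, fun i => ?_, fun i k => ?_, fun j => ?_⟩
  · simp; field_simp
  · simpa [M, Matrix.mul_apply] using congrFun (congrFun hNM i.succ) 0
  · have := congrFun (congrFun hNM 0) i.succ
    simpa [M, Matrix.mul_apply, hpj, Matrix.one_apply, (Fin.succ_ne_zero i).symm] using this
  · simpa [M, Matrix.mul_apply, Matrix.one_apply] using congrFun (congrFun hNM i.succ) k.succ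
  · have h4 : ((n : ℝ) - 1) / (n + 1) = 1 - 2 * (1 / (n + 1)) := by field_simp; ring
    have := hcol j
    rw [hpj] at this
    linarith

end Pool.Agent.Lib.MP_485030_co
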