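import Pool.Agent.Lib.MP_485030_co.Small

set_option maxRecDepth 100000

namespace Pool.Agent.Lib.MP_485030_co

theorem mk7_0 : maskChunk 7 tree7 rows7 mt7 0 40 = true := by decide +kernel

theorem mk7_40 : maskChunk 7 tree7 rows7 mt7 40 40 = true := by decide +kernel

theorem mk7_80 : maskChunk 7 tree7 rows7 mt7 80 40 = true := by decide +kernel

theorem mk7_120 : maskChunk 7 tree7 rows7 mt7 120 40 = true := by decide +kernel

theorem mk7_160 : maskChunk 7 tree7 rows7 mt7 160 40 = true := by decide +kernel

theorem mk7_200 : maskChunk 7 tree7 rows7 mt7 200 40 = true := by decide +kernel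

theorem mk7_240 : maskChunk 7 tree7 rows7 mt7 240 22 = true := by decide +kernel

theorem maskMod (hA : All 7 tbl7 2240) : MaskOK 7 rows7 mt7 262 :=
  have hT := keyCheck_sound (by norm_num) hA _ _ keysOK7
  maskChunk_sound hT mk7_240 (maskChunk_sound hT mk7_200 (maskChunk_sound hT mk7_160 (maskChunk_sound hT mk7_120 (maskChunk_sound hT mk7_80 (maskChunk_sound hT mk7_40 (maskChunk_sound hT mk7_0 (MaskOK.zero _ _ _)))))))

end Pool.Agent.Lib.MP_485030_co
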