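import Mathlib

/-!
Sign patterns that cover the vertices of the cube: a set of columns whose sum has one nonzero entry.
-/

namespace Pool.Agent.Lib.MP_485030_co

open Finset

variable {I J : Type} [Fintype I] [Fintype J] [DecidableEq I] [DecidableEq J]

open Classical in
/-- the rows that meet a set of columns -/
noncomputable def nb (A : I → J → ℝ) (K : Finset J) : Finset I :=
  univ.filter fun i => ∃ j ∈ K, A i j ≠ 0

omit [Fintype J] [DecidableEq I] [DecidableEq J] in
theorem mem_nb {A : I → J → ℝ} {K : Finset J} {i : I} : i ∈ nb A K ↔ ∃ j ∈ K, A i j ≠ 0 := by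
  simp [nb]

omit [Fintype J] [DecidableEq J] in
theorem kill (A : I → J → ℝ) (S : Finset J) (R : Finset I) (y0 : I → ℝ)
    (h0 : ∀ i, y0 i = 1 ∨ y0 i = -1) (h : ∀ K ⊆ S, K.card ≤ (nb A K ∩ R).card) :
    ∃ y : I → ℝ, (∀ i, y i = 1 ∨ y i = -1) ∧ (∀ i ∉ R, y i = y0 i) ∧
      ∀ j ∈ S, ∃ i, y i * A i j < 0 := by
  classical
  obtain ⟨f, f1, f2⟩ := (Finset.all_card_le_biUnion_card_iff_exists_injective
    (fun j : S => R.filter fun i => A i j ≠ 0)).1 fun s => by
      have := h (s.map (Function.Embedding.subtype _)) fun j hj => by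
        obtain ⟨k, -, rfl⟩ := mem_map.1 hj
        exact k.2
      rw [card_map] at this
      refine this.trans (card_le_card fun i hi => ?_)
      obtain ⟨h1, h2⟩ := mem_inter.1 hi
      obtain ⟨j, hj, h3⟩ := mem_nb.1 h1
      obtain ⟨k, hk, rfl⟩ := mem_map.1 hj
      exact mem_biUnion.2 ⟨k, hk, mem_filter.2 ⟨h2, h3⟩⟩
  refine ⟨fun i => if h : ∃ j, f j = i then (if 0 < A i h.choose then -1 else 1) else y0 i,
    fun i => ?_, fun i hi => ?_, fun j hj => ⟨f ⟨j, hj⟩, ?_⟩⟩
  · beta_reduce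
    split_ifs
    · exact Or.inr rfl
    · exact Or.inl rfl
    · exact h0 i
  · exact dif_neg fun ⟨j, hj⟩ => hi (hj ▸ (mem_filter.1 (f2 j)).1)
  · have e : ∃ k, f k = f ⟨j, hj⟩ := ⟨_, rfl⟩
    have e2 : e.choose = ⟨j, hj⟩ := f1 e.choose_spec
    have e3 := (mem_filter.1 (f2 ⟨j, hj⟩)).2
    simp only [dif_pos e, e2]
    split_ifs with h1
    · linarith
    · rw [one_mul]
      exact lt_of_le_of_ne (not_lt.1 h1) e3

theorem root (A : I → J → ℝ) (hc : Fintype.card J = Fintype.card I + 1) (hI : 0 < Fintype.card I)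
    (hs : ∀ i, ∑ j, A i j = 0) (hk : ∀ K : Finset J, K ≠ univ → K.card ≤ (nb A K).card)
    (sc : ∀ y : I → ℝ, (∀ i, y i = 1 ∨ y i = -1) → ∃ j, ∀ i, 0 ≤ y i * A i j) :
    ∃ (M : Finset J) (x : I), M.Nonempty ∧ M ≠ univ ∧ ∀ i, i ≠ x → ∑ j ∈ M, A i j = 0 := by
  classical
  obtain ⟨j0⟩ : Nonempty J := Fintype.card_pos_iff.1 (by omega)
  obtain ⟨M, hM, hmin⟩ := (univ.filter fun K : Finset J =>
      K.Nonempty ∧ K ≠ univ ∧ (nb A K).card ≤ K.card).exists_min_image card
    ⟨univ.erase j0, mem_filter.2 ⟨mem_univ _, card_pos.1 (by simp [hc, hI]),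
      fun e => notMem_erase j0 univ (by rw [e]; exact mem_univ _),
      (card_le_univ _).trans (by simp [hc])⟩⟩
  obtain ⟨-, m1, m2, m3⟩ := mem_filter.1 hM
  have big : ∀ K ⊆ M, K ≠ M → K.Nonempty → K.card + 1 ≤ (nb A K).card := fun K h1 h2 h3 => by
    by_contra h4
    have := hmin K (mem_filter.2 ⟨mem_univ _, h3, fun e => m2 (univ_subset_iff.1 (e ▸ h1)),
      by omega⟩)
    exact h2 (eq_of_subset_of_card_le h1 this)
  -- a signing that kills `M` has the sign opposite to the sum over `M`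
  have key : ∀ y : I → ℝ, (∀ i, y i = 1 ∨ y i = -1) → (∀ j ∈ M, ∃ i, y i * A i j < 0) →
      ∀ i, y i * ∑ j ∈ M, A i j ≤ 0 := by
    intro y hy hM' i
    by_cases hi : i ∈ nb A M
    swap
    · rw [sum_eq_zero fun j hj => by_contra fun h => hi (mem_nb.2 ⟨j, hj, h⟩), mul_zero]
    have h1 : ∀ j ∈ Mᶜ, 0 ≤ y i * A i j := by
      intro j1 hj1
      by_contra h2
      obtain ⟨y', a1, a2, a3⟩ := kill A (Mᶜ.erase j1) (nb A M)ᶜ y hy fun K hK => by
        have d : Disjoint M K := disjoint_left.2 fun j hj hj' =>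
          mem_compl.1 (mem_of_mem_erase (hK hj')) hj
        have b1 := hk (M ∪ K) fun e => by
          rcases mem_union.1 (e ▸ (mem_univ j1 : j1 ∈ (univ : Finset J))) with h | h
          · exact mem_compl.1 hj1 h
          · exact notMem_erase _ _ (hK h)
        have b2 : nb A (M ∪ K) ⊆ nb A M ∪ nb A K ∩ (nb A M)ᶜ := fun i hi => by
          obtain ⟨j, hj, h⟩ := mem_nb.1 hi
          by_cases h3 : i ∈ nb A M
          · exact mem_union_left _ h3
          · refine mem_union_right _ (mem_inter.2 ⟨mem_nb.2 ⟨j, ?_, h⟩, mem_compl.2 h3⟩)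
            exact (mem_union.1 hj).resolve_left fun h4 => h3 (mem_nb.2 ⟨j, h4, h⟩)
        have b3 := (card_le_card b2).trans (card_union_le _ _)
        rw [card_union_of_disjoint d] at b1
        omega
      obtain ⟨j, hj⟩ := sc y' a1
      by_cases c1 : j ∈ M
      · obtain ⟨i', hi'⟩ := hM' j c1
        have : i' ∈ nb A M := mem_nb.2 ⟨j, c1, fun e => by simp [e] at hi'⟩
        rw [← a2 i' (by simpa using this)] at hi'
        exact hi'.not_ge (hj i')
      · by_cases c2 : j = j1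
        · subst c2
          exact h2 (a2 i (by simpa using hi) ▸ hj i)
        · obtain ⟨i', hi'⟩ := a3 j (mem_erase.2 ⟨c2, mem_compl.2 c1⟩)
          exact hi'.not_ge (hj i')
    have h2 := sum_nonneg h1
    have h3 := sum_add_sum_compl M (A i)
    rw [← mul_sum] at h2
    rw [hs] at h3
    rw [eq_neg_of_add_eq_zero_left h3]
    linarith
  have sg : ∀ w : ℝ, w ≠ 0 → ∃ s : ℝ, (s = 1 ∨ s = -1) ∧ 0 < s * w := fun w hw => by
    rcases lt_or_gt_of_ne hw with h | h
    · exact ⟨-1, Or.inr rfl, by linarith⟩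
    · exact ⟨1, Or.inl rfl, by linarith⟩
  -- rows with a nonzero sum over `M` have one sign on `M`
  have uni : ∀ (x : I) (s : ℝ), (s = 1 ∨ s = -1) → 0 < s * ∑ j ∈ M, A x j →
      ∀ j ∈ M, 0 ≤ s * A x j := by
    intro x s h1 h2 j1 hj1
    by_contra h3
    obtain ⟨y, a1, a2, a3⟩ := kill A (M.erase j1) (univ.erase x) (fun _ => s) (fun _ => h1)
      fun K hK => by
        rcases K.eq_empty_or_nonempty with rfl | h
        · simp
        have b1 := big K (hK.trans (erase_subset _ _))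
          (fun e => notMem_erase j1 M (hK (e ▸ hj1))) h
        rw [← erase_inter_comm, erase_inter, inter_univ]
        have := pred_card_le_card_erase (s := nb A K) (a := x)
        omega
    have e : y x = s := a2 x (notMem_erase _ _)
    have := key y a1 (fun j hj => by
      by_cases c : j = j1
      · exact ⟨x, by rw [c, e]; exact not_le.1 h3⟩
      · exact a3 j (mem_erase.2 ⟨c, hj⟩)) x
    rw [e] at this
    linarith
  by_cases h0 : ∀ i, ∑ j ∈ M, A i j = 0
  · obtain ⟨x⟩ : Nonempty I := Fintype.card_pos_iff.1 hI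
    exact ⟨M, x, m1, m2, fun i _ => h0 i⟩
  obtain ⟨x, hx⟩ := not_forall.1 h0
  refine ⟨M, x, m1, m2, fun z hz => by_contra fun h1 => ?_⟩
  obtain ⟨s, s1, s2⟩ := sg _ hx
  obtain ⟨t, t1, t2⟩ := sg _ h1
  obtain ⟨y, a1, a2, a3⟩ := kill A (M.filter fun j => A z j = 0) ((univ.erase x).erase z)
    (fun i => if i = x then s else -t)
    (fun i => by
      split_ifs
      · exact s1
      · rcases t1 with e | e <;> simp [e])
    fun K hK => by
      rcases K.eq_empty_or_nonempty with rfl | h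
      · simp
      have b1 := big K (hK.trans (filter_subset _ _))
        (fun e => h1 (sum_eq_zero fun j hj => (mem_filter.1 (hK (e ▸ hj))).2)) h
      have b2 : (nb A K).erase x ⊆ nb A K ∩ (univ.erase x).erase z := fun i hi => by
        obtain ⟨c1, c2⟩ := mem_erase.1 hi
        refine mem_inter.2 ⟨c2, mem_erase.2 ⟨fun e => ?_, mem_erase.2 ⟨c1, mem_univ _⟩⟩⟩
        obtain ⟨j, hj, c3⟩ := mem_nb.1 c2
        exact c3 (e ▸ (mem_filter.1 (hK hj)).2)
      have b3 := card_le_card b2
      have := pred_card_le_card_erase (s := nb A K) (a := x)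
      omega
  have e1 : y x = s := (a2 x (by simp)).trans (if_pos rfl)
  have e2 : y z = -t := (a2 z (by simp)).trans (if_neg hz)
  have := key y a1 (fun j hj => by
    by_cases c : A z j = 0
    · exact a3 j (mem_filter.2 ⟨hj, c⟩)
    · refine ⟨z, ?_⟩
      have b := uni z t t1 t2 j hj
      have b2 : t * A z j ≠ 0 := mul_ne_zero (by rcases t1 with e | e <;> simp [e]) c
      rw [e2, neg_mul]
      exact neg_neg_of_pos (lt_of_le_of_ne b b2.symm)) x
  rw [e1] at this
  linarith

end Pool.Agent.Lib.MP_485030_co
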