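import Pool.Agent.Lib.MP_485030_co.Geometry
import Pool.Agent.Lib.MP_485030_co.PerfA

/-!
Barycentric coordinates of a simplex and its homothetic images.
-/

namespace Pool.Agent.Lib.MP_485030_co

open Finset Matrix Filter Topology

variable {n : ℕ} {p : Fin (n + 1) → ℝ} {x : Fin (n + 1) → Fin n → ℝ} {W : Fin n → Fin (n + 1) → ℝ}

/-- `p j + ∑ i, W i j * (2 z i - 1)` are the barycentric coordinates for the points `x j`. -/
structure Co (p : Fin (n + 1) → ℝ) (x : Fin (n + 1) → Fin n → ℝ) (W : Fin n → Fin (n + 1) → ℝ) :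
    Prop where
  sum_p : ∑ j, p j = 1
  sum_W : ∀ i, ∑ j, W i j = 0
  sum_V : ∀ i, ∑ j, p j * (2 * x j i - 1) = 0
  dual : ∀ i k, ∑ j, W i j * (2 * x j k - 1) = if i = k then 1 else 0

/-- the barycentric coordinates -/
def ell (p : Fin (n + 1) → ℝ) (W : Fin n → Fin (n + 1) → ℝ) (j : Fin (n + 1)) (z : Fin n → ℝ) : ℝ :=
  p j + ∑ i, W i j * (2 * z i - 1)

/-- the homothetic image -/
def img (x : Fin (n + 1) → Fin n → ℝ) (σ : ℝ) : Set (Fin n → ℝ) :=
  AffineMap.homothety (Finset.univ.centroid ℝ x) σ '' convexHull ℝ (Set.range x)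

theorem Co.tr (h : Co p x W) (k j : Fin (n + 1)) : ell p W j (x k) = if k = j then 1 else 0 := by
  let M : Matrix (Fin (n + 1)) (Fin (n + 1)) ℝ := fun j => Fin.cons 1 fun i => 2 * x j i - 1
  let N : Matrix (Fin (n + 1)) (Fin (n + 1)) ℝ := Fin.cons p W
  have hNM : N * M = 1 := by
    ext a b
    refine Fin.cases ?_ (fun a => ?_) a <;> refine Fin.cases ?_ (fun b => ?_) b
    · simp [M, N, Matrix.mul_apply, h.sum_p]
    · simp [M, N, Matrix.mul_apply, h.sum_V, (Fin.succ_ne_zero b).symm]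
    · simp [M, N, Matrix.mul_apply, h.sum_W]
    · simp [M, N, Matrix.mul_apply, h.dual, Matrix.one_apply]
  have hMN : M * N = 1 := mul_eq_one_comm.1 hNM
  have := congrFun (congrFun hMN k) j
  simpa [M, N, Matrix.mul_apply, Fin.sum_univ_succ, Matrix.one_apply, ell, mul_comm] using this

theorem ell_comb (j : Fin (n + 1)) {ι : Type} [Fintype ι] (w : ι → ℝ) (z : ι → Fin n → ℝ) :
    ∑ k, w k * ell p W j (z k) =
      (∑ k, w k) * (p j - ∑ i, W i j) + 2 * ∑ i, W i j * (∑ k, w k • z k) i := by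
  simp only [ell, mul_add, sum_add_distrib, Finset.sum_apply, Pi.smul_apply, smul_eq_mul, mul_sub,
    sum_sub_distrib, mul_sum, sum_mul, mul_one]
  rw [sum_comm (f := fun k i => w k * (W i j * (2 * z k i))), sum_comm (f := fun k i => w k * W i j)]
  have : ∀ i k, w k * (W i j * (2 * z k i)) = 2 * (W i j * (w k * z k i)) := fun i k => by ring
  simp only [this]
  ring

theorem ell_eq (j : Fin (n + 1)) (z : Fin n → ℝ) :
    ell p W j z = (p j - ∑ i, W i j) + 2 * ∑ i, W i j * z i := by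
  simpa using ell_comb (p := p) (W := W) j (fun _ : Unit => 1) fun _ => z

theorem Co.indep (h : Co p x W) : AffineIndependent ℝ x := by
  rw [affineIndependent_iff_of_fintype]
  intro w hw hw' j
  rw [Finset.weightedVSub_eq_linear_combination _ hw] at hw'
  have := ell_comb (p := p) (W := W) j w x
  rw [hw, hw'] at this
  simpa [h.tr] using this

theorem exists_co (S : Affine.Simplex ℝ (Fin n → ℝ) n) : ∃ p W, Co p S.points W := by
  set x := S.points with hx
  let M : Matrix (Fin (n + 1)) (Fin (n + 1)) ℝ := fun j => Fin.cons 1 fun i => 2 * x j i - 1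
  have hM : IsUnit M := by
    rw [← Matrix.vecMul_injective_iff_isUnit]
    intro w₁ w₂ hw
    have hind := S.independent
    rw [affineIndependent_iff_of_fintype] at hind
    have h0 : (w₁ - w₂) ᵥ* M = 0 := by
      rw [sub_vecMul]; exact sub_eq_zero.2 hw
    have h3 : ∑ j, (w₁ - w₂) j = 0 := by simpa [M, vecMul, dotProduct] using congrFun h0 0
    have h4 := hind (w₁ - w₂) h3 (by
      rw [Finset.weightedVSub_eq_linear_combination _ h3]
      funext b
      have := congrFun h0 b.succ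
      simp only [M, vecMul, dotProduct, Fin.cons_succ, Pi.zero_apply] at this
      have h5 : ∑ j, (w₁ - w₂) j * (2 * x j b - 1) =
          2 * ∑ j, (w₁ - w₂) j * x j b - ∑ j, (w₁ - w₂) j := by
        rw [mul_sum, ← sum_sub_distrib]
        exact sum_congr rfl fun j _ => by ring
      simp only [Finset.sum_apply, Pi.smul_apply, smul_eq_mul, Pi.zero_apply]
      linarith)
    exact sub_eq_zero.1 (funext h4)
  obtain ⟨U, hU⟩ := hM
  let N : Matrix (Fin (n + 1)) (Fin (n + 1)) ℝ := (U⁻¹ : (Matrix _ _ ℝ)ˣ)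
  have hNM : N * M = 1 := by rw [← hU]; exact U.inv_mul
  refine ⟨N 0, fun i j => N i.succ j, ?_, fun i => ?_, fun i => ?_, fun i k => ?_⟩
  · simpa [M, Matrix.mul_apply] using congrFun (congrFun hNM 0) 0
  · simpa [M, Matrix.mul_apply] using congrFun (congrFun hNM i.succ) 0
  · have := congrFun (congrFun hNM 0) i.succ
    simpa [M, Matrix.mul_apply, Matrix.one_apply, (Fin.succ_ne_zero i).symm] using this
  · simpa [M, Matrix.mul_apply, Matrix.one_apply] using congrFun (congrFun hNM i.succ) k.succ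

theorem Co.sum_ell (h : Co p x W) (z : Fin n → ℝ) : ∑ j, ell p W j z = 1 := by
  simp only [ell, sum_add_distrib, h.sum_p]
  rw [sum_comm]
  simp [← sum_mul, h.sum_W]

theorem Co.comb (h : Co p x W) (z : Fin n → ℝ) (k : Fin n) : ∑ j, ell p W j z * x j k = z k := by
  have h1 : ∑ j, ell p W j z * (2 * x j k - 1) = 2 * z k - 1 := by
    simp only [ell, add_mul, sum_add_distrib, h.sum_V, zero_add, sum_mul]
    rw [sum_comm]
    have : ∀ i, ∑ j, W i j * (2 * z i - 1) * (2 * x j k - 1) =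
        (if i = k then 1 else 0) * (2 * z i - 1) := fun i => by
      rw [← h.dual, sum_mul]
      exact sum_congr rfl fun j _ => by ring
    simp [this]
  have h2 : ∑ j, ell p W j z * (2 * x j k - 1) = 2 * ∑ j, ell p W j z * x j k - ∑ j, ell p W j z := by
    rw [mul_sum, ← sum_sub_distrib]
    exact sum_congr rfl fun j _ => by ring
  linarith [h.sum_ell z]

theorem Co.mem_img (h : Co p x W) {σ : ℝ} (hσ : 0 < σ) (z : Fin n → ℝ) :
    z ∈ img x σ ↔ ∀ j, (1 - σ) / (n + 1) ≤ ell p W j z := by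
  have n0 : (0 : ℝ) < n + 1 := by positivity
  constructor
  · rintro ⟨u, hu, rfl⟩ j
    have h1 : 0 ≤ ell p W j u := by
      refine convexHull_min (t := {u | 0 ≤ ell p W j u}) ?_ ?_ hu
      · rintro _ ⟨k, rfl⟩
        simp only [Set.mem_ofPred_eq, h.tr]
        split_ifs <;> norm_num
      · intro a ha b hb s t hs ht hst
        have := ell_comb (p := p) (W := W) j ![s, t] ![a, b]
        simp only [Fin.sum_univ_two, cons_val_zero, cons_val_one, hst, one_mul, ← ell_eq] at this
        exact (add_nonneg (mul_nonneg hs ha) (mul_nonneg ht hb)).trans this.le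
    have h2 : ell p W j (Finset.univ.centroid ℝ x) = 1 / (n + 1) := by
      have := ell_comb (p := p) (W := W) j (fun _ => 1 / ((n : ℝ) + 1)) x
      have e : ∑ k, (1 / ((n : ℝ) + 1)) • x k = Finset.univ.centroid ℝ x := by
        funext i
        rw [centroid_apply, Finset.sum_apply, sum_div]
        exact sum_congr rfl fun k _ => by simp [div_eq_inv_mul]
      have e2 : ∑ _k : Fin (n + 1), 1 / ((n : ℝ) + 1) = 1 := by simp; field_simp
      rw [e, e2, one_mul, ← ell_eq] at this
      simpa [h.tr] using this.symm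
    have h3 := ell_comb (p := p) (W := W) j ![σ, 1 - σ] ![u, Finset.univ.centroid ℝ x]
    have e : AffineMap.homothety (Finset.univ.centroid ℝ x) σ u =
        σ • u + (1 - σ) • Finset.univ.centroid ℝ x := by
      rw [AffineMap.homothety_apply, vsub_eq_sub, vadd_eq_add]
      module
    simp only [Fin.sum_univ_two, cons_val_zero, cons_val_one, add_sub_cancel, one_mul, ← ell_eq,
      h2] at h3
    rw [e, ← h3, mul_one_div]
    linarith [mul_nonneg hσ.le h1]
  · intro hz
    let l : Fin (n + 1) → ℝ := fun j => (ell p W j z - (1 - σ) / (n + 1)) / σ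
    refine ⟨∑ j, l j • x j, (convex_convexHull ℝ _).sum_mem
      (fun j _ => div_nonneg (sub_nonneg.2 (hz j)) hσ.le) ?_
      fun j _ => subset_convexHull ℝ _ ⟨j, rfl⟩, funext fun k => ?_⟩
    · simp only [l, ← sum_div, sum_sub_distrib, h.sum_ell]
      simp
      field_simp
      ring
    · have h1 : ∑ j, l j * x j k = (z k - (1 - σ) / (n + 1) * ∑ j, x j k) / σ := by
        rw [← h.comb z k, mul_sum, ← sum_sub_distrib, sum_div]
        exact sum_congr rfl fun j _ => by simp only [l]; ring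
      simp only [AffineMap.homothety_apply, vsub_eq_sub, vadd_eq_add, Pi.add_apply, Pi.smul_apply,
        Pi.sub_apply, Finset.sum_apply, smul_eq_mul, h1, centroid_apply]
      field_simp
      ring

theorem ell_ge (j : Fin (n + 1)) {z : Fin n → ℝ} (hz : z ∈ Set.Icc (0 : Fin n → ℝ) 1) :
    p j - ∑ i, |W i j| ≤ ell p W j z := by
  rw [ell, sub_eq_add_neg, ← sum_neg_distrib]
  refine add_le_add le_rfl (sum_le_sum fun i _ => (abs_le.1 ?_).1)
  have h0 : 0 ≤ z i := hz.1 i
  have h1 : z i ≤ 1 := hz.2 i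
  rw [abs_mul]
  exact mul_le_of_le_one_right (abs_nonneg _) (abs_le.2 ⟨by linarith, by linarith⟩)

theorem Co.cube (h : Co p x W) {σ : ℝ} (hσ : 0 < σ) :
    Set.Icc 0 1 ⊆ img x σ ↔ ∀ j, (1 - σ) / (n + 1) ≤ p j - ∑ i, |W i j| := by
  refine ⟨fun h1 j => ?_, fun h1 z hz => (h.mem_img hσ z).2 fun j => (h1 j).trans (ell_ge j hz)⟩
  have := (h.mem_img hσ fun i => if 0 ≤ W i j then 0 else 1).1 (h1 (by
    constructor <;> intro i <;> beta_reduce <;> split_ifs <;> simp)) j
  refine this.trans (le_of_eq ?_)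
  rw [ell, sub_eq_add_neg (p j), ← sum_neg_distrib]
  refine congrArg _ (sum_congr rfl fun i _ => ?_)
  split_ifs with h2
  · rw [abs_of_nonneg h2]; ring
  · rw [abs_of_neg (not_le.1 h2)]; ring

theorem cont_ell (j : Fin (n + 1)) : Continuous (ell p W j) := by
  unfold ell
  fun_prop

theorem Co.front (h : Co p x W) (hn : 1 ≤ n) {σ : ℝ} (hσ : 0 < σ) {y : Fin n → ℝ}
    (hy : y ∈ img x σ) : y ∈ frontier (img x σ) ↔ ∃ j, ell p W j y = (1 - σ) / (n + 1) := by
  constructor
  · intro h1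
    by_contra h2
    refine h1.2 (mem_interior.2 ⟨⋂ j, {z | (1 - σ) / (n + 1) < ell p W j z}, fun z hz =>
      (h.mem_img hσ z).2 fun j => le_of_lt (Set.mem_iInter.1 hz j),
      isOpen_iInter_of_finite fun j => isOpen_lt continuous_const (cont_ell j),
      Set.mem_iInter.2 fun j => lt_of_le_of_ne ((h.mem_img hσ y).1 hy j) fun e => h2 ⟨j, e.symm⟩⟩)
  · rintro ⟨j, hj⟩
    refine ⟨subset_closure hy, fun h1 => ?_⟩
    obtain ⟨k, hk⟩ : ∃ k, k ≠ j := by
      have : Nontrivial (Fin (n + 1)) := Fin.nontrivial_iff_two_le.2 (by omega)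
      exact exists_ne j
    have c : Continuous fun t : ℝ => y + t • (x k - x j) := by fun_prop
    have h2 := c.continuousAt (x := 0) (show img x σ ∈ 𝓝 _ by
      simpa using mem_interior_iff_mem_nhds.1 h1)
    obtain ⟨t, t1, t2⟩ := Filter.nonempty_of_mem (inter_mem
      (nhdsWithin_le_nhds (s := Set.Ioi (0 : ℝ)) h2) self_mem_nhdsWithin)
    have h3 := (h.mem_img hσ _).1 t1 j
    have h4 := ell_comb (p := p) (W := W) j ![1, t, -t] ![y, x k, x j]
    have e : y + t • (x k - x j) = (1 : ℝ) • y + t • x k + (-t) • x j := by module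
    simp only [Fin.sum_univ_three, cons_val_zero, cons_val_one, Matrix.cons_val,
      add_neg_cancel_right, one_mul, ← ell_eq, h.tr, if_neg hk, if_true] at h4
    beta_reduce at h3
    rw [e, ← h4, hj] at h3
    linarith [Set.mem_Ioi.1 t2]

theorem hull_iff : convexHull ℝ (Set.range x) ⊆ Set.Icc 0 1 ↔ ∀ j i, |2 * x j i - 1| ≤ 1 := by
  constructor
  · intro h1 j i
    have h := h1 (subset_convexHull ℝ _ ⟨j, rfl⟩)
    have h0 : 0 ≤ x j i := h.1 i
    have h1 : x j i ≤ 1 := h.2 i
    rw [abs_le]; constructor <;> linarith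
  · intro h
    apply convexHull_min _ (convex_Icc 0 1)
    rintro _ ⟨j, rfl⟩
    constructor <;> intro i <;> have := abs_le.1 (h j i) <;>
      simp only [Pi.zero_apply, Pi.one_apply] <;> linarith

/-- the known lower bound -/
theorem Co.lower (h : Co p x W) (hV : ∀ j i, |2 * x j i - 1| ≤ 1) {σ : ℝ}
    (hc : ∀ j, (1 - σ) / (n + 1) ≤ p j - ∑ i, |W i j|) : n ≤ σ := by
  have h1 := sum_le_sum fun j (_ : j ∈ univ) => hc j
  rw [sum_sub_distrib, h.sum_p, sum_comm] at h1
  have h2 : ∑ _i : Fin n, (1 : ℝ) ≤ ∑ i, ∑ j, |W i j| := sum_le_sum fun i _ => by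
    have := h.dual i i
    rw [if_pos rfl] at this
    rw [← this]
    refine sum_le_sum fun j _ => (le_abs_self _).trans ?_
    rw [abs_mul]
    exact mul_le_of_le_one_right (abs_nonneg _) (hV j i)
  have h3 : ∑ _j : Fin (n + 1), (1 - σ) / (n + 1) = 1 - σ := by simp; field_simp
  simp only [sum_const, card_univ, Fintype.card_fin, nsmul_eq_mul, mul_one] at h2
  linarith

theorem Co.hall (h : Co p x W) (K : Finset (Fin (n + 1))) (hK : K ≠ univ) :
    K.card ≤ (nb W K).card := by
  classical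
  by_contra hc
  let f : (K → ℝ) →ₗ[ℝ] (nb W K → ℝ) := Matrix.mulVecLin fun (i : nb W K) (j : K) => W i j
  obtain ⟨u, hu, u0⟩ := (Submodule.ne_bot_iff _).1 (f.ker_ne_bot_of_finrank_lt (by simp; omega))
  have h1 : ∀ i, ∑ j : K, W i j * u j = 0 := fun i => by
    by_cases hi : i ∈ nb W K
    · exact congrFun (LinearMap.mem_ker.1 hu) ⟨i, hi⟩
    · exact sum_eq_zero fun j _ => by
        rw [show W i j = 0 from by_contra fun e => hi (mem_nb.2 ⟨j, j.2, e⟩), zero_mul]
  have h2 : ∀ k, ∑ j : K, ell p W j (x k) * u j = ∑ j : K, p j * u j := fun k => by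
    simp only [ell, add_mul, sum_add_distrib, sum_mul]
    rw [sum_comm, sum_eq_zero (s := univ) (f := fun i => ∑ j : K, W i j * (2 * x k i - 1) * u j)
      fun i _ => by
        rw [← mul_zero (2 * x k i - 1), ← h1 i, mul_sum]
        exact sum_congr rfl fun j _ => by ring, add_zero]
  obtain ⟨k, hk⟩ : ∃ k, k ∉ K := by
    by_contra! e
    exact hK (eq_univ_of_forall e)
  have h3 := h2 k
  rw [sum_eq_zero fun j _ => by rw [h.tr, if_neg fun e : k = j => hk (e ▸ j.2), zero_mul]] at h3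
  refine u0 (funext fun j => ?_)
  have h4 := h2 j
  rw [← h3] at h4
  simpa [h.tr, Subtype.coe_inj] using h4

theorem Co.part (h : Co p x W) (hV : ∀ j i, |2 * x j i - 1| ≤ 1) {σ : ℝ}
    (hc : ∀ j, (1 - σ) / (n + 1) ≤ p j - ∑ i, |W i j|) {R : Finset (Fin (n + 1))} {a : Fin n}
    (h1 : R.Nonempty) (h2 : R ≠ univ) (h3 : ∀ i, i ≠ a → ∑ j ∈ R, W i j = 0) :
    R.card * (1 + (1 - σ) / (n + 1)) ≤ 1 := by
  have key : ∀ k, ∑ j ∈ R, p j + (∑ j ∈ R, W a j) * (2 * x k a - 1) = if k ∈ R then 1 else 0 := by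
    intro k
    have := sum_congr (rfl : R = R) fun j _ => h.tr k j
    simp only [ell, sum_add_distrib, sum_ite_eq] at this
    rw [sum_comm, sum_eq_single a (fun i _ hi => by rw [← sum_mul, h3 i hi, zero_mul])
      (by simp), ← sum_mul] at this
    exact this
  obtain ⟨k, hk⟩ : ∃ k, k ∉ R := by
    by_contra! e
    exact h2 (eq_univ_of_forall e)
  obtain ⟨j0, hj0⟩ := h1
  have a1 := key k
  have a2 := key j0
  rw [if_neg hk] at a1
  rw [if_pos hj0] at a2
  set c := ∑ j ∈ R, W a j with hcc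
  have c0 : c ≠ 0 := fun e => by rw [e] at a1 a2; linarith
  have a3 : ∀ j ∈ R, 2 * x j a - 1 = 2 * x j0 a - 1 := fun j hj => by
    have := key j
    rw [if_pos hj] at this
    exact mul_left_cancel₀ c0 (by linarith)
  obtain ⟨t, t1, t2⟩ : ∃ t : ℝ, |t| = 1 ∧ t * c = |c| := by
    rcases le_total 0 c with e | e
    · exact ⟨1, by simp, by rw [abs_of_nonneg e, one_mul]⟩
    · exact ⟨-1, by simp, by rw [abs_of_nonpos e, neg_one_mul]⟩
  have a4 : ∀ j ∈ R, 1 + (1 - σ) / (n + 1) ≤ 2 * p j + ((2 * x j0 a - 1) - t) * W a j := by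
    intro j hj
    have b1 := h.tr j j
    have b2 := hc j
    rw [if_pos rfl, ell, ← add_sum_erase _ _ (mem_univ a), a3 j hj] at b1
    rw [← add_sum_erase _ _ (mem_univ a)] at b2
    have b3 : ∑ i ∈ univ.erase a, W i j * (2 * x j i - 1) ≤ ∑ i ∈ univ.erase a, |W i j| :=
      sum_le_sum fun i _ => (le_abs_self _).trans (by
        rw [abs_mul]
        exact mul_le_of_le_one_right (abs_nonneg _) (hV j i))
    have b4 : t * W a j ≤ |W a j| := (le_abs_self _).trans (by rw [abs_mul, t1, one_mul])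
    linarith
  have a5 := sum_le_sum a4
  rw [sum_const, nsmul_eq_mul, sum_add_distrib, ← mul_sum, ← mul_sum, ← hcc] at a5
  have a6 : -(c * (2 * x k a - 1)) ≤ |c| := (neg_le_abs _).trans (by
    rw [abs_mul]
    exact mul_le_of_le_one_right (abs_nonneg _) (hV k a))
  linarith

/-- in even dimensions a cube inscribed in `σ S` forces `σ ≥ n + 2 / (n + 2)` -/
theorem Co.even (h : Co p x W) (hn : 1 ≤ n) (he : Even n) (hV : ∀ j i, |2 * x j i - 1| ≤ 1) {σ : ℝ}
    (hσ : 0 < σ) (hc : Set.Icc 0 1 ⊆ img x σ)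
    (hf : ∀ y : Fin n → ℝ, (∀ i, y i = 0 ∨ y i = 1) → y ∈ frontier (img x σ)) :
    n + 2 / (n + 2) ≤ σ := by
  have hc' := (h.cube hσ).1 hc
  obtain ⟨M, a, m1, m2, m3⟩ := root W (by simp) (by simp; omega) h.sum_W h.hall fun y hy => by
    have v : ∀ i, (1 - y i) / 2 = 0 ∨ (1 - y i) / 2 = 1 := fun i => by
      rcases hy i with e | e <;> rw [e] <;> norm_num
    have mem : (fun i => (1 - y i) / 2) ∈ Set.Icc (0 : Fin n → ℝ) 1 := by
      constructor <;> intro i <;> rcases v i with e | e <;> simp [e]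
    obtain ⟨j, hj⟩ := (h.front hn hσ (hc mem)).1 (hf _ v)
    refine ⟨j, fun i => ?_⟩
    have b : ∀ i, y i * W i j ≤ |W i j| := fun i => (le_abs_self _).trans (by
      rcases hy i with e | e <;> simp [e])
    have b2 : ∑ i, |W i j| ≤ ∑ i, y i * W i j := by
      have := hc' j
      rw [← hj, ell, sum_congr rfl (g := fun i => -(y i * W i j)) fun i _ => by ring,
        sum_neg_distrib] at this
      linarith
    have := (sum_eq_sum_iff_of_le fun i _ => b i).1
      (le_antisymm (sum_le_sum fun i _ => b i) b2) i (mem_univ i)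
    exact this ▸ abs_nonneg _
  have p1 := h.part hV hc' m1 m2 m3
  have p2 := h.part hV hc' (R := Mᶜ) (a := a) (nonempty_iff_ne_empty.2 (by simpa using m2))
    (by simpa using m1.ne_empty) fun i hi => by
      have := sum_add_sum_compl M (W i)
      rwa [m3 i hi, h.sum_W, zero_add] at this
  have c1 := card_add_card_compl M
  rw [Fintype.card_fin] at c1
  obtain ⟨r, hr, p3⟩ : ∃ r : ℕ, n + 2 ≤ 2 * r ∧ r * (1 + (1 - σ) / (n + 1)) ≤ (1 : ℝ) := by
    obtain ⟨b, hb⟩ := he
    rcases le_total M.card Mᶜ.card with e | e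
    · exact ⟨_, by omega, p2⟩
    · exact ⟨_, by omega, p1⟩
  have hr' : (n : ℝ) + 2 ≤ 2 * r := by exact_mod_cast hr
  have n0 : (0 : ℝ) < n + 1 := by positivity
  have e : 1 + (1 - σ) / (n + 1) = (n + 2 - σ) / (n + 1) := by field_simp; ring
  rw [e, ← mul_div_assoc, div_le_one n0] at p3
  by_contra! hlt
  have e2 : (2 : ℝ) / (n + 2) ≤ 1 := by rw [div_le_one (by positivity)]; linarith
  have e3 : (2 : ℝ) / (n + 2) * (n + 2) = 2 := by field_simp
  nlinarith

end Pool.Agent.Lib.MP_485030_co
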