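import Pool.Agent.Lib.MP_485030_co.PerfB

/-!
Systems whose sign pattern covers the vertices of the cube, and the classification.
-/

namespace Pool.Agent.Lib.MP_485030_co

open Finset

/-- A system with the weights `p` whose columns cover all sign vectors. -/
def PSys {P : Type} [Fintype P] (p : P → ℝ) : Prop :=
  ∃ (C : Type) (_ : Fintype C) (_ : DecidableEq C) (V : P → C → ℝ) (W : C → P → ℝ),
    Fintype.card C + 1 = Fintype.card P ∧ IsSys p V W ∧
      ∀ y : C → ℝ, (∀ i, y i = 1 ∨ y i = -1) → ∃ j, ∀ i, 0 ≤ y i * W i j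

theorem PSys.split {P : Type} [Fintype P] [DecidableEq P] {p : P → ℝ} (h : PSys p) (g : P) (t : ℝ)
    (ht0 : 0 ≤ t) (htg : t ≤ p g) (hg : p g ≤ 1 / 2) :
    PSys (fun j : Option P => j.elim t fun j => if j = g then p g - t else p j) := by
  obtain ⟨C, _, _, V, W, hc, hs, hp⟩ := h
  have hpos : 0 < 1 - p g := by linarith
  set θ : ℝ := (1 / 2 - t) / (1 - p g) with hθ
  have hθ' : θ * (1 - p g) = 1 / 2 - t := by rw [hθ]; field_simp
  have hθ0 : 0 ≤ θ := div_nonneg (by linarith) hpos.le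
  have hθ1 : θ ≤ 1 := by rw [hθ, div_le_one hpos]; linarith
  have hW := fun i => sum_update_mul (W i) (fun _ => 1) g ((1 - θ) * W i g)
  refine ⟨Option C, inferInstance, inferInstance,
    fun j i => i.elim (j.elim 1 fun j => if j = g then -1 else 2 * θ - 1)
      fun i => V (j.getD g) i,
    fun i j => i.elim (j.elim (1 / 2) fun j => if j = g then -1 / 2 else 0)
      fun i => j.elim (θ * W i g) fun j => if j = g then (1 - θ) * W i g else W i j,
    by simp [hc], ⟨?_, ?_, ?_, ?_, ?_, ?_⟩, ?_⟩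
  · have := sum_update_mul p (fun _ => 1) g (p g - t)
    simp only [mul_one, hs.sum_p] at this
    simp only [Fintype.sum_option, Option.elim, this]
    ring
  · rintro (_ | j) (_ | i)
    · simp
    · exact hs.abs_V _ _
    · simp only [Option.elim]
      split_ifs
      · simp
      · rw [abs_le]; constructor <;> linarith
    · exact hs.abs_V _ _
  · rintro (_ | i)
    · simp; norm_num
    · have := hW i
      simp only [mul_one, hs.sum_W] at this
      simp only [Fintype.sum_option, Option.elim, this]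
      ring
  · rintro (_ | i)
    · simp only [Fintype.sum_option, Option.elim]
      rw [sum_update_mul]
      have h1 := sum_update_mul (fun _ => 2 * θ - 1) p g (-1)
      simp only [← mul_sum, hs.sum_p] at h1
      simp only [mul_comm (p _), h1, if_true]
      linear_combination 2 * hθ'
    · simp only [Fintype.sum_option, Option.elim, Option.getD]
      rw [sum_update_mul, hs.sum_V]
      ring
  · rintro (_ | i) (_ | k)
    · simp only [Fintype.sum_option, Option.elim]
      rw [sum_update_mul]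
      simp; norm_num
    · simp only [Fintype.sum_option, Option.elim, Option.getD]
      rw [sum_update_mul]
      simp; ring
    · simp only [Fintype.sum_option, Option.elim]
      rw [sum_update_mul]
      have h1 := sum_update_mul (fun _ => 2 * θ - 1) (W i) g (-1)
      simp only [← mul_sum, hs.sum_W] at h1
      simp only [mul_comm (W _ _), h1, if_true]
      simp; ring
    · simp only [Fintype.sum_option, Option.elim, Option.getD]
      rw [sum_update_mul, hs.dual]
      simp; ring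
  · rintro (_ | j)
    · simp only [Fintype.sum_option, Option.elim, abs_mul, abs_of_nonneg hθ0, ← mul_sum]
      have := mul_le_mul_of_nonneg_left (hs.col g) hθ0
      rw [abs_of_pos (by norm_num : (0 : ℝ) < 1 / 2)]
      linarith
    · simp only [Fintype.sum_option, Option.elim]
      by_cases hj : j = g
      · subst hj
        simp only [if_true, abs_mul, abs_of_nonneg (sub_nonneg.2 hθ1), ← mul_sum]
        have := mul_le_mul_of_nonneg_left (hs.col j) (sub_nonneg.2 hθ1)
        rw [abs_of_neg (by norm_num : (-1 / 2 : ℝ) < 0)]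
        nlinarith
      · simpa [hj] using hs.col j
  · intro y hy
    obtain ⟨j, hj⟩ := hp (fun i => y (some i)) fun i => hy _
    by_cases e : j = g
    · subst e
      rcases hy none with e | e
      · refine ⟨none, ?_⟩
        rintro (_ | i)
        · simp [e]
        · simp only [Option.elim]
          rw [mul_left_comm]
          exact mul_nonneg hθ0 (hj i)
      · refine ⟨some j, ?_⟩
        rintro (_ | i)
        · simp [e]; norm_num
        · simp only [Option.elim, if_true]
          rw [mul_left_comm]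
          exact mul_nonneg (sub_nonneg.2 hθ1) (hj i)
    · refine ⟨some j, ?_⟩
      rintro (_ | i)
      · simp [e]
      · simpa [e] using hj i

theorem psys_uniform_of_nat (m : ℕ) (d : ℕ) : ∀ (P : Type) [Fintype P] [DecidableEq P]
    (a : P → ℕ), Fintype.card P + d = m → (∀ j, 1 ≤ a j) → (∀ j, 2 * a j ≤ m) → ∑ j, a j = m →
    PSys (fun j => (a j : ℝ) / m) →
    ∃ (Q : Type) (_ : Fintype Q), Fintype.card Q = m ∧ PSys (fun _ : Q => (1 : ℝ) / m) := by
  induction d with
  | zero =>
    intro P _ _ a hc h1 _ hs h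
    have ha : ∀ j, a j = 1 := by
      have h2 : ∑ j : P, 1 = ∑ j, a j := by simp [hs, ← hc]
      have := (Finset.sum_eq_sum_iff_of_le (fun j _ => h1 j)).1 h2
      exact fun j => (this j (mem_univ j)).symm
    refine ⟨P, inferInstance, by simpa using hc, ?_⟩
    simpa [ha] using h
  | succ d ih =>
    intro P _ _ a hc h1 h2 hs h
    obtain ⟨g, hg⟩ : ∃ g, 2 ≤ a g := by
      by_contra hcon
      push Not at hcon
      have : ∑ j, a j ≤ ∑ j : P, 1 := Finset.sum_le_sum fun j _ => by have := hcon j; omega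
      simp at this
      omega
    have hm : (0 : ℝ) < m := by
      have := h2 g
      exact_mod_cast (by omega : 0 < m)
    have hsplit := h.split g (1 / m) (by positivity)
      (by gcongr; exact_mod_cast h1 g)
      (by
        rw [div_le_div_iff₀ hm (by norm_num)]
        have : ((2 * a g : ℕ) : ℝ) ≤ m := by exact_mod_cast h2 g
        push_cast at this
        linarith)
    refine ih (Option P) (fun j => j.elim 1 fun j => if j = g then a g - 1 else a j)
      (by simp; omega) ?_ ?_ ?_ ?_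
    · rintro (_ | j)
      · simp
      · simp only [Option.elim]
        split_ifs
        · omega
        · exact h1 j
    · rintro (_ | j)
      · have := h2 g
        simp only [Option.elim]
        omega
      · simp only [Option.elim]
        split_ifs
        · have := h2 g
          omega
        · exact h2 j
    · simp only [Fintype.sum_option, Option.elim]
      rw [← Finset.add_sum_erase _ _ (mem_univ g)] at hs ⊢
      have h3 : ∑ j ∈ univ.erase g, (if j = g then a g - 1 else a j) = ∑ j ∈ univ.erase g, a j :=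
        Finset.sum_congr rfl fun j hj => if_neg (Finset.ne_of_mem_erase hj)
      rw [if_pos rfl, h3]
      omega
    · convert hsplit using 2 with j
      rcases j with _ | j
      · simp
      · simp only [Option.elim]
        split_ifs
        · rw [Nat.cast_sub (h1 g)]
          push_cast
          ring
        · rfl

theorem psys_two : PSys (fun _ : Fin 2 => (1 : ℝ) / 2) := by
  refine ⟨Fin 1, inferInstance, inferInstance, fun j _ => ![1, -1] j, fun _ => ![1 / 2, -1 / 2],
    by simp, ⟨?_, ?_, ?_, ?_, ?_, ?_⟩, fun y hy => ?_⟩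
  · simp
  · intro j i; fin_cases j <;> simp
  · intro i; simp; norm_num
  · intro i; simp
  · intro i k
    rw [Subsingleton.elim i k]
    simp; norm_num
  · intro j; fin_cases j <;> simp [abs_div] <;> norm_num
  · rcases hy 0 with e | e
    · exact ⟨0, fun i => by rw [Subsingleton.elim i 0, e]; simp⟩
    · exact ⟨1, fun i => by rw [Subsingleton.elim i 0, e]; simp; norm_num⟩

theorem exists_psys {n : ℕ} (hn : Odd n) : ∃ (V : Fin (n + 1) → Fin n → ℝ)
    (W : Fin n → Fin (n + 1) → ℝ), IsSys (fun _ => (1 : ℝ) / (n + 1)) V W ∧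
      ∀ y : Fin n → ℝ, (∀ i, y i = 1 ∨ y i = -1) → ∃ j, ∀ i, 0 ≤ y i * W i j := by
  obtain ⟨a, ha⟩ : ∃ a, n + 1 = 2 * a := by
    obtain ⟨b, rfl⟩ := hn
    exact ⟨b + 1, by ring⟩
  obtain ⟨Q, _, hQ, C, _, _, V, W, hC, h, hp⟩ := psys_uniform_of_nat (2 * a) (2 * a - 2) (Fin 2)
    (fun _ => a) (by simp; omega) (fun _ => by omega) (fun _ => le_rfl) (by simp [two_mul]) (by
      have ha : (a : ℝ) ≠ 0 := by exact_mod_cast (by omega : a ≠ 0)
      convert psys_two using 2
      push_cast
      field_simp)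
  rw [← ha] at hQ h
  let e := (Fintype.equivFinOfCardEq hQ).symm
  let f := (Fintype.equivFinOfCardEq (by omega : Fintype.card C = n)).symm
  have := h.reindex e f
  push_cast at this
  refine ⟨_, _, this, fun y hy => ?_⟩
  obtain ⟨j, hj⟩ := hp (fun i => y (f.symm i)) fun i => hy _
  exact ⟨e.symm j, fun i => by simpa using hj (f i)⟩

variable {n : ℕ}

theorem co_of {p : Fin (n + 1) → ℝ} {V : Fin (n + 1) → Fin n → ℝ} {W : Fin n → Fin (n + 1) → ℝ}
    (h1 : ∑ j, p j = 1) (h2 : ∀ i, ∑ j, W i j = 0) (h3 : ∀ i, ∑ j, p j * V j i = 0)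
    (h4 : ∀ i k, ∑ j, W i j * V j k = if i = k then 1 else 0) :
    Co p (fun j i => (V j i + 1) / 2) W := by
  have e : ∀ t : ℝ, 2 * ((t + 1) / 2) - 1 = t := fun t => by ring
  exact ⟨h1, h2, by simpa only [e] using h3, by simpa only [e] using h4⟩

/-- the admissible ratios -/
def Adm (n : ℕ) : Set ℝ :=
  {τ | 1 ≤ τ ∧ ∃ T : Affine.Simplex ℝ (Fin n → ℝ) n,
    convexHull ℝ (Set.range T.points) ⊆ Set.Icc 0 1 ∧ Set.Icc 0 1 ⊆ img T.points τ}

theorem adm_of {p : Fin (n + 1) → ℝ} {V : Fin (n + 1) → Fin n → ℝ} {W : Fin n → Fin (n + 1) → ℝ}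
    {τ : ℝ} (h0 : 1 ≤ τ) (h1 : ∑ j, p j = 1) (h2 : ∀ i, ∑ j, W i j = 0)
    (h3 : ∀ i, ∑ j, p j * V j i = 0) (h4 : ∀ i k, ∑ j, W i j * V j k = if i = k then 1 else 0)
    (h5 : ∀ j i, |V j i| ≤ 1) (h6 : ∀ j, (1 - τ) / (n + 1) ≤ p j - ∑ i, |W i j|) : τ ∈ Adm n := by
  have h := co_of h1 h2 h3 h4
  have e : ∀ t : ℝ, 2 * ((t + 1) / 2) - 1 = t := fun t => by ring
  exact ⟨h0, ⟨_, h.indep⟩, hull_iff.2 (by simpa only [e] using h5), (h.cube (by linarith)).2 h6⟩

theorem adm_two : (17 / 7 : ℝ) ∈ Adm 2 := by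
  refine adm_of (p := ![2 / 7, 5 / 14, 5 / 14]) (V := ![![1, -1], ![1 / 5, 1], ![-1, -1 / 5]])
    (W := ![![5 / 14, 5 / 21, -25 / 42], ![-5 / 14, 25 / 42, -5 / 21]]) (by norm_num) ?_ ?_ ?_ ?_
    ?_ ?_
  · simp [Fin.sum_univ_succ]; norm_num
  · intro i; fin_cases i <;> simp [Fin.sum_univ_succ] <;> norm_num
  · intro i; fin_cases i <;> simp [Fin.sum_univ_succ] <;> norm_num
  · intro i k; fin_cases i <;> fin_cases k <;> simp [Fin.sum_univ_succ] <;> norm_num
  · intro j i; fin_cases j <;> fin_cases i <;> simp [abs_div] <;> norm_num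
  · intro j; fin_cases j <;> simp [Fin.sum_univ_succ, abs_div] <;> norm_num

theorem adm_four : (25 / 6 : ℝ) ∈ Adm 4 := by
  refine adm_of (p := ![1 / 5, 1 / 5, 1 / 5, 1 / 5, 1 / 5])
    (V := ![![-1, -1 / 2, -1, -1], ![0, -1, 1, 0], ![-1, 1, 1 / 2, 1], ![1, -1 / 2, -1, 1],
      ![1, 1, 1 / 2, -1]])
    (W := ![![-1 / 4, 0, -1 / 4, 1 / 4, 1 / 4], ![-1 / 15, -2 / 5, 4 / 15, -1 / 15, 4 / 15],
      ![-4 / 15, 2 / 5, 1 / 15, -4 / 15, 1 / 15], ![-1 / 4, 0, 1 / 4, 1 / 4, -1 / 4]])
    (by norm_num) ?_ ?_ ?_ ?_ ?_ ?_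
  · simp [Fin.sum_univ_succ]; norm_num
  · intro i; fin_cases i <;> simp [Fin.sum_univ_succ] <;> norm_num
  · intro i; fin_cases i <;> simp [Fin.sum_univ_succ] <;> norm_num
  · intro i k; fin_cases i <;> fin_cases k <;> simp [Fin.sum_univ_succ] <;> norm_num
  · intro j i; fin_cases j <;> fin_cases i <;> simp [abs_div] <;> norm_num
  · intro j; fin_cases j <;> simp [Fin.sum_univ_succ, abs_div] <;> norm_num

theorem adm_six : (92 / 15 : ℝ) ∈ Adm 6 := by
  refine adm_of (p := ![2 / 15, 2 / 15, 2 / 15, 2 / 15, 2 / 15, 1 / 6, 1 / 6])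
    (V := ![![1, -1, 1, -1, 1 / 3, 7 / 15], ![1, 1, -1, -1, 1 / 3, -1], ![-1, 1, 1, 1 / 3, -1, -1],
      ![-1, -1, -1, 1 / 3, -1, 7 / 15], ![0, 1, 0, -1 / 3, -1 / 3, 1],
      ![1, -2 / 5, 2 / 5, 1, 1 / 3, 2 / 75], ![-1, -2 / 5, -2 / 5, 1 / 3, 1, 2 / 75]])
    (W := ![![1 / 60, 3 / 20, -3 / 20, -1 / 60, 0, 1 / 3, -1 / 3],
      ![-1 / 4, 1 / 15, 1 / 15, -1 / 4, 11 / 30, 0, 0], ![1 / 4, -1 / 4, 1 / 4, -1 / 4, 0, 0, 0],
      ![-7 / 20, -3 / 20, 0, 0, 0, 1 / 2, 0], ![0, 0, -3 / 20, -7 / 20, 0, 0, 1 / 2],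
      ![0, -1 / 4, -1 / 4, 0, 1 / 2, 0, 0]])
    (by norm_num) ?_ ?_ ?_ ?_ ?_ ?_
  · simp [Fin.sum_univ_succ]; norm_num
  · intro i; fin_cases i <;> simp [Fin.sum_univ_succ] <;> norm_num
  · intro i; fin_cases i <;> simp [Fin.sum_univ_succ] <;> norm_num
  · intro i k; fin_cases i <;> fin_cases k <;> simp [Fin.sum_univ_succ] <;> norm_num
  · intro j i; fin_cases j <;> fin_cases i <;> simp [abs_div] <;> norm_num
  · intro j; fin_cases j <;> simp [Fin.sum_univ_succ, abs_div] <;> norm_num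

theorem adm_lt (hn : 1 ≤ n) : ∃ τ ∈ Adm n, τ < n + 2 / (n + 2) := by
  by_cases h2 : n = 2
  · exact h2 ▸ ⟨_, adm_two, by norm_num⟩
  by_cases h4 : n = 4
  · exact h4 ▸ ⟨_, adm_four, by norm_num⟩
  by_cases h6 : n = 6
  · exact h6 ▸ ⟨_, adm_six, by norm_num⟩
  exact ⟨n, ⟨by exact_mod_cast hn, good_of_ne hn h2 h4 h6⟩, lt_add_of_pos_right _ (by positivity)⟩

theorem perfect_iff (hn : 1 ≤ n) :
    (∃ (S : Affine.Simplex ℝ (Fin n → ℝ) n) (σ : ℝ), IsLeast (Adm n) σ ∧
      convexHull ℝ (Set.range S.points) ⊆ Set.Icc 0 1 ∧ Set.Icc 0 1 ⊆ img S.points σ ∧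
      ∀ y : Fin n → ℝ, (∀ i, y i = 0 ∨ y i = 1) → y ∈ frontier (img S.points σ)) ↔ Odd n := by
  have n1 : (1 : ℝ) ≤ n := by exact_mod_cast hn
  constructor
  · rintro ⟨S, σ, h1, h2, h3, h4⟩
    refine Nat.not_even_iff_odd.1 fun he => ?_
    obtain ⟨p, W, h⟩ := exists_co S
    obtain ⟨τ, t1, t2⟩ := adm_lt hn
    linarith [h.even hn he (hull_iff.1 h2) (by linarith [h1.1.1]) h3 h4, h1.2 t1]
  · intro ho
    obtain ⟨V, W, h, hp⟩ := exists_psys ho
    have c := co_of h.sum_p h.sum_W h.sum_V h.dual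
    have e : ∀ t : ℝ, 2 * ((t + 1) / 2) - 1 = t := fun t => by ring
    have e2 : (1 - (n : ℝ)) / (n + 1) = 1 / (n + 1) - (1 - 1 / (n + 1)) := by field_simp; ring
    have a1 := (hull_iff (x := fun j i => (V j i + 1) / 2)).2 (by simpa only [e] using h.abs_V)
    have a2 := (c.cube (σ := n) (by linarith)).2 fun j => by linarith [h.col j]
    refine ⟨⟨_, c.indep⟩, n, ⟨⟨n1, ⟨_, c.indep⟩, a1, a2⟩, ?_⟩, a1, a2, fun y hy => ?_⟩
    · rintro τ ⟨t1, T, t2, t3⟩
      obtain ⟨p', W', h'⟩ := exists_co T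
      exact h'.lower (hull_iff.1 t2) ((h'.cube (by linarith)).1 t3)
    · have mem : y ∈ Set.Icc (0 : Fin n → ℝ) 1 := by
        constructor <;> intro i <;> rcases hy i with e | e <;> simp [e]
      obtain ⟨j, hj⟩ := hp (fun i => 1 - 2 * y i) fun i => by
        rcases hy i with e | e <;> rw [e] <;> norm_num
      refine (c.front hn (by linarith) (a2 mem)).2 ⟨j, le_antisymm ?_
        ((c.mem_img (by linarith) y).1 (a2 mem) j)⟩
      have b1 := c.tr j j
      rw [if_pos rfl, ell] at b1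
      have b2 : ∑ i, W i j * (2 * ((V j i + 1) / 2) - 1) ≤ -∑ i, W i j * (2 * y i - 1) := by
        rw [← sum_neg_distrib]
        refine sum_le_sum fun i _ => (le_abs_self _).trans ?_
        have b3 : |W i j| = -(W i j * (2 * y i - 1)) := by
          have := hj i
          rcases hy i with e | e <;> rw [e] at this ⊢
          · rw [abs_of_nonneg (by linarith)]; ring
          · rw [abs_of_nonpos (by linarith)]; ring
        rw [e, abs_mul, ← b3]
        exact mul_le_of_le_one_right (abs_nonneg _) (h.abs_V j i)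
      rw [ell, e2]
      linarith

end Pool.Agent.Lib.MP_485030_co
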