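import Pool.Agent.Lib.MP_485030_co.LP0
import Pool.Agent.Lib.MP_485030_co.LP1
import Pool.Agent.Lib.MP_485030_co.LP2
import Pool.Agent.Lib.MP_485030_co.LP3
import Pool.Agent.Lib.MP_485030_co.LP4
import Pool.Agent.Lib.MP_485030_co.LP5
import Pool.Agent.Lib.MP_485030_co.LP6
import Pool.Agent.Lib.MP_485030_co.LP7
import Pool.Agent.Lib.MP_485030_co.LP8
import Pool.Agent.Lib.MP_485030_co.LP9
import Pool.Agent.Lib.MP_485030_co.Exp0
import Pool.Agent.Lib.MP_485030_co.Exp1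
import Pool.Agent.Lib.MP_485030_co.Exp2
import Pool.Agent.Lib.MP_485030_co.Exp3
import Pool.Agent.Lib.MP_485030_co.Mask

namespace Pool.Agent.Lib.MP_485030_co

theorem none7 : ¬Rl 7 0 (col (tbl7 3212)) := by
  have hA := lpMod9 (lpMod8 (lpMod7 (lpMod6 (lpMod5 (lpMod4 (lpMod3 (lpMod2 (lpMod1 (lpMod0 (All.zero _ _))))))))))
  have hM := maskMod hA
  have h := (exMod3 hM (exMod2 hM (exMod1 hM (exMod0 hM hA)))) 3212 (by norm_num)
  rwa [show entT (tbl7 3212) = 0 by decide +kernel] at h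

end Pool.Agent.Lib.MP_485030_co
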