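import Pool.Agent.Lib.MP_485030_co.Sound3

/-!
Soundness of the checkers, fourth part: the search tree.
-/

namespace Pool.Agent.Lib.MP_485030_co

open Finset

theorem bit_iff (S x : ℕ) : bit S x = S.testBit x := by
  rw [bit, nbeq, nmod, nshr, Nat.testBit_eq_decide_div_mod_eq]

theorem mem_of_bit {rows : List ℕ} {x : ℕ} (h : bit (setOf' rows) x = true) : x ∈ rows := by
  rw [bit_iff] at h
  induction rows with
  | nil => simp [setOf'] at h
  | cons r rows ih =>
    have e : setOf' (r :: rows) = Nat.shiftLeft 1 r ||| setOf' rows := rfl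
    rw [e, Nat.testBit_or, Bool.or_eq_true, nshl, one_mul, Nat.testBit_two_pow] at h
    rcases h with h | h
    · simp [of_decide_eq_true h]
    · exact List.mem_cons_of_mem _ (ih h)

theorem Rl.extend {m t : ℕ} {c : ℕ → ℕ} {rows : List ℕ} (h : Rl m t c) (ht : t + 1 < m)
    (hr : rowsCheck m rows = true) : ∃ r ∈ rows, Rl m (t + 1) (ext c r) := by
  classical
  obtain ⟨n, V, W, ι, rfl, hs, hι, hM⟩ := h
  obtain ⟨k, -, hk⟩ := exists_mem_notMem_of_card_lt_card (s := (range t).image ι) (t := univ)
    (lt_of_le_of_lt card_image_le (by simp; omega))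
  let f : ℕ → ℕ := fun j => if h : j < n + 1 then
    (if W k ⟨j, h⟩ = 0 then 0 else if V ⟨j, h⟩ k = 1 then 1 else 2) else 0
  obtain ⟨x, hx, hxf⟩ := exists_code (n + 1) f fun j => by
    simp only [f]; split_ifs <;> norm_num
  have hR : Rl (n + 1) (t + 1) (ext c x) := by
    refine ⟨n, V, W, fun i => Nat.casesOn i k ι, rfl, hs, ?_, ?_⟩
    · rintro (_ | i) hi (_ | i') hi' h
      · rfl
      · exact absurd (mem_image.2 ⟨i', mem_range.2 (by omega), h.symm⟩) hk
      · exact absurd (mem_image.2 ⟨i, mem_range.2 (by omega), h⟩) hk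
      · rw [hι i (by omega) i' (by omega) h]
    · rintro (_ | i) hi j
      · rw [dig_ext_zero, hxf j j.2]
        have e : f j = if W k j = 0 then 0 else if V j k = 1 then 1 else 2 := dif_pos j.2
        rw [e]
        split_ifs with h1 h2
        · exact Or.inl ⟨rfl, h1⟩
        · exact Or.inr (Or.inl ⟨rfl, h2⟩)
        · refine Or.inr (Or.inr ⟨rfl, ?_⟩)
          have h3 := (hs.slack j).1 k
          rcases abs_cases (W k j) with ⟨h4, -⟩ | ⟨h4, -⟩
          · exact absurd (mul_right_cancel₀ h1 (by rw [h3, h4, one_mul])) h2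
          · exact mul_right_cancel₀ h1 (h3.trans (by rw [h4, neg_one_mul]))
      · rw [dig_ext_succ]
        exact hM i (by omega) j
  obtain ⟨a, y, F⟩ := hR.facts
  have hv : validRow (n + 1) x = true :=
    F.valid (Nat.succ_pos n) (Nat.succ_pos t) fun j _ => (dig_ext_zero c x j).symm
  rw [rowsCheck, force_eq, allN_iff] at hr
  have h1 := hr x hx
  rw [force_eq, hv] at h1
  simp only [Bool.or_eq_true, Bool.and_eq_true, allN_iff, nbeq, decide_eq_true_eq, Bool.not_true,
    Bool.false_eq_true, or_false] at h1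
  rcases h1 with h1 | ⟨h1, h2⟩
  · exact ⟨x, mem_of_bit h1, hR⟩
  · refine ⟨_, mem_of_bit h1, hR.select id (· = 0) (fun _ hi => hi) (fun i _ k hk => hk.ne) ?_⟩
    rintro (_ | i) _ j hj
    · simp [dig_ext_zero, h2 j hj]
    · simp [dig_ext_succ]

/-- None of the first `n` patterns of the table occurs. -/
def All (m : ℕ) (tbl : ℕ → ℕ) (n : ℕ) : Prop := ∀ k < n, ¬Rl m (entT (tbl k)) (col (tbl k))

theorem All.zero (m : ℕ) (tbl : ℕ → ℕ) : All m tbl 0 := fun _ h => absurd h (Nat.not_lt_zero _)

theorem All.succ {m : ℕ} {tbl : ℕ → ℕ} {n : ℕ} (h : All m tbl n)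
    (h' : ¬Rl m (entT (tbl n)) (col (tbl n))) : All m tbl (n + 1) := fun k hk => by
  rcases Nat.lt_succ_iff_lt_or_eq.1 hk with h1 | rfl
  · exact h k h1
  · exact h'

theorem lpChunk_sound {m : ℕ} {tbl : ℕ → ℕ} (hm : 0 < m) (hI : infoCheck m = true) (L : List ℕ) :
    ∀ a, lpChunk m tbl a L = true → All m tbl a → All m tbl (a + L.length) := by
  induction L with
  | nil => exact fun a _ h => h
  | cons x L ih =>
    intro a h hA
    have e : lpChunk m tbl a (x :: L) = force a fun k => force (tbl k) fun e =>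
      lpCheck m (entT e) e x && lpChunk m tbl (Nat.succ k) L := rfl
    rw [e, force_eq, force_eq, Bool.and_eq_true] at h
    have := ih _ h.2 (hA.succ (lpCheck_sound hm hI h.1))
    rwa [Nat.succ_eq_add_one, add_assoc, add_comm 1] at this

theorem BT.mem_toList {x : ℕ} {T : BT} (h : T.mem x = true) : x ∈ T.toList := by
  induction T with
  | leaf => exact absurd h (by simp [BT.mem])
  | node l k r ihl ihr =>
    have e : (BT.node l k r).mem x =
      bif Nat.ble x k then (Nat.beq x k || l.mem x) else r.mem x := rfl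
    have e' : (BT.node l k r).toList = k :: (l.toList ++ r.toList) := rfl
    rw [e] at h
    rw [e', List.mem_cons, List.mem_append]
    cases e2 : Nat.ble x k <;> rw [e2] at h
    · exact Or.inr (Or.inr (ihr h))
    · rcases Bool.or_eq_true_iff.1 h with h | h
      · exact Or.inl (Nat.eq_of_beq_eq_true h)
      · exact Or.inr (Or.inl (ihl h))

theorem keyCheck_sound {m : ℕ} {tbl : ℕ → ℕ} {bound : ℕ} (hm : m ≤ 7) (hA : All m tbl bound)
    (keys : List ℕ) : ∀ L, keyCheck m tbl bound keys L = true →
      ∀ c, mcode m c ∈ keys → ¬Rl m 2 c := by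
  induction keys with
  | nil => intro _ _ _ h; simp at h
  | cons key keys ih =>
    intro L h c hc hR
    have e : keyCheck m tbl bound (key :: keys) L = force (L.headD 0) fun x =>
      force (Nat.mod x 4096) fun k => force (Nat.mod (Nat.shiftRight x 12) 1048576) fun sel =>
      force (tbl k) fun e => force (Nat.shiftRight x 32) fun p =>
        (Nat.blt k bound && (isoCheck m 2 (col p) sel e && Nat.beq (mcode m (col p)) key)) &&
          keyCheck m tbl bound keys L.tail := rfl
    rw [e, force_eq, force_eq, force_eq, force_eq, force_eq, Bool.and_eq_true, Bool.and_eq_true,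
      Bool.and_eq_true, Nat.blt_eq] at h
    obtain ⟨⟨h1, h2, h3⟩, h4⟩ := h
    rcases List.mem_cons.1 hc with h5 | h5
    · obtain ⟨σ, hσ⟩ := exists_perm_of_mcode hm (h5.trans (Nat.eq_of_beq_eq_true h3).symm)
      exact hA _ h1 (isoCheck_sound hm h2 (hR.perm σ hσ))
    · exact ih _ h4 c h5 hR

theorem maskCheck_sound {m : ℕ} {T : BT} (hT : ∀ c, mcode m c ∈ T.toList → ¬Rl m 2 c) (ρ : ℕ)
    (rows : List ℕ) : ∀ x, maskCheck m T rows ρ x = true → ∀ (i : ℕ) (hi : i < rows.length),
      x.testBit i = true → ¬Rl m 2 (ext (dig ρ) rows[i]) := by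
  induction rows with
  | nil => intro _ _ _ h; simp at h
  | cons r rows ih =>
    intro x h i hi hx
    have e : maskCheck m T (r :: rows) ρ x = force (Nat.shiftRight x 1) fun x' =>
      (bif Nat.beq (Nat.mod x 2) 0 then true
        else force (mcode m (ext (dig ρ) r)) fun k => T.mem k) && maskCheck m T rows ρ x' := rfl
    rw [e, force_eq, force_eq, Bool.and_eq_true, nbeq, Bool.cond_decide, nmod, nshr, pow_one] at h
    cases i with
    | zero =>
      rw [Nat.testBit_zero, decide_eq_true_eq] at hx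
      rw [if_neg (by omega)] at h
      exact hT _ (BT.mem_toList h.1)
    | succ i =>
      rw [Nat.testBit_succ] at hx
      exact ih _ h.2 i (by simpa using hi) hx

/-- The first `n` masks mark only rows that are incompatible with the row of the mask. -/
def MaskOK (m : ℕ) (rows : List ℕ) (mt : ℕ → ℕ) (n : ℕ) : Prop :=
  ∀ k < n, ∀ (i : ℕ) (hi : i < rows.length), (Nat.shiftRight (mt k) 14).testBit i = true →
    ¬Rl m 2 (ext (dig (Nat.mod (mt k) 16384)) rows[i])

theorem MaskOK.zero (m : ℕ) (rows : List ℕ) (mt : ℕ → ℕ) : MaskOK m rows mt 0 :=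
  fun _ h => absurd h (Nat.not_lt_zero _)

theorem maskChunk_sound {m : ℕ} {T : BT} (hT : ∀ c, mcode m c ∈ T.toList → ¬Rl m 2 c)
    {rows : List ℕ} {mt : ℕ → ℕ} {a n : ℕ} (h : maskChunk m T rows mt a n = true)
    (ha : MaskOK m rows mt a) : MaskOK m rows mt (a + n) := by
  intro k hk
  by_cases hka : k < a
  · exact ha k hka
  · rw [maskChunk, allN_iff] at h
    have := h (k - a) (by omega)
    rw [force_eq, force_eq, nadd, show a + (k - a) = k by omega] at this
    exact maskCheck_sound hT _ rows _ this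

theorem scan_sound {m : ℕ} {tbl : ℕ → ℕ} {bound t : ℕ} {c : ℕ → ℕ} (hm : m ≤ 7)
    (hA : All m tbl bound) (rows : List ℕ) : ∀ y x, scan m rows tbl bound t c y x = true →
      ∀ (i : ℕ) (hi : i < rows.length), y.testBit i = true ∨ ¬Rl m (t + 1) (ext c rows[i]) := by
  induction rows with
  | nil => intro _ _ _ _ h; simp at h
  | cons r rows ih =>
    intro y x h i hi
    have e : scan m (r :: rows) tbl bound t c y x = force (Nat.shiftRight y 1) fun y' =>
      bif Nat.beq (Nat.mod y 2) 1 then scan m rows tbl bound t c y' x else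
      force (Nat.mod x 4096) fun k => force (Nat.mod (Nat.shiftRight x 12) 1048576) fun sel =>
      force (tbl k) fun e => force (Nat.shiftRight x 32) fun x' =>
        Nat.blt k bound && (isoCheck m (Nat.succ t) (ext c r) sel e &&
          scan m rows tbl bound t c y' x') := rfl
    rw [e, force_eq, nbeq, Bool.cond_decide, nmod, nshr, pow_one] at h
    by_cases hy : y % 2 = 1
    · rw [if_pos hy] at h
      cases i with
      | zero => left; rw [Nat.testBit_zero, decide_eq_true_eq]; exact hy
      | succ i => rw [Nat.testBit_succ]; exact ih _ _ h i (by simpa using hi)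
    · rw [if_neg hy, force_eq, force_eq, force_eq, force_eq, Bool.and_eq_true, Bool.and_eq_true,
        Nat.blt_eq] at h
      cases i with
      | zero => exact Or.inr fun hR => hA _ h.1 (isoCheck_sound hm h.2.1 hR)
      | succ i => rw [Nat.testBit_succ]; exact ih _ _ h.2.2 i (by simpa using hi)

theorem testBit_orN {n : ℕ} {f : ℕ → ℕ} {i : ℕ} (h : (orN n f).testBit i = true) :
    ∃ k < n, (f k).testBit i = true := by
  induction n with
  | zero => simp [orN] at h
  | succ n ih =>
    have e : orN (n + 1) f = f n ||| orN n f := rfl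
    rw [e, Nat.testBit_or, Bool.or_eq_true] at h
    rcases h with h | h
    · exact ⟨n, Nat.lt_succ_self n, h⟩
    · obtain ⟨k, hk, h⟩ := ih h
      exact ⟨k, by omega, h⟩

theorem expandCheck_sound {m : ℕ} {rows : List ℕ} {tbl mt : ℕ → ℕ} {nm bound t e x : ℕ}
    (hm : m ≤ 7) (hr : rowsCheck m rows = true) (hM : MaskOK m rows mt nm) (hA : All m tbl bound)
    (ht : t + 1 < m) (h : expandCheck m rows tbl mt nm bound t e x = true) :
    ¬Rl m t (col e) := by
  intro hR
  obtain ⟨r, hr, hR⟩ := hR.extend ht hr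
  obtain ⟨i, hi, rfl⟩ := List.getElem_of_mem hr
  rw [expandCheck, force_eq, force_eq, Bool.and_eq_true, allN_iff] at h
  obtain ⟨k, hk, h1⟩ := testBit_orN ((scan_sound hm hA rows _ _ h.2 i hi).resolve_right
    (not_not.2 hR))
  have h2 := h.1 k hk
  rw [force_eq, force_eq, Bool.and_eq_true, Nat.blt_eq, allN_iff] at h2
  refine hM _ h2.1 i hi h1 (hR.select (fun i => if i = 0 then 0 else k + 1) (fun _ => False)
    (fun i _ => by split_ifs <;> omega) (fun i hi k' hk' => by split_ifs <;> omega) ?_)
  intro i' hi' j hj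
  rw [if_neg not_false]
  interval_cases i'
  · rw [if_pos rfl, dig_ext_zero, dig_ext_zero]
  · rw [if_neg one_ne_zero, dig_ext_succ, dig_ext_succ, dig_dig,
      Nat.eq_of_beq_eq_true (h2.2 j hj)]

theorem expChunk_sound {m : ℕ} {rows : List ℕ} {tbl mt : ℕ → ℕ} {nm bound : ℕ}
    (hm : m ≤ 7) (hr : rowsCheck m rows = true) (hM : MaskOK m rows mt nm) (L : List ℕ) :
    ∀ a, expChunk m rows tbl mt nm bound a L = true → bound ≤ a → All m tbl a →
      All m tbl (a + L.length) := by
  induction L with
  | nil => exact fun a _ _ h => h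
  | cons x L ih =>
    intro a h hb hA
    have e : expChunk m rows tbl mt nm bound a (x :: L) =
      force a fun k => force (tbl k) fun e => force (entT e) fun t =>
      (Nat.blt (Nat.succ t) m && expandCheck m rows tbl mt nm bound t e x) &&
        expChunk m rows tbl mt nm bound (Nat.succ k) L := rfl
    rw [e, force_eq, force_eq, force_eq, Bool.and_eq_true, Bool.and_eq_true, Nat.blt_eq] at h
    have := ih _ h.2 (Nat.le_succ_of_le hb) (hA.succ (expandCheck_sound hm hr hM
      (fun k hk => hA k (by omega)) h.1.1 h.1.2))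
    rwa [Nat.succ_eq_add_one, add_assoc, add_comm 1] at this

theorem lpStep {m : ℕ} {tbl : ℕ → ℕ} (hm : 0 < m) (hI : infoCheck m = true) (a b : ℕ)
    (L : List ℕ) (h : (lpChunk m tbl a L && Nat.beq (a + L.length) b) = true)
    (hA : All m tbl a) : All m tbl b := by
  rw [Bool.and_eq_true] at h
  rw [← Nat.eq_of_beq_eq_true h.2]
  exact lpChunk_sound hm hI L a h.1 hA

theorem expStep {m : ℕ} {rows : List ℕ} {tbl mt : ℕ → ℕ} {nm : ℕ} (hm : m ≤ 7)
    (hr : rowsCheck m rows = true) (hM : MaskOK m rows mt nm) (bound a b : ℕ) (L : List ℕ)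
    (h : (expChunk m rows tbl mt nm bound a L &&
      (Nat.ble bound a && Nat.beq (a + L.length) b)) = true) (hA : All m tbl a) :
    All m tbl b := by
  rw [Bool.and_eq_true, Bool.and_eq_true] at h
  rw [← Nat.eq_of_beq_eq_true h.2.2]
  exact expChunk_sound hm hr hM L a h.1 (Nat.le_of_ble_eq_true h.2.1) hA

theorem not_isSys {n : ℕ} (hn : 0 < n) {c : ℕ → ℕ} (h : ¬Rl (n + 1) 0 c)
    (V : Fin (n + 1) → Fin n → ℝ) (W : Fin n → Fin (n + 1) → ℝ) :
    ¬IsSys (fun _ => (1 : ℝ) / (n + 1)) V W := fun hs =>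
  h ⟨n, V, W, fun _ => ⟨0, hn⟩, rfl, by simpa using hs, by simp, by simp⟩

end Pool.Agent.Lib.MP_485030_co
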