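import Pool.Agent.Lib.MP_485030_co.Data
import Pool.Agent.Lib.MP_485030_co.Sound4

set_option maxRecDepth 100000

namespace Pool.Agent.Lib.MP_485030_co

theorem info5 : infoCheck 5 = true := by decide +kernel

theorem info7 : infoCheck 7 = true := by decide +kernel

theorem ex3_0 (hM : MaskOK 3 rows3 mt3 0) : All 3 tbl3 0 → All 3 tbl3 1 :=
  expStep (by norm_num) rowsOK3 hM 0 0 1 [0] (by decide +kernel)

theorem none3 : ¬Rl 3 0 (col 0) :=
  ex3_0 (MaskOK.zero _ _ _) (All.zero _ _) 0 (by norm_num)

theorem lp5_0 : All 5 tbl5 0 → All 5 tbl5 9 :=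
  lpStep (by norm_num) info5 0 9 [0x165c021,
  0x109e021,
  0x832a07102a062,
  0x165c021,
  0x165c021,
  0x165c021,
  0x165c021,
  0x10ec021,
  0x10cd01d00e061] (by decide +kernel)

theorem mk5_0 : maskChunk 5 tree5 rows5 mt5 0 4 = true := by decide +kernel

theorem ex5_9 (hM : MaskOK 5 rows5 mt5 4) : All 5 tbl5 9 → All 5 tbl5 11 :=
  expStep (by norm_num) rowsOK5 hM 9 9 11 [0x200,
  0x84001000000000602] (by decide +kernel)

theorem ex5_11 (hM : MaskOK 5 rows5 mt5 4) : All 5 tbl5 11 → All 5 tbl5 13 :=
  expStep (by norm_num) rowsOK5 hM 11 11 13 [0x40012000400120004001200000000001,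
  0x400140004001400000000003] (by decide +kernel)

theorem ex5_13 (hM : MaskOK 5 rows5 mt5 4) : All 5 tbl5 13 → All 5 tbl5 14 :=
  expStep (by norm_num) rowsOK5 hM 13 13 14 [0x1800000018000000180000001800000018000000180000001600000018000000180000001600000016000000160000001800000018000000180000001800000018000000180000001600000016000000160000001800000016000000160000001600000000000] (by decide +kernel)

theorem none5 : ¬Rl 5 0 (col (tbl5 13)) := by
  have hA := lp5_0 (All.zero _ _)
  have hM := maskChunk_sound (keyCheck_sound (by norm_num) hA _ _ keysOK5) mk5_0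
    (MaskOK.zero _ _ _)
  have h := (ex5_13 hM (ex5_11 hM (ex5_9 hM hA))) 13 (by norm_num)
  rwa [show entT (tbl5 13) = 0 by decide +kernel] at h

end Pool.Agent.Lib.MP_485030_co
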