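import Pool.Agent.Lib.MP_485030_co.Checker
import Pool.Agent.Lib.MP_485030_co.Exist

/-!
Soundness of the checkers, first part: patterns realised by a system and their symmetries.
-/

namespace Pool.Agent.Lib.MP_485030_co

open Finset

theorem nadd (a b : ℕ) : Nat.add a b = a + b := rfl
theorem nmul (a b : ℕ) : Nat.mul a b = a * b := rfl
theorem nsub (a b : ℕ) : Nat.sub a b = a - b := rfl
theorem nmod (a b : ℕ) : Nat.mod a b = a % b := rfl
theorem nshr (a b : ℕ) : Nat.shiftRight a b = a / 2 ^ b := Nat.shiftRight_eq_div_pow a b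
theorem nshl (a b : ℕ) : Nat.shiftLeft a b = a * 2 ^ b := Nat.shiftLeft_eq a b
theorem nbeq (a b : ℕ) : Nat.beq a b = decide (a = b) := by
  by_cases h : a = b
  · simp [h]
  · simp [h, Bool.eq_false_iff]

theorem force_eq {β : Type} (x : ℕ) (k : ℕ → β) : force x k = k x := by cases x <;> rfl

theorem sumN_eq (n : ℕ) (f : ℕ → ℕ) : sumN n f = ∑ k ∈ range n, f k := by
  induction n with
  | zero => rfl
  | succ n ih => rw [sum_range_succ, ← ih, Nat.add_comm (sumN n f)]; rfl

theorem allN_iff (n : ℕ) (f : ℕ → Bool) : allN n f = true ↔ ∀ k < n, f k = true := by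
  induction n with
  | zero => simp [allN]
  | succ n ih =>
    have : allN (n + 1) f = (f n && allN n f) := rfl
    rw [this, Bool.and_eq_true, ih]
    constructor
    · rintro ⟨h1, h2⟩ k hk
      rcases Nat.lt_succ_iff_lt_or_eq.1 hk with h | rfl
      · exact h2 k h
      · exact h1
    · exact fun h => ⟨h n (Nat.lt_succ_self n), fun k hk => h k (Nat.lt_succ_of_lt hk)⟩

theorem dig_eq (x i : ℕ) : dig x i = x / 4 ^ i % 4 := by
  simp only [dig, nmod, nshr, nmul, pow_mul]; norm_num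

theorem dig_lt (x i : ℕ) : dig x i < 4 := by rw [dig_eq]; omega

theorem dig_zero_add {a : ℕ} (ha : a < 4) (b : ℕ) : dig (a + 4 * b) 0 = a := by
  rw [dig_eq]; simp; omega

theorem dig_succ_add {a : ℕ} (ha : a < 4) (b i : ℕ) : dig (a + 4 * b) (i + 1) = dig b i := by
  rw [dig_eq, dig_eq, pow_succ', ← Nat.div_div_eq_div_mul]
  congr 2
  omega

theorem dig_ext_zero (c : ℕ → ℕ) (r j : ℕ) : dig (ext c r j) 0 = dig r j :=
  dig_zero_add (dig_lt r j) _

theorem dig_ext_succ (c : ℕ → ℕ) (r j i : ℕ) : dig (ext c r j) (i + 1) = dig (c j) i :=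
  dig_succ_add (dig_lt r j) _ _

theorem dig_dig (x j : ℕ) : dig (dig x j) 0 = dig x j := by
  simpa using dig_zero_add (dig_lt x j) 0

theorem dg_eq (e i j : ℕ) (hi : i < 6) : dg e i j = dig (col e j) i := by
  simp only [dg, dig, col, nmod, nshr, nmul, nadd, pow_add, ← Nat.div_div_eq_div_mul]
  generalize e / 2 ^ (12 * j) = x
  interval_cases i <;> omega

theorem flipd_eq (d : ℕ) : flipd d = if d = 1 then 2 else if d = 2 then 1 else 0 := by
  by_cases h1 : d = 1 <;> by_cases h2 : d = 2 <;> simp [flipd, nbeq, h1, h2]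

theorem flipd_lt (d : ℕ) : flipd d < 4 := by rw [flipd_eq]; split_ifs <;> omega

theorem exists_code (m : ℕ) : ∀ f : ℕ → ℕ, (∀ j, f j < 4) →
    ∃ x < 4 ^ m, ∀ j < m, dig x j = f j := by
  induction m with
  | zero => exact fun f _ => ⟨0, by simp, by simp⟩
  | succ m ih =>
    intro f hf
    obtain ⟨x, hx, h⟩ := ih (fun j => f (j + 1)) (fun j => hf _)
    refine ⟨f 0 + 4 * x, by have := hf 0; rw [pow_succ]; omega, fun j hj => ?_⟩
    cases j with
    | zero => exact dig_zero_add (hf 0) x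
    | succ j => rw [dig_succ_add (hf 0), h j (by omega)]

theorem digits_unique (K : ℕ) : ∀ f g : ℕ → ℕ, (∀ x, f x < 8) → (∀ x, g x < 8) →
    ∑ x ∈ range K, f x * 8 ^ x = ∑ x ∈ range K, g x * 8 ^ x → ∀ x < K, f x = g x := by
  induction K with
  | zero => simp
  | succ K ih =>
    intro f g hf hg h x hx
    simp only [sum_range_succ', pow_succ, ← mul_assoc, ← sum_mul, pow_zero, mul_one] at h
    have h0 := hf 0
    have h1 := hg 0
    cases x with
    | zero => omega
    | succ x =>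
      exact ih (fun x => f (x + 1)) (fun x => g (x + 1)) (fun x => hf _) (fun x => hg _)
        (by omega) x (by omega)

theorem exists_perm_of_mcode {m : ℕ} (hm : m ≤ 7) {c c' : ℕ → ℕ} (h : mcode m c = mcode m c') :
    ∃ σ : Equiv.Perm (Fin m), ∀ j : Fin m, c' j = c (σ j) := by
  obtain ⟨K, hK⟩ : ∃ K, ∀ j : Fin m, c j < K ∧ c' j < K := by
    refine ⟨(∑ j : Fin m, (c j + c' j)) + 1, fun j => ?_⟩
    have := single_le_sum (f := fun j : Fin m => c j + c' j) (fun _ _ => Nat.zero_le _) (mem_univ j)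
    omega
  have key : ∀ f : ℕ → ℕ, (∀ j : Fin m, f j < K) → mcode m f =
      ∑ x ∈ range K, (univ.filter fun j : Fin m => f j = x).card * 8 ^ x := by
    intro f hf
    rw [mcode, sumN_eq, ← Fin.sum_univ_eq_sum_range (fun j => Nat.shiftLeft 1 (Nat.mul 3 (f j))),
      ← sum_fiberwise_of_maps_to (g := fun j : Fin m => f j) (t := range K)
        (fun j _ => mem_range.2 (hf j))]
    refine sum_congr rfl fun x _ => ?_
    rw [sum_congr rfl (g := fun _ => 8 ^ x) fun j hj => by
      rw [(mem_filter.1 hj).2, nshl, nmul, pow_mul]; norm_num]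
    simp
  have hlt : ∀ (f : ℕ → ℕ) x, (univ.filter fun j : Fin m => f j = x).card < 8 := fun f x =>
    lt_of_le_of_lt (card_filter_le _ _) (by simp; omega)
  rw [key c fun j => (hK j).1, key c' fun j => (hK j).2] at h
  have h2 := digits_unique K _ _ (hlt c) (hlt c') h
  have h3 : ∀ x, Fintype.card {j : Fin m // c' j = x} = Fintype.card {j : Fin m // c j = x} := by
    intro x
    rw [Fintype.card_subtype, Fintype.card_subtype]
    by_cases hx : x < K
    · exact (h2 x hx).symm
    · rw [filter_eq_empty_iff.2, filter_eq_empty_iff.2]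
      · intro j _ hj; have := (hK j).1; omega
      · intro j _ hj; have := (hK j).2; omega
  exact ⟨Equiv.ofFiberEquiv fun x => Fintype.equivOfCardEq (h3 x), fun j =>
    (Equiv.ofFiberEquiv_map (fun x => Fintype.equivOfCardEq (h3 x)) j).symm⟩

/-- The digit `d` describes the entry `v` of a point and the dual entry `w`. -/
def Match (d : ℕ) (v w : ℝ) : Prop := (d = 0 ∧ w = 0) ∨ (d = 1 ∧ v = 1) ∨ (d = 2 ∧ v = -1)

/-- The pattern with `t` rows and columns `c j` occurs in a uniform system with `m` points. -/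
def Rl (m t : ℕ) (c : ℕ → ℕ) : Prop :=
  ∃ (n : ℕ) (V : Fin m → Fin n → ℝ) (W : Fin n → Fin m → ℝ) (ι : ℕ → Fin n), n + 1 = m ∧
    IsSys (fun _ => (1 : ℝ) / m) V W ∧ (∀ i < t, ∀ k < t, ι i = ι k → i = k) ∧
    ∀ i < t, ∀ j : Fin m, Match (dig (c j) i) (V j (ι i)) (W (ι i) j)

theorem IsSys.perm {m n : ℕ} {q : ℝ} {V : Fin m → Fin n → ℝ} {W : Fin n → Fin m → ℝ}
    (h : IsSys (fun _ => q) V W) (σ : Equiv.Perm (Fin m)) :
    IsSys (fun _ => q) (fun j => V (σ j)) (fun i j => W i (σ j)) where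
  sum_p := h.sum_p
  abs_V _ _ := h.abs_V _ _
  sum_W i := (Equiv.sum_comp σ (W i)).trans (h.sum_W _)
  sum_V i := (Equiv.sum_comp σ fun j => q * V j i).trans (h.sum_V _)
  dual i k := (Equiv.sum_comp σ fun j => W i j * V j k).trans (h.dual i k)
  col _ := h.col _

theorem IsSys.sign {m n : ℕ} {q : ℝ} {V : Fin m → Fin n → ℝ} {W : Fin n → Fin m → ℝ}
    (h : IsSys (fun _ => q) V W) (ε : Fin n → ℝ) (hε : ∀ k, ε k = 1 ∨ ε k = -1) :
    IsSys (fun _ => q) (fun j k => ε k * V j k) (fun k j => ε k * W k j) := by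
  have h1 : ∀ k, |ε k| = 1 := fun k => by rcases hε k with h | h <;> simp [h]
  have h2 : ∀ k, ε k * ε k = 1 := fun k => by rcases hε k with h | h <;> simp [h]
  refine ⟨h.sum_p, fun j i => ?_, fun i => ?_, fun i => ?_, fun i k => ?_, fun j => ?_⟩
  · rw [abs_mul, h1, one_mul]; exact h.abs_V _ _
  · rw [← mul_sum, h.sum_W, mul_zero]
  · simp only [mul_left_comm q, ← mul_sum, h.sum_V, mul_zero]
  · have : ∀ j, ε i * W i j * (ε k * V j k) = ε i * ε k * (W i j * V j k) := fun j => by ring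
    simp only [this, ← mul_sum, h.dual]
    split_ifs with hik
    · rw [hik, h2, mul_one]
    · rw [mul_zero]
  · simp only [abs_mul, h1, one_mul]; exact h.col j

theorem Rl.perm {m t : ℕ} {c c' : ℕ → ℕ} (h : Rl m t c) (σ : Equiv.Perm (Fin m))
    (hσ : ∀ j : Fin m, c' j = c (σ j)) : Rl m t c' := by
  obtain ⟨n, V, W, ι, hn, hs, hι, hM⟩ := h
  exact ⟨n, _, _, ι, hn, hs.perm σ, hι, fun i hi j => by rw [hσ]; exact hM i hi (σ j)⟩

theorem Rl.select {m t t' : ℕ} {c c' : ℕ → ℕ} (h : Rl m t c) (idx : ℕ → ℕ) (neg : ℕ → Prop)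
    [DecidablePred neg] (h1 : ∀ i < t', idx i < t) (h2 : ∀ i < t', ∀ k < i, idx k ≠ idx i)
    (h3 : ∀ i < t', ∀ j < m, dig (c' j) i =
      if neg i then flipd (dig (c j) (idx i)) else dig (c j) (idx i)) : Rl m t' c' := by
  classical
  obtain ⟨n, V, W, ι, hn, hs, hι, hM⟩ := h
  have hinj : ∀ i < t', ∀ k < t', ι (idx i) = ι (idx k) → i = k := by
    intro i hi k hk hik
    have := hι _ (h1 i hi) _ (h1 k hk) hik
    rcases lt_trichotomy i k with h | h | h
    · exact absurd this (h2 k hk i h)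
    · exact h
    · exact absurd this.symm (h2 i hi k h)
  let ε : Fin n → ℝ := fun k => if ∃ i < t', neg i ∧ ι (idx i) = k then -1 else 1
  have hε : ∀ k, ε k = 1 ∨ ε k = -1 := fun k => by
    simp only [ε]; split_ifs <;> simp
  refine ⟨n, _, _, fun i => ι (idx i), hn, hs.sign ε hε, hinj, fun i hi j => ?_⟩
  have hm := hM _ (h1 i hi) j
  rw [h3 i hi j j.2]
  by_cases hneg : neg i
  · have : ε (ι (idx i)) = -1 := if_pos ⟨i, hi, hneg, rfl⟩
    simp only [if_pos hneg, this, flipd_eq]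
    rcases hm with ⟨h, h'⟩ | ⟨h, h'⟩ | ⟨h, h'⟩ <;> simp [Match, h, h']
  · have : ε (ι (idx i)) = 1 := if_neg (by
      rintro ⟨k, hk, hk1, hk2⟩
      exact hneg (hinj k hk i hi hk2 ▸ hk1))
    simpa only [if_neg hneg, this, one_mul] using hm

theorem dig_phi (t' : ℕ) : ∀ sel x i, i < t' → dig (phi t' sel x) i =
    if sel / 16 ^ i % 2 = 1 then flipd (dig x (selIdx sel i)) else dig x (selIdx sel i) := by
  induction t' with
  | zero => intro _ _ _ h; omega
  | succ t' ih =>
    intro sel x i hi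
    have e : phi (t' + 1) sel x = (bif Nat.beq (sel % 2) 0 then Nat.shiftRight x (sel % 16) % 4
        else flipd (Nat.shiftRight x (Nat.pred (sel % 16)) % 4)) +
        4 * phi t' (Nat.shiftRight sel 4) x := rfl
    have hlt : (bif Nat.beq (sel % 2) 0 then Nat.shiftRight x (sel % 16) % 4
        else flipd (Nat.shiftRight x (Nat.pred (sel % 16)) % 4)) < 4 := by
      cases Nat.beq (sel % 2) 0
      · exact flipd_lt _
      · exact Nat.mod_lt _ (by norm_num)
    rw [e]
    cases i with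
    | zero =>
      rw [dig_zero_add hlt]
      simp only [nbeq, selIdx, dig, nmod, nmul, nshr, pow_zero, Nat.div_one, mul_zero,
        Nat.succ_eq_add_one, zero_add, pow_one, Nat.pred_eq_sub_one]
      by_cases h : sel % 2 = 1
      · have h1 : sel % 16 - 1 = 2 * (sel / 2 % 8) := by omega
        simp [h, h1]
      · have h0 : sel % 2 = 0 := by omega
        have h1 : sel % 16 = 2 * (sel / 2 % 8) := by omega
        simp [h0, h1]
    | succ i =>
      rw [dig_succ_add hlt, ih _ _ _ (by omega)]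
      have h1 : selIdx (Nat.shiftRight sel 4) i = selIdx sel (i + 1) := by
        simp only [selIdx, nmod, nmul, nshr, Nat.div_div_eq_div_mul, ← pow_add]
        congr 3
        simp only [Nat.succ_eq_add_one]
        ring
      have h2 : Nat.shiftRight sel 4 / 16 ^ i = sel / 16 ^ (i + 1) := by
        rw [nshr, Nat.div_div_eq_div_mul, pow_succ' 16 i]; rfl
      rw [h1, h2]

theorem isoCheck_sound {m t : ℕ} (hm : m ≤ 7) {c : ℕ → ℕ} {sel e : ℕ}
    (h : isoCheck m t c sel e = true) (hR : Rl m t c) : Rl m (entT e) (col e) := by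
  simp only [isoCheck, force_eq, Bool.and_eq_true, allN_iff, Nat.blt_eq, nbeq,
    Bool.not_eq_eq_eq_not, Bool.not_true, decide_eq_false_iff_not, decide_eq_true_eq] at h
  obtain ⟨h1, h2⟩ := h
  obtain ⟨σ, hσ⟩ := exists_perm_of_mcode hm h2
  refine Rl.perm (c := fun j => phi (entT e) sel (c j)) ?_ σ hσ
  exact hR.select (selIdx sel) (fun i => sel / 16 ^ i % 2 = 1) (fun i hi => (h1 i hi).1)
    (fun i hi => (h1 i hi).2) fun i hi j _ => dig_phi _ _ _ _ hi

end Pool.Agent.Lib.MP_485030_co
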