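import Pool.Agent.Lib.MP_485030_co.Sound1

/-!
Soundness of the checkers, second part: the relations satisfied by the rows of a pattern.
-/

namespace Pool.Agent.Lib.MP_485030_co

open Finset

theorem IsSys.vw {n : ℕ} {V : Fin (n + 1) → Fin n → ℝ} {W : Fin n → Fin (n + 1) → ℝ} {q : ℝ}
    (h : IsSys (fun _ => q) V W) (j l : Fin (n + 1)) :
    q + ∑ i, V j i * W i l = if j = l then 1 else 0 := by
  let M : Matrix (Fin (n + 1)) (Fin (n + 1)) ℝ := fun j => Fin.cons 1 (V j)
  let N : Matrix (Fin (n + 1)) (Fin (n + 1)) ℝ := Fin.cons (fun _ => q) W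
  have hNM : N * M = 1 := by
    ext a b
    refine Fin.cases ?_ (fun a => ?_) a <;> refine Fin.cases ?_ (fun b => ?_) b
    · simpa [M, N, Matrix.mul_apply] using h.sum_p
    · simpa [M, N, Matrix.mul_apply, Matrix.one_apply, (Fin.succ_ne_zero b).symm] using h.sum_V b
    · simp [M, N, Matrix.mul_apply, h.sum_W]
    · simp [M, N, Matrix.mul_apply, h.dual, Matrix.one_apply]
  have hMN : M * N = 1 := mul_eq_one_comm.1 hNM
  simpa [M, N, Matrix.mul_apply, Fin.sum_univ_succ, Matrix.one_apply] using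
    congrFun (congrFun hMN j) l

theorem IsSys.slack {n : ℕ} {V : Fin (n + 1) → Fin n → ℝ} {W : Fin n → Fin (n + 1) → ℝ} {q : ℝ}
    (h : IsSys (fun _ => q) V W) (l : Fin (n + 1)) :
    (∀ i, V l i * W i l = |W i l|) ∧ ∑ i, |W i l| = 1 - q := by
  have h1 := h.vw l l
  rw [if_pos rfl] at h1
  have h2 : ∀ i ∈ univ, V l i * W i l ≤ |W i l| := fun i _ => by
    refine (le_abs_self _).trans ?_
    rw [abs_mul]
    exact mul_le_of_le_one_left (abs_nonneg _) (h.abs_V l i)
  have h3 := sum_le_sum h2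
  have h4 := h.col l
  have h5 : ∑ i, V l i * W i l = ∑ i, |W i l| := by linarith
  exact ⟨fun i => (sum_eq_sum_iff_of_le h2).1 h5 i (mem_univ i), by linarith⟩

/-- The sign attached to a digit. -/
noncomputable def sg (e : ℕ) : ℝ := if e = 1 then 1 else if e = 2 then -1 else 0

/-- Relations between the scaled dual weights `a` and the scaled coordinates `y`. -/
structure Facts (m t : ℕ) (d : ℕ → ℕ → ℕ) (a y : ℕ → ℕ → ℝ) : Prop where
  dle : ∀ i < t, ∀ j < m, d i j = 0 ∨ d i j = 1 ∨ d i j = 2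
  a0 : ∀ i < t, ∀ l < m, 0 ≤ a i l
  az : ∀ i < t, ∀ l < m, d i l = 0 → a i l = 0
  ys : ∀ i < t, ∀ j < m, d i j ≠ 0 → y i j = m * sg (d i j)
  yb : ∀ i < t, ∀ j < m, |y i j| ≤ m
  e1 : ∀ i < t, ∑ l ∈ range m, (if d i l = 1 then a i l else 0) = m ∧
    ∑ l ∈ range m, (if d i l = 2 then a i l else 0) = m
  e2 : ∀ i < t, ∑ j ∈ range m, y i j = 0
  e3 : ∀ i < t, ∀ k < t, i ≠ k → ∑ l ∈ range m, sg (d i l) * a i l * y k l = 0
  i1 : ∀ l < m, ∀ j < m, l ≠ j →
    ∑ i ∈ range t, a i l * (m + sg (d i l) * y i j) ≤ 2 * m * (m - 2)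
  i2 : ∀ l < m, ∀ j < m, l ≠ j →
    ∑ i ∈ range t, a i l * (m - sg (d i l) * y i j) ≤ 2 * m * m

theorem sum_range_fin {m : ℕ} (f : ℕ → ℝ) (g : Fin m → ℝ) (h : ∀ j : Fin m, f j = g j) :
    ∑ j ∈ range m, f j = ∑ j, g j := by
  rw [← Fin.sum_univ_eq_sum_range]
  exact sum_congr rfl fun j _ => h j

theorem Rl.facts {m t : ℕ} {c : ℕ → ℕ} (h : Rl m t c) :
    ∃ a y, Facts m t (fun i j => dig (c j) i) a y := by
  obtain ⟨n, V, W, ι, rfl, hs, hι, hM⟩ := h
  set M : ℝ := ((n + 1 : ℕ) : ℝ) with hMdef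
  have hM0 : 0 < M := by positivity
  have hsl := fun l => (hs.slack l).1
  have hcol := fun l => (hs.slack l).2
  have hW : ∀ i < t, ∀ l : Fin (n + 1), W (ι i) l = sg (dig (c l) i) * |W (ι i) l| := by
    intro i hi l
    have := hsl l (ι i)
    rcases hM i hi l with ⟨h, h'⟩ | ⟨h, h'⟩ | ⟨h, h'⟩ <;> rw [h] <;> simp only [sg] <;> norm_num
    · exact h'
    · rw [← this, h', one_mul]
    · rw [← this, h']; ring
  have hle : ∀ (f : Fin n → ℝ), (∀ k, 0 ≤ f k) → ∑ i ∈ range t, f (ι i) ≤ ∑ k, f k := by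
    intro f hf
    rw [← sum_image (s := range t) (g := ι) (f := f)
      fun i hi k hk => hι i (mem_range.1 hi) k (mem_range.1 hk)]
    exact sum_le_univ_sum_of_nonneg hf
  have hV : ∀ k, ∑ j, V j k = 0 := by
    intro k
    have := hs.sum_V k
    rw [← mul_sum] at this
    exact (mul_eq_zero.1 this).resolve_left (by positivity)
  have hnn : ∀ k l j, 0 ≤ |W k l| + W k l * V j k ∧ 0 ≤ |W k l| - W k l * V j k := by
    intro k l j
    have : |W k l * V j k| ≤ |W k l| := by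
      rw [abs_mul]
      exact mul_le_of_le_one_right (abs_nonneg _) (hs.abs_V j k)
    have := abs_le.1 this
    constructor <;> linarith
  let a : ℕ → ℕ → ℝ := fun i l => if h : l < n + 1 then 2 * M * |W (ι i) ⟨l, h⟩| else 0
  let y : ℕ → ℕ → ℝ := fun i j => if h : j < n + 1 then M * V ⟨j, h⟩ (ι i) else 0
  have ha : ∀ i (l : Fin (n + 1)), a i l = 2 * M * |W (ι i) l| := fun i l => dif_pos l.2
  have hy : ∀ i (l : Fin (n + 1)), y i l = M * V l (ι i) := fun i l => dif_pos l.2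
  refine ⟨a, y, ?_, ?_, ?_, ?_, ?_, ?_, ?_, ?_, ?_, ?_⟩
  · intro i hi j hj
    rcases hM i hi ⟨j, hj⟩ with ⟨h, _⟩ | ⟨h, _⟩ | ⟨h, _⟩ <;> simp only at h <;> simp [h]
  · intro i _ l hl
    rw [ha i ⟨l, hl⟩]; positivity
  · intro i hi l hl h0
    rw [ha i ⟨l, hl⟩, hW i hi ⟨l, hl⟩]
    simp [h0, sg]
  · intro i hi j hj h0
    rw [hy i ⟨j, hj⟩]
    rcases hM i hi ⟨j, hj⟩ with ⟨h, h'⟩ | ⟨h, h'⟩ | ⟨h, h'⟩ <;> simp only at h
    · exact absurd h h0
    · rw [h, h', ← hMdef]; simp [sg]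
    · rw [h, h', ← hMdef]; simp [sg]
  · intro i _ j hj
    rw [hy i ⟨j, hj⟩, abs_mul, abs_of_pos hM0]
    exact mul_le_of_le_one_right hM0.le (hs.abs_V _ _)
  · intro i hi
    have h1 : ∑ l, |W (ι i) l| = 1 := by
      have := hs.dual (ι i) (ι i)
      rw [if_pos rfl] at this
      rw [← this]
      exact sum_congr rfl fun l _ => by rw [← hsl, mul_comm]
    have h2 := hs.sum_W (ι i)
    constructor
    · rw [sum_range_fin _ (fun l => M * (|W (ι i) l| + W (ι i) l)), ← mul_sum, sum_add_distrib,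
        h1, h2]
      · ring
      · intro l
        have := hW i hi l
        rw [ha]
        rcases hM i hi l with ⟨h, h'⟩ | ⟨h, h'⟩ | ⟨h, h'⟩ <;> rw [h] at this ⊢ <;>
          simp only [sg] at this <;> norm_num at this ⊢
        · right; simp [h']
        · linear_combination (-M) * this
        · right; linarith
    · rw [sum_range_fin _ (fun l => M * (|W (ι i) l| - W (ι i) l)), ← mul_sum, sum_sub_distrib,
        h1, h2]
      · ring
      · intro l
        have := hW i hi l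
        rw [ha]
        rcases hM i hi l with ⟨h, h'⟩ | ⟨h, h'⟩ | ⟨h, h'⟩ <;> rw [h] at this ⊢ <;>
          simp only [sg] at this <;> norm_num at this ⊢
        · right; simp [h']
        · right; linarith
        · linear_combination M * this
  · intro i _
    rw [sum_range_fin _ (fun l => M * V l (ι i)) (hy i), ← mul_sum, hV, mul_zero]
  · intro i hi k hk hik
    rw [sum_range_fin _ (fun l => 2 * M * M * (W (ι i) l * V l (ι k))), ← mul_sum, hs.dual,
      if_neg fun h => hik (hι i hi k hk h), mul_zero]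
    intro l
    rw [ha, hy]
    linear_combination (-2 * M * M * V l (ι k)) * hW i hi l
  · intro l hl j hj hlj
    have h1 := hle (fun k => 2 * M * M * (|W k ⟨l, hl⟩| + W k ⟨l, hl⟩ * V ⟨j, hj⟩ k))
      fun k => mul_nonneg (by positivity) (hnn k _ _).1
    have h2 := hs.vw ⟨j, hj⟩ ⟨l, hl⟩
    rw [if_neg fun h => hlj (congrArg Fin.val h).symm] at h2
    rw [← mul_sum (s := univ), sum_add_distrib, hcol] at h1
    simp only [mul_comm (W _ _) (V _ _), eq_neg_of_add_eq_zero_right h2] at h1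
    refine le_of_eq_of_le (sum_congr rfl fun i hi => ?_) (h1.trans_eq ?_)
    · rw [ha i ⟨l, hl⟩, hy i ⟨j, hj⟩]
      linear_combination (-2 * M * M * V ⟨j, hj⟩ (ι i)) * hW i (mem_range.1 hi) ⟨l, hl⟩
    · field_simp; ring
  · intro l hl j hj hlj
    have h1 := hle (fun k => 2 * M * M * (|W k ⟨l, hl⟩| - W k ⟨l, hl⟩ * V ⟨j, hj⟩ k))
      fun k => mul_nonneg (by positivity) (hnn k _ _).2
    have h2 := hs.vw ⟨j, hj⟩ ⟨l, hl⟩
    rw [if_neg fun h => hlj (congrArg Fin.val h).symm] at h2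
    rw [← mul_sum (s := univ), sum_sub_distrib, hcol] at h1
    simp only [mul_comm (W _ _) (V _ _), eq_neg_of_add_eq_zero_right h2] at h1
    refine le_of_eq_of_le (sum_congr rfl fun i hi => ?_) (h1.trans_eq ?_)
    · rw [ha i ⟨l, hl⟩, hy i ⟨j, hj⟩]
      linear_combination (2 * M * M * V ⟨j, hj⟩ (ι i)) * hW i (mem_range.1 hi) ⟨l, hl⟩
    · ring

theorem cnt_eq (m : ℕ) (f : ℕ → ℕ) (e : ℕ) : cnt m f e = #{j ∈ range m | f j = e} := by
  rw [cnt, sumN_eq, card_filter]
  exact sum_congr rfl fun j _ => by by_cases h : f j = e <;> simp [nbeq, h]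

theorem side_bounds {m : ℕ} (hm : 0 < m) (d : ℕ → ℕ) (a z : ℕ → ℝ) (e : ℕ)
    (ha0 : ∀ l < m, 0 ≤ a l) (hz1 : ∀ j < m, d j = e → z j = m) (hzb : ∀ j < m, z j ≤ m)
    (hs : ∑ l ∈ range m, (if d l = e then a l else 0) = m)
    (hi : ∀ l < m, ∀ j < m, l ≠ j → d l = e → a l * (m + z j) ≤ 2 * m * (m - 2)) :
    1 ≤ cnt m d e ∧
    (∀ l < m, d l = e → (aLo0 m (cnt m d e) : ℝ) ≤ a l ∧ a l ≤ aHi0 m (cnt m d e)) ∧
    ∀ j < m, d j ≠ e → z j ≤ yB0 m (cnt m d e) := by
  have hM : (0 : ℝ) < m := by exact_mod_cast hm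
  rw [← sum_filter] at hs
  rw [cnt_eq]
  set S := {j ∈ range m | d j = e} with hS
  have hmem : ∀ {l}, l ∈ S ↔ l < m ∧ d l = e := by simp [hS]
  have h2 : ∀ l ∈ S, ∀ j ∈ S, l ≠ j → a l ≤ m - 2 := by
    intro l hl j hj hlj
    have := hi l (hmem.1 hl).1 j (hmem.1 hj).1 hlj (hmem.1 hl).2
    rw [hz1 j (hmem.1 hj).1 (hmem.1 hj).2] at this
    nlinarith
  have h1 : S.Nonempty := by
    rw [nonempty_iff_ne_empty]
    intro h
    rw [h, sum_empty] at hs
    exact hM.ne hs
  refine ⟨h1.card_pos, fun l hl hdl => ?_, fun j hj hdj => ?_⟩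
  · have hlS : l ∈ S := hmem.2 ⟨hl, hdl⟩
    constructor
    · have h3 := sum_le_card_nsmul (S.erase l) a (m - 2) fun j hj =>
        h2 j (mem_of_mem_erase hj) l hlS (ne_of_mem_erase hj)
      rw [card_erase_of_mem hlS, nsmul_eq_mul, Nat.cast_sub h1.card_pos] at h3
      rw [← add_sum_erase S a hlS] at hs
      simp only [aLo0]
      push_cast at h3 ⊢
      exact max_le (ha0 l hl) (by linarith)
    · simp only [aHi0]
      split_ifs with h
      · push_cast
        rw [← hs]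
        exact single_le_sum (fun j hj => ha0 j (hmem.1 hj).1) hlS
      · push_cast
        obtain ⟨j, hj, hjl⟩ := exists_mem_ne (s := S) (by have := h1.card_pos; omega) l
        exact h2 l hlS j hj hjl.symm
  · simp only [yB0]
    split_ifs with h
    · obtain ⟨l, hl⟩ := card_eq_one.1 h
      have hlS : l ∈ S := by rw [hl]; exact mem_singleton_self l
      rw [hl, sum_singleton] at hs
      have := hi l (hmem.1 hlS).1 j hj (fun h => hdj (h ▸ (hmem.1 hlS).2)) (hmem.1 hlS).2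
      rw [hs] at this
      push_cast
      nlinarith
    · push_cast
      exact hzb j hj

theorem sum_three {m : ℕ} (d : ℕ → ℕ) (hd : ∀ j < m, d j = 0 ∨ d j = 1 ∨ d j = 2) (u v w : ℝ) :
    ∑ j ∈ range m, (if d j = 1 then u else if d j = 2 then v else w) =
      cnt m d 1 * u + cnt m d 2 * v + ((m : ℝ) - cnt m d 1 - cnt m d 2) * w := by
  have : ∀ j ∈ range m, (if d j = 1 then u else if d j = 2 then v else w) =
      (if d j = 1 then (1 : ℝ) else 0) * (u - w) + (if d j = 2 then (1 : ℝ) else 0) * (v - w)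
        + w := by
    intro j hj
    rcases hd j (mem_range.1 hj) with h | h | h <;> simp [h]
  rw [sum_congr rfl this]
  simp only [sum_add_distrib, ← sum_mul, sum_boole, cnt_eq, sum_const, card_range, nsmul_eq_mul]
  ring

theorem sum_sg {m : ℕ} (d : ℕ → ℕ) (hd : ∀ j < m, d j = 0 ∨ d j = 1 ∨ d j = 2) :
    ∑ j ∈ range m, sg (d j) = (cnt m d 1 : ℝ) - cnt m d 2 := by
  simp only [sg]
  rw [sum_three d hd]
  ring

theorem Facts.row {m t : ℕ} {d : ℕ → ℕ → ℕ} {a y : ℕ → ℕ → ℝ} (F : Facts m t d a y)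
    (hm : 0 < m) {i : ℕ} (hi : i < t) :
    1 ≤ cnt m (d i) 1 ∧ 1 ≤ cnt m (d i) 2 ∧
    (∀ l < m, d i l = 1 →
      (aLo0 m (cnt m (d i) 1) : ℝ) ≤ a i l ∧ a i l ≤ aHi0 m (cnt m (d i) 1)) ∧
    (∀ l < m, d i l = 2 →
      (aLo0 m (cnt m (d i) 2) : ℝ) ≤ a i l ∧ a i l ≤ aHi0 m (cnt m (d i) 2)) ∧
    ∀ j < m, d i j = 0 → (yLo0 m (cnt m (d i) 1) (cnt m (d i) 2) : ℝ) ≤ y i j ∧
      y i j ≤ yHi0 m (cnt m (d i) 1) (cnt m (d i) 2) := by
  have h0 : ∀ l < m, ∀ j < m, l ≠ j → a i l * (m + sg (d i l) * y i j) ≤ 2 * m * (m - 2) := by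
    intro l hl j hj hlj
    refine le_trans (single_le_sum (f := fun i => a i l * (m + sg (d i l) * y i j))
      (fun k hk => ?_) (mem_range.2 hi)) (F.i1 l hl j hj hlj)
    have := abs_le.1 (F.yb k (mem_range.1 hk) j hj)
    refine mul_nonneg (F.a0 k (mem_range.1 hk) l hl) ?_
    simp only [sg]
    split_ifs <;> linarith
  obtain ⟨p1, p2, p3⟩ := side_bounds hm (d i) (a i) (y i) 1 (F.a0 i hi)
    (fun j hj h => by rw [F.ys i hi j hj (by omega), h]; simp [sg])
    (fun j hj => (abs_le.1 (F.yb i hi j hj)).2) (F.e1 i hi).1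
    (fun l hl j hj hlj h => by simpa [h, sg] using h0 l hl j hj hlj)
  obtain ⟨q1, q2, q3⟩ := side_bounds hm (d i) (a i) (fun j => -y i j) 2 (F.a0 i hi)
    (fun j hj h => by rw [F.ys i hi j hj (by omega), h]; simp [sg])
    (fun j hj => by linarith [(abs_le.1 (F.yb i hi j hj)).1]) (F.e1 i hi).2
    (fun l hl j hj hlj h => by simpa [h, sg] using h0 l hl j hj hlj)
  refine ⟨p1, q1, p2, q2, fun j hj h => ?_⟩
  have key : ∀ (z : ℕ → ℝ) (u v w : ℝ), ∑ k ∈ range m, z k = 0 →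
      (∀ k < m, z k ≤ if d i k = 1 then u else if d i k = 2 then v else w) →
      -z j ≤ cnt m (d i) 1 * u + cnt m (d i) 2 * v +
        ((m : ℝ) - cnt m (d i) 1 - cnt m (d i) 2 - 1) * w := by
    intro z u v w h1 h2
    have h3 := sum_three (d i) (F.dle i hi) u v w
    rw [← add_sum_erase _ _ (mem_range.2 hj)] at h1 h3
    have h4 := sum_le_sum fun k (hk : k ∈ (range m).erase j) =>
      h2 k (mem_range.1 (mem_of_mem_erase hk))
    simp only [h, zero_ne_one, if_false, OfNat.zero_ne_ofNat] at h3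
    linarith
  have k1 := key (y i) m (-m) (yB0 m (cnt m (d i) 1)) (F.e2 i hi) fun k hk => by
    rcases F.dle i hi k hk with h | h | h
    · simpa [h] using p3 k hk (by omega)
    · rw [F.ys i hi k hk (by omega), h]; simp [sg]
    · rw [F.ys i hi k hk (by omega), h]; simp [sg]
  have k2 := key (fun k => -y i k) (-m) m (yB0 m (cnt m (d i) 2))
    (by rw [sum_neg_distrib, F.e2 i hi, neg_zero]) fun k hk => by
    rcases F.dle i hi k hk with h | h | h
    · simpa [h] using q3 k hk (by omega)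
    · rw [F.ys i hi k hk (by omega), h]; simp [sg]
    · rw [F.ys i hi k hk (by omega), h]; simp [sg]
  have p4 := p3 j hj (by omega)
  have q4 := q3 j hj (by omega)
  simp only [yLo0, yHi0]
  push_cast
  refine ⟨neg_le.1 (le_min q4 (by linarith)), le_min p4 (by linarith)⟩

theorem Facts.valid {m t : ℕ} {d : ℕ → ℕ → ℕ} {a y : ℕ → ℕ → ℝ} (F : Facts m t d a y)
    (hm : 0 < m) {i : ℕ} (hi : i < t) {x : ℕ} (hx : ∀ j < m, dig x j = d i j) :
    validRow m x = true := by
  have hc : ∀ e, cnt m (dig x) e = cnt m (d i) e := fun e => by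
    rw [cnt_eq, cnt_eq]
    exact congrArg _ (filter_congr fun j hj => by rw [hx j (mem_range.1 hj)])
  obtain ⟨h1, h2, -, -, h3⟩ := F.row hm hi
  simp only [validRow, force_eq, Bool.and_eq_true, allN_iff, Nat.blt_eq, decide_eq_true_eq, hc]
  have hM : (0 : ℝ) < m := by exact_mod_cast hm
  have h0 := sum_three (d i) (F.dle i hi) 0 0 1
  refine ⟨fun j hj => by rcases F.dle i hi j hj with h | h | h <;> rw [hx j hj] <;> omega,
    h1, h2, ?_⟩
  by_cases hz : ∃ j < m, d i j = 0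
  · obtain ⟨j, hj, h⟩ := hz
    refine ⟨fun h' => ?_, fun _ => by exact_mod_cast (h3 j hj h).1.trans (h3 j hj h).2⟩
    have h4 := single_le_sum
      (f := fun j => if d i j = 1 then (0 : ℝ) else if d i j = 2 then 0 else 1)
      (fun k _ => by split_ifs <;> norm_num) (mem_range.2 hj)
    have h5 : (cnt m (d i) 1 : ℝ) + cnt m (d i) 2 = m := by exact_mod_cast h'
    simp only [h, zero_ne_one, if_false, OfNat.zero_ne_ofNat] at h4
    linarith
  · push Not at hz
    constructor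
    · intro _
      have h4 := F.e2 i hi
      rw [sum_congr rfl fun j hj => F.ys i hi j (mem_range.1 hj) (hz j (mem_range.1 hj)),
        ← mul_sum, sum_sg _ (F.dle i hi)] at h4
      exact_mod_cast sub_eq_zero.1 ((mul_eq_zero.1 h4).resolve_left hM.ne')
    · intro h'
      rw [sum_eq_zero fun j hj => by
        have := hz j (mem_range.1 hj)
        rcases F.dle i hi j (mem_range.1 hj) with h | h | h <;> simp_all] at h0
      have h5 : (cnt m (d i) 1 : ℝ) + cnt m (d i) 2 < m := by exact_mod_cast h'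
      linarith

end Pool.Agent.Lib.MP_485030_co
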