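import Pool.Agent.Lib.MP_485030_co.Sound2

/-!
Soundness of the checkers, third part: the certificates of infeasibility.
-/

namespace Pool.Agent.Lib.MP_485030_co

open Finset

/-- Indicator of the digit zero. -/
noncomputable def fr (e : ℕ) : ℝ := if e = 0 then 1 else 0

section

variable (m t : ℕ) (d : ℕ → ℕ → ℕ) (y α β ρ : ℕ → ℕ → ℝ) (ζ : ℕ → ℝ) (ω ν : ℕ → ℕ → ℝ)
  (μ qb qc : ℕ → ℕ → ℕ → ℝ)

noncomputable def c1 (i l : ℕ) : ℝ := ρ i (d i l) +
  ∑ j ∈ range m, (ν i l * y i j - (α l j * (m + sg (d i l) * y i j) +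
    β l j * (m - sg (d i l) * y i j)) + fr (d i j) * μ i (d i l) j * y i j) +
  ∑ k ∈ range t, (if i = k then 0 else ω i k * (sg (d i l) * y k l))

noncomputable def c0 (i l : ℕ) : ℝ :=
  fr (d i l) * (ζ i - m * (μ i 1 l + μ i 2 l)) * y i l +
  ∑ j ∈ range m, (fr (d i l) * (1 - fr (d i j)) * qb i j l * y i l -
    fr (d i j) * (1 - fr (d i l)) * qb i l j * y i j) +
  ∑ k ∈ range t, (fr (d i l) * (1 - fr (d k l)) * qc k l i * y i l -
    fr (d k l) * (1 - fr (d i l)) * qc i l k * y k l)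

theorem lagr {a : ℕ → ℕ → ℝ} (F : Facts m t d a y) (hα : ∀ l j, 0 ≤ α l j)
    (hβ : ∀ l j, 0 ≤ β l j) (hα0 : ∀ l, α l l = 0) (hβ0 : ∀ l, β l l = 0) :
    0 ≤ ∑ l ∈ range m, ∑ j ∈ range m, (2 * m * (m - 2) * α l j + 2 * m * m * β l j) +
      ∑ i ∈ range t, m * (ζ i * ((cnt m (d i) 1 : ℝ) - cnt m (d i) 2) - ρ i 1 - ρ i 2) +
      ∑ i ∈ range t, ∑ l ∈ range m,
        (a i l * c1 m t d y α β ρ ω ν μ i l + c0 m t d y ζ μ qb qc i l) := by
  have A : ∀ i < t, ∀ g : ℕ → ℝ, ∑ l ∈ range m, a i l * g (d i l) = m * (g 1 + g 2) := by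
    intro i hi g
    have h : ∀ l ∈ range m, a i l * g (d i l) = (if d i l = 1 then a i l else 0) * g 1 +
        (if d i l = 2 then a i l else 0) * g 2 := by
      intro l hl
      rcases F.dle i hi l (mem_range.1 hl) with h | h | h
      · simp [h, F.az i hi l (mem_range.1 hl) h]
      · simp [h]
      · simp [h]
    rw [sum_congr rfl h, sum_add_distrib, ← sum_mul, ← sum_mul, (F.e1 i hi).1, (F.e1 i hi).2]
    ring
  have h3 : ∑ i ∈ range t, ∑ l ∈ range m, ∑ j ∈ range m, a i l *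
      (α l j * (m + sg (d i l) * y i j) + β l j * (m - sg (d i l) * y i j)) ≤
      ∑ l ∈ range m, ∑ j ∈ range m, (2 * m * (m - 2) * α l j + 2 * m * m * β l j) := by
    rw [sum_comm]
    refine sum_le_sum fun l hl => ?_
    rw [sum_comm]
    refine sum_le_sum fun j hj => ?_
    by_cases hlj : l = j
    · simp [hlj, hα0, hβ0]
    · have e1 := mul_le_mul_of_nonneg_left (F.i1 l (mem_range.1 hl) j (mem_range.1 hj) hlj) (hα l j)
      have e2 := mul_le_mul_of_nonneg_left (F.i2 l (mem_range.1 hl) j (mem_range.1 hj) hlj) (hβ l j)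
      rw [mul_sum] at e1 e2
      refine le_of_eq_of_le ?_ ((add_le_add e1 e2).trans_eq (by ring))
      rw [← sum_add_distrib]
      exact sum_congr rfl fun i _ => by ring
  have h1 : ∀ i ∈ range t, ∑ l ∈ range m, a i l * c1 m t d y α β ρ ω ν μ i l =
      m * (ρ i 1 + ρ i 2) - ∑ l ∈ range m, ∑ j ∈ range m, a i l *
        (α l j * (m + sg (d i l) * y i j) + β l j * (m - sg (d i l) * y i j)) +
      ∑ j ∈ range m, fr (d i j) * (m * (μ i 1 j + μ i 2 j)) * y i j := by
    intro i hi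
    have hi := mem_range.1 hi
    have h4 : ∑ l ∈ range m, ∑ j ∈ range m, a i l * (fr (d i j) * μ i (d i l) j * y i j) =
        ∑ j ∈ range m, fr (d i j) * (m * (μ i 1 j + μ i 2 j)) * y i j := by
      rw [sum_comm]
      refine sum_congr rfl fun j _ => ?_
      rw [A i hi fun e => fr (d i j) * μ i e j * y i j]
      ring
    have h5 : ∑ l ∈ range m, ∑ k ∈ range t,
        a i l * (if i = k then 0 else ω i k * (sg (d i l) * y k l)) = 0 := by
      rw [sum_comm]
      refine sum_eq_zero fun k hk => ?_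
      by_cases hik : i = k
      · simp [hik]
      · have := F.e3 i hi k (mem_range.1 hk) hik
        simp only [if_neg hik]
        rw [← mul_zero (ω i k), ← this, mul_sum]
        exact sum_congr rfl fun l _ => by ring
    have h2 : ∀ l, ∑ j ∈ range m, ν i l * y i j = 0 := fun l => by
      rw [← mul_sum, F.e2 i hi, mul_zero]
    simp only [c1, sum_add_distrib, sum_sub_distrib, h2, mul_add, mul_sub, mul_zero, mul_sum] at h4 h5 ⊢
    rw [h4, h5, A i hi (ρ i)]
    simp only [mul_add, sum_const_zero]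
    ring
  have h6 : ∀ i ∈ range t, ∑ l ∈ range m, fr (d i l) * (ζ i - m * (μ i 1 l + μ i 2 l)) * y i l =
      -(m * (ζ i * ((cnt m (d i) 1 : ℝ) - cnt m (d i) 2))) -
      ∑ j ∈ range m, fr (d i j) * (m * (μ i 1 j + μ i 2 j)) * y i j := by
    intro i hi
    have hi := mem_range.1 hi
    have h : ∀ l ∈ range m, fr (d i l) * (ζ i - m * (μ i 1 l + μ i 2 l)) * y i l =
        ζ i * y i l - m * (ζ i * sg (d i l)) - fr (d i l) * (m * (μ i 1 l + μ i 2 l)) * y i l := by
      intro l hl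
      by_cases h : d i l = 0
      · simp [fr, sg, h]; ring
      · rw [F.ys i hi l (mem_range.1 hl) h]
        simp [fr, h]; ring
    rw [sum_congr rfl h, sum_sub_distrib, sum_sub_distrib, ← mul_sum, ← mul_sum, ← mul_sum,
      F.e2 i hi, sum_sg _ (F.dle i hi)]
    ring
  have h7 : ∀ i ∈ range t, ∑ l ∈ range m, ∑ j ∈ range m,
      (fr (d i l) * (1 - fr (d i j)) * qb i j l * y i l -
        fr (d i j) * (1 - fr (d i l)) * qb i l j * y i j) = 0 := by
    intro i _
    simp only [sum_sub_distrib]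
    rw [sum_comm, sub_self]
  have h8 : ∑ i ∈ range t, ∑ l ∈ range m, ∑ k ∈ range t,
      (fr (d i l) * (1 - fr (d k l)) * qc k l i * y i l -
        fr (d k l) * (1 - fr (d i l)) * qc i l k * y k l) = 0 := by
    rw [sum_comm]
    refine sum_eq_zero fun l _ => ?_
    simp only [sum_sub_distrib]
    rw [sum_comm, sub_self]
  simp only [c0, sum_add_distrib]
  rw [sum_congr rfl h1, sum_congr rfl h6, sum_congr rfl h7, h8]
  simp only [sum_add_distrib, sum_sub_distrib, mul_sub, mul_add, sum_neg_distrib,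
    sum_const_zero] at h3 ⊢
  linarith

end

theorem cast_sub_ge (a b : ℕ) : (a : ℝ) - b ≤ ((a - b : ℕ) : ℝ) := by
  rcases le_total a b with h | h
  · have : (a : ℝ) ≤ b := by exact_mod_cast h
    have : (0 : ℝ) ≤ ((a - b : ℕ) : ℝ) := by positivity
    linarith
  · rw [Nat.cast_sub h]

theorem mxb_ge (m B p n lo hi : ℕ) (z : ℝ) (h1 : (lo : ℝ) ≤ z + m) (h2 : z + m ≤ hi) :
    (B : ℝ) + ((p : ℝ) - n) * z ≤ mxb m B p n lo hi := by
  simp only [mxb, force_eq, nsub, nadd, nmul]
  refine le_trans ?_ (cast_sub_ge _ _)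
  push_cast
  rcases le_total p n with h | h
  · have h' : (p : ℝ) ≤ n := by exact_mod_cast h
    rw [Nat.sub_eq_zero_of_le h, Nat.cast_sub h]
    push_cast
    nlinarith
  · have h' : (n : ℝ) ≤ p := by exact_mod_cast h
    rw [Nat.sub_eq_zero_of_le h, Nat.cast_sub h]
    push_cast
    nlinarith

section

variable {m t : ℕ} {d : ℕ → ℕ → ℕ} {a y : ℕ → ℕ → ℝ} {R : ℕ → ℕ → ℕ} {P N : ℕ → ℕ} (D : ℕ)

noncomputable def C1 (m t : ℕ) (d : ℕ → ℕ → ℕ) (y : ℕ → ℕ → ℝ) (D : ℕ) : ℕ → ℕ → ℝ :=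
  c1 m t d y (fun l j => mAl D l j) (fun l j => mBe D l j) (fun i e => mRho D i e - 524288)
    (fun i k => mOm D i k - 524288) (fun i l => mNu D i l - 524288)
    (fun i e j => mMu D i e j - 524288)

noncomputable def C0 (m t : ℕ) (d : ℕ → ℕ → ℕ) (y : ℕ → ℕ → ℝ) (D : ℕ) : ℕ → ℕ → ℝ :=
  c0 m t d y (fun i => mZe D i - 524288) (fun i e j => mMu D i e j - 524288)
    (fun i l j => qB D i l j - 524288) (fun i l k => qC D i l k - 524288)

theorem yTerm_ge {k j : ℕ} (h : d k j = 0) (h1 : (R k 5 : ℝ) ≤ y k j + m)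
    (h2 : y k j + m ≤ R k 6) :
    (2 * m + t) * 1099511627776 + C0 m t d y D k j ≤ yTerm m t d R D k j := by
  refine le_trans (le_of_eq ?_) (mxb_ge _ _ _ _ _ _ _ h1 h2)
  have e : ∀ (n : ℕ) (f g : ℕ → ℕ), ∑ l ∈ range n, ((bif Nat.beq (f l) 0 then 524288 else g l : ℕ) : ℝ)
      = ∑ l ∈ range n, (1 - fr (f l)) * ((g l : ℝ) - 524288) + n * 524288 := by
    intro n f g
    rw [← nsmul_eq_mul, ← card_range n, ← sum_const, card_range, ← sum_add_distrib]
    exact sum_congr rfl fun l _ => by by_cases h : f l = 0 <;> simp [fr, nbeq, h]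
  have e0 : fr 0 = 1 := by simp [fr]
  simp only [C0, c0, h, e0, nadd, nmul, sumN_eq, Nat.cast_add, Nat.cast_mul, Nat.cast_sum, e,
    Nat.succ_eq_add_one, sub_self, mul_zero, zero_mul, sub_zero, one_mul, ← sum_mul]
  push_cast
  ring

theorem blockAt_ge (F : Facts m t d a y) {i l : ℕ} (hi : i < t) (hl : l < m) (h : d i l ≠ 0)
    (hP : P i = cnt m (d i) 1) (hN : N i = cnt m (d i) 2)
    (hR : ∀ k < t, ∀ j < m, d k j = 0 → (R k 5 : ℝ) ≤ y k j + m ∧ y k j + m ≤ R k 6) (A : ℕ) :
    (2 * m + t) * 1099511627776 + (A * C1 m t d y D i l + C0 m t d y D i l) ≤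
      blockAt m t d R D i l (d i l) (mNu D i l) (cX m t d P N D i l (d i l) (mNu D i l))
        (R i 5) (R i 6) A := by
  have hA : (0 : ℝ) ≤ A := by positivity
  have hm : (0 : ℝ) ≤ m := by positivity
  have he := (F.dle i hi l hl).resolve_left h
  have hX : 1099511627776 + ((mRho D i (d i l) : ℝ) - 524288) +
      ∑ j ∈ range m, (m * ((mNu D i l : ℝ) - 524288) * sg (d i j) - m * xs d D i l (d i l) j) +
      ∑ k ∈ range t, (m : ℝ) * (xo d D i l (d i l) k - 524288) ≤
      cX m t d P N D i l (d i l) (mNu D i l) := by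
    simp only [cX, nsub, nadd, nmul, sumN_eq]
    refine le_trans (le_of_eq ?_) (cast_sub_ge _ _)
    simp only [sum_sub_distrib, ← mul_sum, sum_sg _ (F.dle i hi), hP, hN, sum_const, card_range,
      nsmul_eq_mul]
    push_cast
    ring
  have hB : ∀ j ∈ range m, A * (((mNu D i l : ℝ) - 524288) * y i j -
      (mAl D l j * (m + sg (d i l) * y i j) + mBe D l j * (m - sg (d i l) * y i j)) +
      fr (d i j) * ((mMu D i (d i l) j : ℝ) - 524288) * y i j) +
      (fr (d i l) * (1 - fr (d i j)) * ((qB D i j l : ℝ) - 524288) * y i l -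
        fr (d i j) * (1 - fr (d i l)) * ((qB D i l j : ℝ) - 524288) * y i j) ≤
      A * (m * ((mNu D i l : ℝ) - 524288) * sg (d i j) - m * xs d D i l (d i l) j) +
      (fB m d D i l (d i l) (mNu D i l) (R i 5) (R i 6) A j - 1099511627776) := by
    intro j hj
    have hj := mem_range.1 hj
    by_cases h0 : d i j = 0
    · simp only [fB, xs, force_eq, h0, nbeq, decide_true, cond_true, nadd, nmul]
      refine le_trans (le_of_eq ?_) (add_le_add le_rfl (sub_le_sub_right
        (mxb_ge _ _ _ _ _ _ _ (hR i hi j hj h0).1 (hR i hi j hj h0).2) _))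
      rcases he with he | he <;> simp [he, fr, sg] <;> ring
    · rw [F.ys i hi j hj h0]
      rcases he with he | he <;> rcases (F.dle i hi j hj).resolve_left h0 with h1 | h1 <;>
        simp [fB, xs, force_eq, nbeq, he, h1, fr, sg] <;> linarith
  have hC : ∀ k ∈ range t, A * (if i = k then 0 else
      ((mOm D i k : ℝ) - 524288) * (sg (d i l) * y k l)) +
      (fr (d i l) * (1 - fr (d k l)) * ((qC D k l i : ℝ) - 524288) * y i l -
        fr (d k l) * (1 - fr (d i l)) * ((qC D i l k : ℝ) - 524288) * y k l) ≤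
      A * (m * (xo d D i l (d i l) k - 524288)) +
      (fC m d R D i l (d i l) A k - 1099511627776) := by
    intro k hk
    have hk := mem_range.1 hk
    by_cases h0 : d k l = 0
    · have hik : i ≠ k := fun hik => h (hik ▸ h0)
      simp only [fC, xo, force_eq, h0, nbeq, decide_true, cond_true, nadd, nmul, Bool.true_or]
      refine le_trans (le_of_eq ?_) (add_le_add le_rfl (sub_le_sub_right
        (mxb_ge _ _ _ _ _ _ _ (hR k hk l hl h0).1 (hR k hk l hl h0).2) _))
      rcases he with he | he <;> simp [he, fr, sg, hik] <;> ring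
    · rw [F.ys k hk l hl h0]
      by_cases hik : i = k
      · subst hik
        simp [fC, xo, force_eq, nbeq, fr, h]
      · have := mul_le_mul_of_nonneg_left (cast_sub_ge 1048576 (mOm D i k)) (mul_nonneg hA hm)
        rcases he with he | he <;> rcases (F.dle k hk l hl).resolve_left h0 with h1 | h1 <;>
          simp [fC, xo, force_eq, nbeq, he, h1, fr, sg, hik] at this ⊢ <;> linarith
  have h1 := sum_le_sum hB
  have h2 := sum_le_sum hC
  have h3 := mul_le_mul_of_nonneg_left hX hA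
  simp only [blockAt, nsub, nadd, nmul, sumN_eq]
  refine le_trans ?_ (cast_sub_ge _ _)
  have e0 : fr (d i l) = 0 := by simp [fr, h]
  simp only [sum_add_distrib, ← mul_sum, sum_sub_distrib (f := fun j => (fB m d D i l (d i l) (mNu D i l) (R i 5) (R i 6) A j : ℝ)), sum_sub_distrib (f := fun k => (fC m d R D i l (d i l) A k : ℝ)), sum_const, card_range, nsmul_eq_mul] at h1 h2
  simp only [C1, C0, c1, c0, sum_add_distrib, ← mul_sum] at h3 ⊢
  push_cast
  rw [e0] at h1 h2 ⊢
  linarith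

theorem le_pick (B : ℕ → ℕ) (u v : ℕ) :
    B u ≤ (bif Nat.beq u v then B u else bif Nat.ble (B u) (B v) then B v else B u) ∧
    B v ≤ (bif Nat.beq u v then B u else bif Nat.ble (B u) (B v) then B v else B u) := by
  by_cases e : u = v
  · simp [e]
  · cases e' : Nat.ble (B u) (B v)
    · have : ¬B u ≤ B v := by rw [← Nat.ble_eq, e']; simp
      simp [e, nbeq]; omega
    · simpa [e, nbeq] using Nat.le_of_ble_eq_true e'

theorem cell_ge (F : Facts m t d a y) {i l : ℕ} (hi : i < t) (hl : l < m)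
    (hP : P i = cnt m (d i) 1) (hN : N i = cnt m (d i) 2)
    (hR : ∀ k < t, ∀ j < m, d k j = 0 → (R k 5 : ℝ) ≤ y k j + m ∧ y k j + m ≤ R k 6)
    (hR' : d i l ≠ 0 → (R i (d i l) : ℝ) ≤ a i l ∧ a i l ≤ R i (d i l + 2)) :
    (2 * m + t) * 1099511627776 + (a i l * C1 m t d y D i l + C0 m t d y D i l) ≤
      cell m t d R P N D i l := by
  rw [cell, force_eq, nbeq, Bool.cond_decide]
  by_cases h : d i l = 0
  · rw [if_pos h, F.az i hi l hl h, zero_mul, zero_add]
    exact yTerm_ge D h (hR i hi l hl h).1 (hR i hi l hl h).2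
  · have h1 := blockAt_ge D F hi hl h hP hN hR (R i (d i l))
    have h2 := blockAt_ge D F hi hl h hP hN hR (R i (d i l + 2))
    obtain ⟨h3, h4⟩ := hR' h
    rw [if_neg h, force_eq, force_eq, force_eq, force_eq, force_eq, force_eq, force_eq, force_eq,
      nadd]
    have h5 := le_pick (blockAt m t d R D i l (d i l) (mNu D i l)
      (cX m t d P N D i l (d i l) (mNu D i l)) (R i 5) (R i 6)) (R i (d i l)) (R i (d i l + 2))
    rcases le_total 0 (C1 m t d y D i l) with hc | hc
    · exact le_trans (by nlinarith) (h2.trans (Nat.cast_le.2 h5.2))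
    · exact le_trans (by nlinarith) (h1.trans (Nat.cast_le.2 h5.1))

theorem lpOK_sound (F : Facts m t d a y)
    (hP : ∀ i < t, P i = cnt m (d i) 1) (hN : ∀ i < t, N i = cnt m (d i) 2)
    (hR : ∀ k < t, ∀ j < m, d k j = 0 → (R k 5 : ℝ) ≤ y k j + m ∧ y k j + m ≤ R k 6)
    (hR' : ∀ i < t, ∀ l < m, d i l ≠ 0 → (R i (d i l) : ℝ) ≤ a i l ∧ a i l ≤ R i (d i l + 2))
    (h : lpOK m t d R P N D = true) : False := by
  have h1 := lagr m t d y (fun l j => mAl D l j) (fun l j => mBe D l j)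
    (fun i e => mRho D i e - 524288) (fun i => mZe D i - 524288)
    (fun i k => mOm D i k - 524288) (fun i l => mNu D i l - 524288)
    (fun i e j => mMu D i e j - 524288) (fun i l j => qB D i l j - 524288)
    (fun i l k => qC D i l k - 524288) F (fun _ _ => by positivity) (fun _ _ => by positivity)
    (fun l => by simp [mAl]) (fun l => by simp [mBe])
  have h2 := sum_le_sum fun i (hi : i ∈ range t) => sum_le_sum fun l (hl : l ∈ range m) =>
    cell_ge D F (mem_range.1 hi) (mem_range.1 hl) (hP i (mem_range.1 hi)) (hN i (mem_range.1 hi))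
      hR (hR' i (mem_range.1 hi) l (mem_range.1 hl))
  have h3 : ∑ l ∈ range m, ∑ j ∈ range m,
      (2 * m * (m - 2) * (mAl D l j : ℝ) + 2 * m * m * mBe D l j) ≤
      2 * m * ∑ l ∈ range m, ∑ j ∈ range m, (((m - 2 : ℕ) : ℝ) * mAl D l j + m * mBe D l j) := by
    simp only [mul_sum]
    refine sum_le_sum fun l _ => sum_le_sum fun j _ => ?_
    have := mul_le_mul_of_nonneg_left (cast_sub_ge m 2)
      (by positivity : (0 : ℝ) ≤ 2 * m * mAl D l j)
    push_cast at this
    linarith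
  have h4 : ∑ i ∈ range t, m * (((mZe D i : ℝ) - 524288) * ((cnt m (d i) 1 : ℝ) - cnt m (d i) 2) -
      (mRho D i 1 - 524288) - (mRho D i 2 - 524288)) =
      m * ∑ i ∈ range t, ((mZe D i : ℝ) * P i + 524288 * (N i + 2)) -
      m * ∑ i ∈ range t, ((mZe D i : ℝ) * N i + 524288 * P i + (mRho D i 1 + mRho D i 2)) := by
    rw [← mul_sub, ← sum_sub_distrib, mul_sum]
    refine sum_congr rfl fun i hi => ?_
    rw [hP i (mem_range.1 hi), hN i (mem_range.1 hi)]
    ring
  simp only [lpOK, Nat.blt_eq, cKp, cKn, nadd, nmul, nsub, sumN_eq] at h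
  have h5 := (Nat.cast_lt (α := ℝ)).2 h
  push_cast at h5
  simp only [sum_add_distrib (f := fun _ => (2 * (m : ℝ) + t) * 1099511627776), sum_const,
    card_range, nsmul_eq_mul] at h2
  rw [sum_add_distrib, sum_const, card_range, nsmul_eq_mul] at h2
  simp only [C1, C0] at h2
  rw [h4] at h1
  linarith

end

theorem lpCheck_sound {m t e x : ℕ} (hm : 0 < m) (hI : infoCheck m = true)
    (h : lpCheck m t e x = true) : ¬Rl m t (col e) := by
  intro hR
  obtain ⟨a, y, F⟩ := hR.facts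
  simp only [lpCheck, force_eq, Bool.and_eq_true, allN_iff, nbeq, decide_eq_true_eq,
    Nat.ble_eq] at h
  generalize (sumN t fun i => Nat.shiftLeft
    (Nat.add (Nat.mul 4 (cnt m (dg e i) 1)) (cnt m (dg e i) 2)) (Nat.mul 4 i)) = I at h
  obtain ⟨h1, ht, h2⟩ := h
  have hd : ∀ i < t, dg e i = fun j => dig (col e j) i := fun i hi =>
    funext fun j => dg_eq e i j (by omega)
  have F' : Facts m t (dg e) a y := by
    refine ⟨?_, F.a0, ?_, ?_, F.yb, ?_, F.e2, ?_, ?_, ?_⟩
    · intro i hi; rw [hd i hi]; exact F.dle i hi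
    · intro i hi; rw [hd i hi]; exact F.az i hi
    · intro i hi; rw [hd i hi]; exact F.ys i hi
    · intro i hi; rw [hd i hi]; exact F.e1 i hi
    · intro i hi; rw [hd i hi]; exact F.e3 i hi
    · intro l hl j hj hlj
      rw [sum_congr rfl fun i hi => by rw [hd i (mem_range.1 hi)]]
      exact F.i1 l hl j hj hlj
    · intro l hl j hj hlj
      rw [sum_congr rfl fun i hi => by rw [hd i (mem_range.1 hi)]]
      exact F.i2 l hl j hj hlj
  simp only [infoCheck, allN_iff, decide_eq_true_eq] at hI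
  have hb : ∀ i < t, _ := fun i hi => by
    have h3 : nib I i < 16 := Nat.mod_lt _ (by norm_num)
    obtain ⟨h4, h5⟩ := h1 i hi
    rw [nshr] at h4
    rw [nmod] at h5
    have h6 := hI (cnt m (dg e i) 1) (by omega) (cnt m (dg e i) 2) (by omega)
    rw [show 4 * cnt m (dg e i) 1 + cnt m (dg e i) 2 = nib I i by omega] at h6
    exact h6
  refine lpOK_sound _ F' (fun i hi => (h1 i hi).1) (fun i hi => (h1 i hi).2) ?_ ?_ h2
  · intro k hk j hj h0
    obtain ⟨-, -, -, -, b5, b6⟩ := hb k hk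
    obtain ⟨c1, c2⟩ := (F'.row hm hk).2.2.2.2 j hj h0
    have b5 := (Int.cast_le (R := ℝ)).2 b5
    have b6 := (Int.cast_le (R := ℝ)).2 b6
    have := abs_le.1 (F'.yb k hk j hj)
    push_cast at b5 b6
    exact ⟨b5.trans (max_le (by linarith) (by linarith)), by linarith⟩
  · intro i hi l hl h0
    obtain ⟨b1, b2, b3, b4, -, -⟩ := hb i hi
    have b1 := (Int.cast_le (R := ℝ)).2 b1
    have b2 := (Int.cast_le (R := ℝ)).2 b2
    have b3 := (Int.cast_le (R := ℝ)).2 b3
    have b4 := (Int.cast_le (R := ℝ)).2 b4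
    push_cast at b1 b2 b3 b4
    rcases (F'.dle i hi l hl).resolve_left h0 with h | h
    · obtain ⟨c1, c2⟩ := (F'.row hm hi).2.2.1 l hl h
      rw [h]
      exact ⟨b1.trans c1, c2.trans b3⟩
    · obtain ⟨c1, c2⟩ := (F'.row hm hi).2.2.2.1 l hl h
      rw [h]
      exact ⟨b2.trans c1, c2.trans b4⟩

end Pool.Agent.Lib.MP_485030_co
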